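import Pool.Agent.Work.MP_84a460_co.Families

namespace Pool.Agent.Work.MP_84a460_co

/-- Position of a vertex of the path power. -/
def ppos (n : ℕ) (v : Fin n × Fin n) : ℤ := v.1.val * n + v.2.val

/-- The `(n-1)`-st power of a path on `n ^ 2` vertices. -/
def pathPow (n : ℕ) : SimpleGraph (Fin n × Fin n) :=
  intGraph (ppos n) (fun v => ppos n v + (n - 1))

theorem pathPow_adj {n : ℕ} {u v : Fin n × Fin n} :
    (pathPow n).Adj u v ↔ u ≠ v ∧ ppos n u ≤ ppos n v + (n - 1) ∧
      ppos n v ≤ ppos n u + (n - 1) := Iff.rfl

theorem pathPow_unit {n : ℕ} (hn : 2 ≤ n) : IsUnitIntervalGraph (pathPow n) := by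
  have hpos : (0 : ℝ) < (n : ℝ) - 1 := by
    have : (2 : ℝ) ≤ n := by exact_mod_cast hn
    linarith
  refine ⟨fun v => (ppos n v : ℝ) / ((n : ℝ) - 1), fun u v => ?_⟩
  rw [Set.Icc_inter_Icc, Set.nonempty_Icc, sup_le_iff, le_inf_iff, le_inf_iff, pathPow_adj]
  have key : ∀ a b : ℤ, ((a : ℝ) / ((n : ℝ) - 1) ≤ (b : ℝ) / ((n : ℝ) - 1) + 1) ↔
      a ≤ b + (n - 1) := by
    intro a b
    rw [div_add_one (ne_of_gt hpos), div_le_div_iff_of_pos_right hpos]
    constructor
    · intro h
      have : (a : ℝ) ≤ ((b + (n - 1) : ℤ) : ℝ) := by push_cast; exact h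
      exact_mod_cast this
    · intro h
      have : (a : ℝ) ≤ ((b + (n - 1) : ℤ) : ℝ) := by exact_mod_cast h
      push_cast at this
      exact this
  simp only [key]
  have h0 : (0 : ℤ) ≤ (n : ℤ) - 1 := by omega
  constructor
  · rintro ⟨h1, h2, h3⟩
    refine ⟨h1, ⟨by omega, by omega⟩, by omega, by omega⟩
  · rintro ⟨h1, ⟨_, h2⟩, h3, _⟩
    exact ⟨h1, by omega, by omega⟩

theorem unit_of_emb {W V : Type} {H : SimpleGraph W} {G : SimpleGraph V} (e : H ↪g G)
    (h : IsUnitIntervalGraph G) : IsUnitIntervalGraph H := by
  obtain ⟨a, ha⟩ := h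
  refine ⟨fun v => a (e v), fun u v => ?_⟩
  rw [← e.map_adj_iff, ha]
  simp only [ne_eq, e.injective.eq_iff]

/-- Column sets with both colours are few. -/
theorem mixed_columns_parity {n N : ℕ} {Z : Set (Fin n × Fin n)} {τ : Fin n × Fin n → Fin N}
    (hτ : IsTypeMap (pathPow n) Z τ) (X : Finset (Fin n))
    (hX : ∀ i ∈ X, (∃ j, (i, j) ∈ Z) ∧ (∃ j, (i, j) ∉ Z))
    (hsep : ∀ i ∈ X, ∀ i' ∈ X, i < i' → i.val + 2 ≤ i'.val) : X.card ≤ N := by
  classical
  have hch : ∀ i, ∃ j, i ∈ X → (i, j) ∈ Z := by
    intro i
    by_cases hi : i ∈ X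
    · obtain ⟨⟨j, hj⟩, _⟩ := hX i hi
      exact ⟨j, fun _ => hj⟩
    · exact ⟨i, fun h => absurd h hi⟩
  choose u hu using hch
  refine card_le_of_distinguished hτ X (fun i => (i, u i)) (fun i hi => hu i hi) ?_
  intro i hi i' hi' hlt
  obtain ⟨_, ⟨j, hj⟩⟩ := hX i hi
  refine ⟨(i, j), hj, ?_⟩
  have h1 : (pathPow n).Adj (i, u i) (i, j) := by
    rw [pathPow_adj]
    refine ⟨fun h => hj (h ▸ hu i hi), ?_, ?_⟩
    · simp only [ppos]
      have := (u i).2
      omega
    · simp only [ppos]
      have := j.2
      omega
  have h2 : ¬ (pathPow n).Adj (i', u i') (i, j) := by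
    rw [pathPow_adj]
    rintro ⟨_, h3, _⟩
    have h4 := hsep i hi i' hi' hlt
    simp only [ppos] at h3
    have h5 : ((i.val : ℤ) + 2) * n ≤ (i'.val : ℤ) * n := by
      apply mul_le_mul_of_nonneg_right
      · exact_mod_cast h4
      · omega
    have := j.2
    have h6 : ((i.val : ℤ) + 2) * n = (i.val : ℤ) * n + 2 * n := by ring
    omega
  intro h
  exact h2 (h.1 h1)

theorem mixed_columns_few {n N : ℕ} {Z : Set (Fin n × Fin n)} {τ : Fin n × Fin n → Fin N}
    (hτ : IsTypeMap (pathPow n) Z τ) (X : Finset (Fin n))
    (hX : ∀ i ∈ X, (∃ j, (i, j) ∈ Z) ∧ (∃ j, (i, j) ∉ Z)) : X.card ≤ 2 * N := by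
  classical
  have h1 : (X.filter (fun i => i.val % 2 = 0)).card ≤ N := by
    refine mixed_columns_parity hτ _ (fun i hi => hX i (Finset.mem_filter.1 hi).1) ?_
    intro i hi i' hi' hlt
    rw [Finset.mem_filter] at hi hi'
    rw [Fin.lt_def] at hlt
    omega
  have h2 : (X.filter (fun i => ¬ i.val % 2 = 0)).card ≤ N := by
    refine mixed_columns_parity hτ _ (fun i hi => hX i (Finset.mem_filter.1 hi).1) ?_
    intro i hi i' hi' hlt
    rw [Finset.mem_filter] at hi hi'
    rw [Fin.lt_def] at hlt
    omega
  have h3 := Finset.card_filter_add_card_filter_not (s := X) (fun i => i.val % 2 = 0)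
  omega

/-- A `Z`-column to the left of a non-`Z`-column forces many types. -/
theorem pathPow_linkage {n N : ℕ} {Z : Set (Fin n × Fin n)} {τ : Fin n × Fin n → Fin N}
    (hτ : IsTypeMap (pathPow n) Z τ) {i0 i1 : Fin n} (hlt : i0 < i1)
    (h0 : ∀ j, (i0, j) ∈ Z) (h1 : ∀ j, (i1, j) ∉ Z) : n ≤ N := by
  classical
  have hn : 0 < n := by have := i0.2; omega
  -- last `Z` element of each row before column `i1`
  have hlast : ∀ j : Fin n, ∃ g : Fin n, g < i1 ∧ (g, j) ∈ Z ∧ ∀ g', g < g' → g' ≤ i1 →
      (g', j) ∉ Z := by
    intro j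
    let S : Finset (Fin n) := Finset.univ.filter (fun g => g < i1 ∧ (g, j) ∈ Z)
    have hS : S.Nonempty := ⟨i0, by simp [S, hlt, h0 j]⟩
    refine ⟨S.max' hS, ?_, ?_, ?_⟩
    · have := Finset.max'_mem S hS
      simp only [S, Finset.mem_filter, Finset.mem_univ, true_and] at this
      exact this.1
    · have := Finset.max'_mem S hS
      simp only [S, Finset.mem_filter, Finset.mem_univ, true_and] at this
      exact this.2
    · intro g' hg hg' hmem
      rcases lt_or_eq_of_le hg' with h | h
      · have h2 : g' ∈ S := by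
          simp only [S, Finset.mem_filter, Finset.mem_univ, true_and]
          exact ⟨h, hmem⟩
        have := Finset.le_max' S g' h2
        exact absurd hg (not_lt.2 this)
      · rw [h] at hmem
        exact h1 j hmem
  choose g hg1 hg2 hg3 using hlast
  -- distinguishing two rows
  have key : ∀ j j' : Fin n, ppos n (g j, j) < ppos n (g j', j') →
      ∃ w ∉ Z, ¬ ((pathPow n).Adj (g j, j) w ↔ (pathPow n).Adj (g j', j') w) := by
    intro j j' hlt'
    have hb1 : (g j').val < i1.val := hg1 j'
    have hb2 : (g j).val < i1.val := hg1 j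
    have hj := j.2
    have hj' := j'.2
    -- choose the target column
    let D : ℕ := if j.val ≤ j'.val then (g j').val else (g j').val - 1
    let C : ℕ := max ((g j).val + 1) D
    have hposlt : (g j).val * n + j.val < (g j').val * n + j'.val := by
      have : (((g j).val * n + j.val : ℕ) : ℤ) < (((g j').val * n + j'.val : ℕ) : ℤ) := by
        push_cast
        exact hlt'
      exact_mod_cast this
    have hgle : (g j).val ≤ (g j').val := by
      by_contra hc
      push Not at hc
      have : ((g j').val + 1) * n ≤ (g j).val * n := Nat.mul_le_mul_right _ hc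
      have h2 : ((g j').val + 1) * n = (g j').val * n + n := by ring
      omega
    have hDle : D ≤ (g j').val := by
      simp only [D]; split_ifs <;> omega
    have hC1 : C ≤ i1.val := by
      simp only [C]
      omega
    have hCn : C < n := lt_of_le_of_lt hC1 i1.2
    refine ⟨(⟨C, hCn⟩, j), ?_, ?_⟩
    · apply hg3 j
      · rw [Fin.lt_def]; simp only [C]; omega
      · rw [Fin.le_def]; exact hC1
    · have hC2 : (g j).val + 1 ≤ C := le_max_left _ _
      have hm1 : ((g j).val + 1) * n ≤ C * n := Nat.mul_le_mul_right _ hC2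
      have hm2 : ((g j).val + 1) * n = (g j).val * n + n := by ring
      have hnon : ¬ (pathPow n).Adj (g j, j) (⟨C, hCn⟩, j) := by
        rw [pathPow_adj]
        rintro ⟨_, _, h3⟩
        simp only [ppos] at h3
        have : (((C * n + j.val : ℕ)) : ℤ) ≤ (((g j).val * n + j.val + (n - 1) : ℕ) : ℤ) := by
          push_cast
          rw [Nat.cast_sub (by omega)]
          push_cast
          linarith
        have : C * n + j.val ≤ (g j).val * n + j.val + (n - 1) := by exact_mod_cast this
        omega
      have hadj : (pathPow n).Adj (g j', j') (⟨C, hCn⟩, j) := by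
        rw [pathPow_adj]
        refine ⟨?_, ?_, ?_⟩
        · intro h
          have hh : (⟨C, hCn⟩, j) ∈ Z := h ▸ hg2 j'
          have : (⟨C, hCn⟩, j) ∉ Z := by
            apply hg3 j
            · rw [Fin.lt_def]; simp only [C]; omega
            · rw [Fin.le_def]; exact hC1
          exact this hh
        · simp only [ppos]
          -- pos' ≤ C n + j + (n-1)
          have hgoal : (g j').val * n + j'.val ≤ C * n + j.val + (n - 1) := by
            rcases Nat.lt_or_ge j'.val j.val with hjj | hjj
            · have hD : D = (g j').val - 1 := by simp only [D]; rw [if_neg (by omega)]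
              have hCD : D ≤ C := le_max_right _ _
              rw [hD] at hCD
              have h5 : (g j').val ≤ C + 1 := by omega
              have h6 : (g j').val * n ≤ (C + 1) * n := Nat.mul_le_mul_right _ h5
              have h7 : (C + 1) * n = C * n + n := by ring
              omega
            · have hD : D = (g j').val := by simp only [D]; rw [if_pos hjj]
              have hCD : D ≤ C := le_max_right _ _
              rw [hD] at hCD
              have h6 : (g j').val * n ≤ C * n := Nat.mul_le_mul_right _ hCD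
              omega
          have : (((g j').val * n + j'.val : ℕ) : ℤ) ≤ ((C * n + j.val + (n - 1) : ℕ) : ℤ) := by
            exact_mod_cast hgoal
          push_cast at this
          rw [Nat.cast_sub (by omega)] at this
          push_cast at this
          linarith
        · simp only [ppos]
          have hgoal : C * n + j.val ≤ (g j').val * n + j'.val + (n - 1) := by
            rcases Nat.lt_or_ge j'.val j.val with hjj | hjj
            · -- then g j < g j'
              have h8 : (g j).val < (g j').val := by
                by_contra hc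
                push Not at hc
                have : (g j').val * n ≤ (g j).val * n := Nat.mul_le_mul_right _ hc
                omega
              have h5 : C ≤ (g j').val := by
                simp only [C]
                omega
              have h6 : C * n ≤ (g j').val * n := Nat.mul_le_mul_right _ h5
              omega
            · have h5 : C ≤ (g j').val + 1 := by
                simp only [C]
                omega
              rcases Nat.lt_or_ge C ((g j').val + 1) with h9 | h9
              · have h6 : C * n ≤ (g j').val * n := Nat.mul_le_mul_right _ (by omega)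
                omega
              · -- C = g j' + 1, so g j = g j' and j < j'
                have h10 : C = (g j').val + 1 := by omega
                have h11 : (g j).val = (g j').val := by
                  simp only [C] at h10
                  omega
                rw [h11] at hposlt
                have h12 : C * n = (g j').val * n + n := by rw [h10]; ring
                omega
          have : ((C * n + j.val : ℕ) : ℤ) ≤ (((g j').val * n + j'.val + (n - 1) : ℕ) : ℤ) := by
            exact_mod_cast hgoal
          push_cast at this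
          rw [Nat.cast_sub (by omega)] at this
          push_cast at this
          linarith
      intro h
      exact hnon (h.2 hadj)
  have hinj : ∀ j j' : Fin n, j ≠ j' → ppos n (g j, j) ≠ ppos n (g j', j') := by
    intro j j' hne h
    have h2 : (g j).val * n + j.val = (g j').val * n + j'.val := by
      have : (((g j).val * n + j.val : ℕ) : ℤ) = (((g j').val * n + j'.val : ℕ) : ℤ) := by
        push_cast
        exact h
      exact_mod_cast this
    apply hne
    apply Fin.ext
    have hj := j.2
    have hj' := j'.2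
    have h3 : ((g j).val * n + j.val) % n = j.val := by
      rw [Nat.mul_comm, Nat.mul_add_mod]
      exact Nat.mod_eq_of_lt hj
    have h4 : ((g j').val * n + j'.val) % n = j'.val := by
      rw [Nat.mul_comm, Nat.mul_add_mod]
      exact Nat.mod_eq_of_lt hj'
    rw [h2, h4] at h3
    exact h3.symm
  have := card_le_of_distinguished hτ (Finset.univ : Finset (Fin n)) (fun j => (g j, j))
    (fun j _ => hg2 j) (by
      intro j _ j' _ hjj
      rcases lt_trichotomy (ppos n (g j, j)) (ppos n (g j', j')) with h | h | h
      · exact key j j' h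
      · exact absurd h (hinj j j' (ne_of_lt hjj))
      · obtain ⟨w, hw, hn⟩ := key j' j h
        exact ⟨w, hw, fun h' => hn h'.symm⟩)
  simpa using this

theorem exists_full_column {n N : ℕ} {Z : Set (Fin n × Fin n)} {τ : Fin n × Fin n → Fin N}
    (hτ : IsTypeMap (pathPow n) Z τ) (hcard : 2 * N * n < Z.ncard) : ∃ i, ∀ j, (i, j) ∈ Z := by
  classical
  by_contra hcon
  push Not at hcon
  let X : Finset (Fin n) := Finset.univ.filter (fun i => ∃ j, (i, j) ∈ Z)
  have hX : X.card ≤ 2 * N := by
    refine mixed_columns_few hτ X ?_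
    intro i hi
    simp only [X, Finset.mem_filter, Finset.mem_univ, true_and] at hi
    exact ⟨hi, hcon i⟩
  have hsub : Z ⊆ ((X ×ˢ Finset.univ : Finset (Fin n × Fin n)) : Set (Fin n × Fin n)) := by
    rintro ⟨i, j⟩ hij
    simp only [Finset.coe_product, Set.mem_prod, Finset.mem_coe, Finset.mem_univ, and_true]
    simp only [X, Finset.mem_filter, Finset.mem_univ, true_and]
    exact ⟨j, hij⟩
  have h1 := Set.ncard_le_ncard hsub (Set.toFinite _)
  rw [Set.ncard_coe_finset, Finset.card_product, Finset.card_univ, Fintype.card_fin] at h1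
  have h2 : X.card * n ≤ 2 * N * n := Nat.mul_le_mul_right _ hX
  omega

theorem pathPow_unbounded (k : ℕ) : ∃ n, 2 ≤ n ∧ ¬ CliqueWidthLE (pathPow n) k := by
  classical
  obtain ⟨N, hN⟩ : ∃ N, N = 2 ^ k := ⟨_, rfl⟩
  obtain ⟨s, hs⟩ : ∃ s, s = 2 * N + 1 := ⟨_, rfl⟩
  refine ⟨3 * s, by omega, ?_⟩
  intro hcw
  have hss : 1 ≤ s * s := Nat.mul_pos (by omega) (by omega)
  have hcard : (Set.univ : Set (Fin (3 * s) × Fin (3 * s))).ncard = 9 * (s * s) := by
    rw [Set.ncard_univ, Nat.card_prod, Nat.card_fin]
    ring
  obtain ⟨Z, hZ, h1, h2⟩ := exists_fewTypes hcw Set.univ (M := 3 * (s * s)) (by omega)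
    (by rw [hcard]; omega)
  rw [← hN] at hZ
  rw [Set.univ_inter] at h1 h2
  have hcompl : Z.ncard + Zᶜ.ncard = 9 * (s * s) := by
    rw [← hcard, Set.ncard_univ]
    exact Set.ncard_add_ncard_compl Z
  have hmul : 2 * N * (3 * s) < 3 * (s * s) := by
    have h3 : 3 * (s * s) = (2 * N) * (3 * s) + 3 * s := by
      have : s * s = (2 * N + 1) * s := by rw [← hs]
      rw [this]
      ring
    omega
  obtain ⟨τ, hτ⟩ := hZ.1
  obtain ⟨τ', hτ'⟩ := hZ.2
  obtain ⟨i0, h3⟩ := exists_full_column hτ (by omega)
  obtain ⟨i1, h4⟩ := exists_full_column hτ' (by omega)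
  rcases lt_trichotomy i0 i1 with h | h | h
  · have := pathPow_linkage hτ h h3 (fun j => h4 j)
    omega
  · subst h
    exact h4 i0 (h3 i0)
  · have := pathPow_linkage hτ' h h4 (fun j hj => hj (h3 j))
    omega

theorem unit_of_bounded {W : Type} {H : SimpleGraph W} (h : BoundedOnHFreeInterval H) :
    IsUnitIntervalGraph H := by
  by_contra hns
  refine not_bounded_of_family (H := H) ?_ h
  intro k
  obtain ⟨n, hn, hk⟩ := pathPow_unbounded k
  have : Nonempty (Fin n × Fin n) := ⟨(⟨0, by omega⟩, ⟨0, by omega⟩)⟩
  refine ⟨Fin n × Fin n, inferInstance, this, pathPow n, intGraph_interval ?_,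
    ⟨fun e => hns (unit_of_emb e (pathPow_unit hn))⟩, hk⟩
  intro v
  omega

end Pool.Agent.Work.MP_84a460_co
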