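import Pool.Agent.Work.MP_84a460_co.Tiles
import Pool.Agent.Work.MP_84a460_co.PathPower

namespace Pool.Agent.Work.MP_84a460_co

theorem embed_A {W : Type} [Finite W] {H : SimpleGraph W} {K A B : Set W}
    (hK : ∀ u ∈ K, ∀ v ∈ K, u ≠ v → H.Adj u v) (hA : A.Subsingleton) (hB : B.Subsingleton)
    (hcov : ∀ v, v ∈ K ∨ v ∈ A ∨ v ∈ B) (hAB : ∀ u ∈ A, ∀ v ∈ B, ¬ H.Adj u v)
    (hboth : ∀ k ∈ K, (∃ u ∈ A, H.Adj u k) → ¬ (∃ u ∈ B, H.Adj u k))
    (hY : ∀ y ∈ K, ∀ y' ∈ K, (∃ u ∈ B, H.Adj u y) → (∃ u ∈ B, H.Adj u y') → y = y') :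
    ∃ t, Nonempty (H ↪g graphA t) := by
  classical
  obtain ⟨t, ⟨e⟩⟩ := Finite.exists_equiv_fin W
  let P : W → Prop := fun v => ∃ u ∈ A, H.Adj u v
  let Q : W → Prop := fun v => ∃ u ∈ B, H.Adj u v
  let f : W → VA t := fun v => if v ∈ A then .a else if v ∈ B then .b else
    if P v then .x (e v) else if Q v then .y else .z (e v)
  have kind : ∀ v, (v ∈ A ∧ f v = .a) ∨ (v ∈ B ∧ f v = .b) ∨
      (v ∈ K ∧ P v ∧ ¬ Q v ∧ f v = .x (e v)) ∨ (v ∈ K ∧ ¬ P v ∧ Q v ∧ f v = .y) ∨ (v ∈ K ∧ ¬ P v ∧ ¬ Q v ∧ f v = .z (e v)) := by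
    intro v
    by_cases h1 : v ∈ A
    · left; exact ⟨h1, by simp only [f, h1, if_true]⟩
    by_cases h2 : v ∈ B
    · right; left; exact ⟨h2, by simp only [f, h1, h2, if_true, if_false]⟩
    have h3 : v ∈ K := by
      rcases hcov v with h | h | h
      · exact h
      · exact absurd h h1
      · exact absurd h h2
    by_cases h4 : P v
    · right; right; left
      exact ⟨h3, h4, hboth v h3 h4, by simp only [f, h1, h2, h4, if_true, if_false]⟩
    by_cases h5 : Q v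
    · right; right; right; left
      exact ⟨h3, h4, h5, by simp only [f, h1, h2, h4, h5, if_true, if_false]⟩
    · right; right; right; right
      exact ⟨h3, h4, h5, by simp only [f, h1, h2, h4, h5, if_false]⟩
  have adjK : ∀ u ∈ K, ∀ v ∈ K, (H.Adj u v ↔ u ≠ v) :=
    fun u hu v hv => ⟨fun h => h.ne, hK u hu v hv⟩
  have adjP : ∀ u ∈ A, ∀ v, (H.Adj u v ↔ P v) := by
    intro u hu v
    refine ⟨fun h => ⟨u, hu, h⟩, ?_⟩
    rintro ⟨u', hu', h⟩
    rwa [hA hu hu']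
  have adjQ : ∀ u ∈ B, ∀ v, (H.Adj u v ↔ Q v) := by
    intro u hu v
    refine ⟨fun h => ⟨u, hu, h⟩, ?_⟩
    rintro ⟨u', hu', h⟩
    rwa [hB hu hu']
  have hinj : Function.Injective f := by
    intro u v huv
    rcases kind u with ⟨a1, a2⟩ | ⟨a1, a2⟩ | ⟨a1, b1, c1, a2⟩ | ⟨a1, b1, c1, a2⟩ |
      ⟨a1, b1, c1, a2⟩ <;> rcases kind v with ⟨a3, a4⟩ | ⟨a3, a4⟩ | ⟨a3, b3, c3, a4⟩ |
      ⟨a3, b3, c3, a4⟩ | ⟨a3, b3, c3, a4⟩ <;> rw [a2, a4] at huv <;>
      first
      | (exact hA a1 a3)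
      | (exact hB a1 a3)
      | (exact hY u a1 v a3 c1 c3)
      | (exact e.injective (VA.x.inj huv))
      | (exact e.injective (VA.z.inj huv))
      | (exact absurd huv (by simp))
  refine ⟨t, ⟨⟨⟨f, hinj⟩, ?_⟩⟩⟩
  intro u v
  change adjA (f u) (f v) ↔ H.Adj u v
  rcases kind u with ⟨a1, a2⟩ | ⟨a1, a2⟩ | ⟨a1, b1, c1, a2⟩ | ⟨a1, b1, c1, a2⟩ |
    ⟨a1, b1, c1, a2⟩ <;> rcases kind v with ⟨a3, a4⟩ | ⟨a3, a4⟩ | ⟨a3, b3, c3, a4⟩ |
    ⟨a3, b3, c3, a4⟩ | ⟨a3, b3, c3, a4⟩ <;> rw [a2, a4] <;> simp only [adjA]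
  · rw [hA a1 a3]; simp
  · simp [hAB u a1 v a3]
  · simp [adjP u a1, b3]
  · simp [adjP u a1, b3]
  · simp [adjP u a1, b3]
  · simp [H.adj_comm u v, hAB v a3 u a1]
  · rw [hB a1 a3]; simp
  · simp [adjQ u a1, c3]
  · simp [adjQ u a1, c3]
  · simp [adjQ u a1, c3]
  · simp [H.adj_comm u v, adjP v a3, b1]
  · simp [H.adj_comm u v, adjQ v a3, c1]
  · simp [adjK u a1 v a3]
  · rw [adjK u a1 v a3]
    simp only [true_iff]
    intro h
    exact b3 (h ▸ b1)
  · rw [adjK u a1 v a3]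
    simp only [true_iff]
    intro h
    exact b3 (h ▸ b1)
  · simp [H.adj_comm u v, adjP v a3, b1]
  · simp [H.adj_comm u v, adjQ v a3, c1]
  · rw [adjK u a1 v a3]
    simp only [true_iff]
    intro h
    exact b1 (h ▸ b3)
  · simp [hY u a1 v a3 c1 c3]
  · rw [adjK u a1 v a3]
    simp only [true_iff]
    intro h
    exact c3 (h ▸ c1)
  · simp [H.adj_comm u v, adjP v a3, b1]
  · simp [H.adj_comm u v, adjQ v a3, c1]
  · rw [adjK u a1 v a3]
    simp only [true_iff]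
    intro h
    exact b1 (h ▸ b3)
  · rw [adjK u a1 v a3]
    simp only [true_iff]
    intro h
    exact c1 (h ▸ c3)
  · simp [adjK u a1 v a3]

theorem embed_B {W : Type} [Finite W] {H : SimpleGraph W} {K A B D : Set W}
    (hK : ∀ u ∈ K, ∀ v ∈ K, u ≠ v → H.Adj u v) (hA : A.Subsingleton) (hB : B.Subsingleton)
    (hD : D.Subsingleton) (hcov : ∀ v, v ∈ K ∨ v ∈ A ∨ v ∈ B ∨ v ∈ D)
    (hAB : ∀ u ∈ A, ∀ v ∈ B, ¬ H.Adj u v) (hDiso : ∀ u ∈ D, ∀ v, ¬ H.Adj u v)
    (hcovK : ∀ k ∈ K, (∃ u ∈ A, H.Adj u k) ∨ (∃ u ∈ B, H.Adj u k))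
    (hY : ∀ y ∈ K, ∀ y' ∈ K, ¬ (∃ u ∈ A, H.Adj u y) → ¬ (∃ u ∈ A, H.Adj u y') → y = y') :
    ∃ t, Nonempty (H ↪g graphB t) := by
  classical
  obtain ⟨t, ⟨e⟩⟩ := Finite.exists_equiv_fin W
  let P : W → Prop := fun v => ∃ u ∈ A, H.Adj u v
  let Q : W → Prop := fun v => ∃ u ∈ B, H.Adj u v
  let f : W → VB t := fun v => if v ∈ A then .a else if v ∈ B then .b else if v ∈ D then .d else
    if P v then (if Q v then .w (e v) else .x (e v)) else .y
  have kind : ∀ v, (v ∈ A ∧ f v = .a) ∨ (v ∈ B ∧ f v = .b) ∨ (v ∈ D ∧ f v = .d) ∨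
      (v ∈ K ∧ P v ∧ Q v ∧ f v = .w (e v)) ∨ (v ∈ K ∧ P v ∧ ¬ Q v ∧ f v = .x (e v)) ∨
      (v ∈ K ∧ ¬ P v ∧ Q v ∧ f v = .y) := by
    intro v
    by_cases h1 : v ∈ A
    · left; exact ⟨h1, by simp only [f, h1, if_true]⟩
    by_cases h2 : v ∈ B
    · right; left; exact ⟨h2, by simp only [f, h1, h2, if_true, if_false]⟩
    by_cases h2' : v ∈ D
    · right; right; left; exact ⟨h2', by simp only [f, h1, h2, h2', if_true, if_false]⟩
    have h3 : v ∈ K := by
      rcases hcov v with h | h | h | h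
      · exact h
      · exact absurd h h1
      · exact absurd h h2
      · exact absurd h h2'
    by_cases h4 : P v
    · by_cases h5 : Q v
      · right; right; right; left
        exact ⟨h3, h4, h5, by simp only [f, h1, h2, h2', h4, h5, if_true, if_false]⟩
      · right; right; right; right; left
        exact ⟨h3, h4, h5, by simp only [f, h1, h2, h2', h4, h5, if_true, if_false]⟩
    · right; right; right; right; right
      refine ⟨h3, h4, ?_, by simp only [f, h1, h2, h2', h4, if_false]⟩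
      rcases hcovK v h3 with h | h
      · exact absurd h h4
      · exact h
  have adjK : ∀ u ∈ K, ∀ v ∈ K, (H.Adj u v ↔ u ≠ v) :=
    fun u hu v hv => ⟨fun h => h.ne, hK u hu v hv⟩
  have adjP : ∀ u ∈ A, ∀ v, (H.Adj u v ↔ P v) := by
    intro u hu v
    refine ⟨fun h => ⟨u, hu, h⟩, ?_⟩
    rintro ⟨u', hu', h⟩
    rwa [hA hu hu']
  have adjQ : ∀ u ∈ B, ∀ v, (H.Adj u v ↔ Q v) := by
    intro u hu v
    refine ⟨fun h => ⟨u, hu, h⟩, ?_⟩
    rintro ⟨u', hu', h⟩
    rwa [hB hu hu']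
  have hinj : Function.Injective f := by
    intro u v huv
    rcases kind u with ⟨a1, a2⟩ | ⟨a1, a2⟩ | ⟨a1, a2⟩ | ⟨a1, b1, c1, a2⟩ | ⟨a1, b1, c1, a2⟩ |
      ⟨a1, b1, c1, a2⟩ <;> rcases kind v with ⟨a3, a4⟩ | ⟨a3, a4⟩ | ⟨a3, a4⟩ |
      ⟨a3, b3, c3, a4⟩ | ⟨a3, b3, c3, a4⟩ | ⟨a3, b3, c3, a4⟩ <;> rw [a2, a4] at huv <;>
      first
      | (exact hA a1 a3)
      | (exact hB a1 a3)
      | (exact hD a1 a3)
      | (exact hY u a1 v a3 b1 b3)
      | (exact e.injective (VB.x.inj huv))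
      | (exact e.injective (VB.w.inj huv))
      | (exact absurd huv (by simp))
  refine ⟨t, ⟨⟨⟨f, hinj⟩, ?_⟩⟩⟩
  intro u v
  change adjB (f u) (f v) ↔ H.Adj u v
  have hne : ∀ {R : W → Prop} {u v : W}, R u → ¬ R v → u ≠ v := by
    rintro R u v h1 h2 rfl
    exact h2 h1
  rcases kind u with ⟨a1, a2⟩ | ⟨a1, a2⟩ | ⟨a1, a2⟩ | ⟨a1, b1, c1, a2⟩ | ⟨a1, b1, c1, a2⟩ |
    ⟨a1, b1, c1, a2⟩ <;> rcases kind v with ⟨a3, a4⟩ | ⟨a3, a4⟩ | ⟨a3, a4⟩ |
    ⟨a3, b3, c3, a4⟩ | ⟨a3, b3, c3, a4⟩ | ⟨a3, b3, c3, a4⟩ <;> rw [a2, a4] <;> simp only [adjB]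
  · rw [hA a1 a3]; simp
  · simp [hAB u a1 v a3]
  · simp [H.adj_comm u v, hDiso v a3]
  · simp [adjP u a1, b3]
  · simp [adjP u a1, b3]
  · simp [adjP u a1, b3]
  · simp [H.adj_comm u v, hAB v a3 u a1]
  · rw [hB a1 a3]; simp
  · simp [H.adj_comm u v, hDiso v a3]
  · simp [adjQ u a1, c3]
  · simp [adjQ u a1, c3]
  · simp [adjQ u a1, c3]
  · simp [hDiso u a1]
  · simp [hDiso u a1]
  · simp [hDiso u a1]
  · simp [hDiso u a1]
  · simp [hDiso u a1]
  · simp [hDiso u a1]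
  · simp [H.adj_comm u v, adjP v a3, b1]
  · simp [H.adj_comm u v, adjQ v a3, c1]
  · simp [H.adj_comm u v, hDiso v a3]
  · simp [adjK u a1 v a3]
  · rw [adjK u a1 v a3]
    simp only [true_iff]
    exact hne (R := Q) c1 c3
  · rw [adjK u a1 v a3]
    simp only [true_iff]
    exact hne (R := P) b1 b3
  · simp [H.adj_comm u v, adjP v a3, b1]
  · simp [H.adj_comm u v, adjQ v a3, c1]
  · simp [H.adj_comm u v, hDiso v a3]
  · rw [adjK u a1 v a3]
    simp only [true_iff]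
    exact (hne (R := Q) c3 c1).symm
  · simp [adjK u a1 v a3]
  · rw [adjK u a1 v a3]
    simp only [true_iff]
    exact hne (R := P) b1 b3
  · simp [H.adj_comm u v, adjP v a3, b1]
  · simp [H.adj_comm u v, adjQ v a3, c1]
  · simp [H.adj_comm u v, hDiso v a3]
  · rw [adjK u a1 v a3]
    simp only [true_iff]
    exact (hne (R := P) b3 b1).symm
  · rw [adjK u a1 v a3]
    simp only [true_iff]
    exact (hne (R := P) b3 b1).symm
  · simp [hY u a1 v a3 b1 b3]

theorem indep_four {W : Type} {H : SimpleGraph W} (hi : IndepLEThree H) {p q r s : W}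
    (h1 : p ≠ q) (h2 : p ≠ r) (h3 : p ≠ s) (h4 : q ≠ r) (h5 : q ≠ s) (h6 : r ≠ s)
    (n1 : ¬ H.Adj p q) (n2 : ¬ H.Adj p r) (n3 : ¬ H.Adj p s) (n4 : ¬ H.Adj q r)
    (n5 : ¬ H.Adj q s) (n6 : ¬ H.Adj r s) : False := by
  classical
  have m1 : ¬ H.Adj q p := fun h => n1 h.symm
  have m2 : ¬ H.Adj r p := fun h => n2 h.symm
  have m3 : ¬ H.Adj s p := fun h => n3 h.symm
  have m4 : ¬ H.Adj r q := fun h => n4 h.symm
  have m5 : ¬ H.Adj s q := fun h => n5 h.symm
  have m6 : ¬ H.Adj s r := fun h => n6 h.symm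
  have hc := hi {p, q, r, s} (by
    intro u hu v hv
    simp only [Finset.mem_insert, Finset.mem_singleton] at hu hv
    rcases hu with rfl | rfl | rfl | rfl <;> rcases hv with rfl | rfl | rfl | rfl <;>
      first | exact H.irrefl | assumption)
  rw [Finset.card_insert_of_notMem (by simp [h1, h2, h3]),
    Finset.card_insert_of_notMem (by simp [h4, h5]), Finset.card_insert_of_notMem (by simp [h6]),
    Finset.card_singleton] at hc
  omega

theorem emb_Q {W : Type} {H : SimpleGraph W} {x1 x2 y1 y2 l r : W} (h01 : H.Adj x1 x2)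
    (h02 : H.Adj x1 y1) (h03 : H.Adj x1 y2) (h12 : H.Adj x2 y1) (h13 : H.Adj x2 y2)
    (h23 : H.Adj y1 y2) (h40 : H.Adj l x1) (h41 : H.Adj l x2) (h52 : H.Adj r y1)
    (h53 : H.Adj r y2) (n45 : ¬ H.Adj l r) (n42 : ¬ H.Adj l y1) (n43 : ¬ H.Adj l y2)
    (n50 : ¬ H.Adj r x1) (n51 : ¬ H.Adj r x2) : Nonempty (graphQ ↪g H) := by
  let f : Fin 6 → W := ![x1, x2, y1, y2, l, r]
  have hadj : ∀ i j : Fin 6, H.Adj (f i) (f j) ↔ graphQ.Adj i j := by
    intro i j
    fin_cases i <;> fin_cases j <;>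
    first
    | exact iff_of_false H.irrefl (by decide)
    | exact iff_of_true h01 (by decide)
    | exact iff_of_true h01.symm (by decide)
    | exact iff_of_true h02 (by decide)
    | exact iff_of_true h02.symm (by decide)
    | exact iff_of_true h03 (by decide)
    | exact iff_of_true h03.symm (by decide)
    | exact iff_of_true h12 (by decide)
    | exact iff_of_true h12.symm (by decide)
    | exact iff_of_true h13 (by decide)
    | exact iff_of_true h13.symm (by decide)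
    | exact iff_of_true h23 (by decide)
    | exact iff_of_true h23.symm (by decide)
    | exact iff_of_true h40 (by decide)
    | exact iff_of_true h40.symm (by decide)
    | exact iff_of_true h41 (by decide)
    | exact iff_of_true h41.symm (by decide)
    | exact iff_of_true h52 (by decide)
    | exact iff_of_true h52.symm (by decide)
    | exact iff_of_true h53 (by decide)
    | exact iff_of_true h53.symm (by decide)
    | exact iff_of_false n45 (by decide)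
    | exact iff_of_false (fun h => n45 h.symm) (by decide)
    | exact iff_of_false n42 (by decide)
    | exact iff_of_false (fun h => n42 h.symm) (by decide)
    | exact iff_of_false n43 (by decide)
    | exact iff_of_false (fun h => n43 h.symm) (by decide)
    | exact iff_of_false n50 (by decide)
    | exact iff_of_false (fun h => n50 h.symm) (by decide)
    | exact iff_of_false n51 (by decide)
    | exact iff_of_false (fun h => n51 h.symm) (by decide)
  have hsep : ∀ i j : Fin 6, i ≠ j → graphQ.Adj i j ∨ ∃ k, ¬ (graphQ.Adj i k ↔ graphQ.Adj j k) := by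
    decide
  have hinj : Function.Injective f := by
    intro i j hij
    by_contra hne
    rcases hsep i j hne with h | ⟨k, hk⟩
    · exact ((hadj i j).2 h).ne hij
    · apply hk
      rw [← hadj, ← hadj, hij]
  exact ⟨⟨⟨f, hinj⟩, fun {i j} => hadj i j⟩⟩

theorem two_finish {W : Type} [Finite W] {H : SimpleGraph W} {K : Set W}
    (hK : ∀ u ∈ K, ∀ v ∈ K, u ≠ v → H.Adj u v) {l r : W} (hnadj : ¬ H.Adj l r)
    (hD : ∀ u v, u ∉ K → u ≠ l → u ≠ r → v ∉ K → v ≠ l → v ≠ r → u = v)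
    (hDiso : ∀ v, v ∉ K → v ≠ l → v ≠ r → ∀ w, ¬ H.Adj v w)
    (hzw : ∀ z ∈ K, ¬ H.Adj l z → ¬ H.Adj r z → ∀ w ∈ K, H.Adj l w → H.Adj r w → False)
    (hzd : ∀ z ∈ K, ¬ H.Adj l z → ¬ H.Adj r z → ∀ v, v ∉ K → v = l ∨ v = r)
    (hY : ∀ y ∈ K, ∀ y' ∈ K, H.Adj r y → ¬ H.Adj l y → H.Adj r y' → ¬ H.Adj l y' → y = y') :
    ∃ t, Nonempty (H ↪g graphA t) ∨ Nonempty (H ↪g graphB t) := by
  by_cases hz : ∃ z ∈ K, ¬ H.Adj l z ∧ ¬ H.Adj r z
  · obtain ⟨z, hzK, hz1, hz2⟩ := hz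
    obtain ⟨t, ht⟩ := embed_A (H := H) (K := K) (A := {l}) (B := {r}) hK
      Set.subsingleton_singleton Set.subsingleton_singleton (by
        intro v
        by_cases hv : v ∈ K
        · exact Or.inl hv
        · exact Or.inr (hzd z hzK hz1 hz2 v hv)) (by
        rintro u rfl v rfl
        exact hnadj) (by
        rintro k hk ⟨u, rfl, hu⟩ ⟨v, rfl, hv⟩
        exact hzw z hzK hz1 hz2 k hk hu hv) (by
        rintro y hy y' hy' ⟨u, rfl, hu⟩ ⟨v, hvv, hv⟩
        rw [Set.mem_singleton_iff] at hvv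
        subst hvv
        exact hY y hy y' hy' hu (fun h => hzw z hzK hz1 hz2 y hy h hu) hv
          (fun h => hzw z hzK hz1 hz2 y' hy' h hv))
    exact ⟨t, Or.inl ht⟩
  · push Not at hz
    obtain ⟨t, ht⟩ := embed_B (H := H) (K := K) (A := {l}) (B := {r})
      (D := {v | v ∉ K ∧ v ≠ l ∧ v ≠ r}) hK
      Set.subsingleton_singleton Set.subsingleton_singleton (by
        rintro u ⟨h1, h2, h3⟩ v ⟨h4, h5, h6⟩
        exact hD u v h1 h2 h3 h4 h5 h6) (by
        intro v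
        by_cases hv : v ∈ K
        · exact Or.inl hv
        by_cases h1 : v = l
        · exact Or.inr (Or.inl h1)
        by_cases h2 : v = r
        · exact Or.inr (Or.inr (Or.inl h2))
        · exact Or.inr (Or.inr (Or.inr ⟨hv, h1, h2⟩))) (by
        rintro u rfl v rfl
        exact hnadj) (by
        rintro u ⟨h1, h2, h3⟩
        exact hDiso u h1 h2 h3) (by
        intro k hk
        by_cases h1 : H.Adj l k
        · exact Or.inl ⟨l, rfl, h1⟩
        · exact Or.inr ⟨r, rfl, hz k hk h1⟩) (by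
        intro y hy y' hy' h1 h2
        have h1' : ¬ H.Adj l y := fun h => h1 ⟨l, rfl, h⟩
        have h2' : ¬ H.Adj l y' := fun h => h2 ⟨l, rfl, h⟩
        exact hY y hy y' hy' (hz y hy h1') h1' (hz y' hy' h2') h2')
    exact ⟨t, Or.inr ht⟩

/-- Numerical model of a unit interval graph. -/
def UModel {W : Type} (H : SimpleGraph W) (a : W → ℝ) : Prop :=
  ∀ u v, H.Adj u v ↔ u ≠ v ∧ a u ≤ a v + 1 ∧ a v ≤ a u + 1

theorem exists_model {W : Type} {H : SimpleGraph W} (h : IsUnitIntervalGraph H) :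
    ∃ a, UModel H a := by
  obtain ⟨a, ha⟩ := h
  refine ⟨a, fun u v => ?_⟩
  rw [ha, Set.Icc_inter_Icc, Set.nonempty_Icc, sup_le_iff, le_inf_iff, le_inf_iff]
  constructor
  · rintro ⟨h1, ⟨_, h2⟩, h3, _⟩
    exact ⟨h1, h2, h3⟩
  · rintro ⟨h1, h2, h3⟩
    exact ⟨h1, ⟨by linarith, h2⟩, h3, by linarith⟩

theorem UModel.neg {W : Type} {H : SimpleGraph W} {a : W → ℝ} (h : UModel H a) :
    UModel H (fun v => - a v) := by
  intro u v
  rw [h u v]
  constructor
  · rintro ⟨h1, h2, h3⟩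
    exact ⟨h1, by linarith, by linarith⟩
  · rintro ⟨h1, h2, h3⟩
    exact ⟨h1, by linarith, by linarith⟩

theorem left_lt {W : Type} {H : SimpleGraph W} {a : W → ℝ} (ha : UModel H a) {K : Set W}
    (hK : ∀ u ∈ K, ∀ v ∈ K, u ≠ v → H.Adj u v) {v : W} (hv : ∃ k ∈ K, a v + 1 < a k) {w : W}
    (hw : w ∈ K) : a v < a w := by
  obtain ⟨k, hk, h1⟩ := hv
  by_cases h2 : w = k
  · rw [h2]; linarith
  · have h3 := ((ha w k).1 (hK w hw k hk h2)).2.2
    linarith

theorem one_side {W : Type} [Finite W] {H : SimpleGraph W} {a : W → ℝ} (ha : UModel H a)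
    {K : Set W} (hK : ∀ u ∈ K, ∀ v ∈ K, u ≠ v → H.Adj u v)
    (hI : ∀ u, u ∉ K → ∀ v, v ∉ K → ¬ H.Adj u v) (hi : IndepLEThree H)
    (hleft : ∀ v, v ∉ K → ∃ k ∈ K, a v + 1 < a k) : ∃ t, Nonempty (H ↪g graphA t) := by
  classical
  by_cases hne : ∃ v, v ∉ K
  · obtain ⟨v0, hv0⟩ := hne
    obtain ⟨l, hl, hmax⟩ := Set.exists_max_image Kᶜ a (Set.toFinite _) ⟨v0, hv0⟩
    have hlK : l ∉ K := hl
    have hiso : ∀ v, v ∉ K → v ≠ l → ∀ w, ¬ H.Adj v w := by
      intro v hv hvl w hvw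
      by_cases hw : w ∈ K
      · have h1 := hI v hv l hlK
        rw [ha v l] at h1
        have h2 := hmax v hv
        have h3 : a v + 1 < a l := by
          by_contra hc
          push Not at hc
          exact h1 ⟨hvl, by linarith, hc⟩
        have h4 := left_lt ha hK (hleft l hlK) hw
        have h5 := ((ha v w).1 hvw).2.2
        linarith
      · exact hI v hv w hw hvw
    obtain ⟨z, hz, hlz⟩ := hleft l hlK
    have hnz : ¬ H.Adj l z := by
      intro h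
      have := ((ha l z).1 h).2.2
      linarith
    refine embed_A (H := H) (K := K) (A := {l}) (B := {v | v ∉ K ∧ v ≠ l}) hK
      Set.subsingleton_singleton ?_ ?_ ?_ ?_ ?_
    · rintro u ⟨h1, h2⟩ v ⟨h3, h4⟩
      by_contra huv
      refine indep_four hi (p := l) (q := z) (r := u) (s := v) ?_ h2.symm h4.symm ?_ ?_ huv
        hnz (fun h => hiso u h1 h2 l h.symm) (fun h => hiso v h3 h4 l h.symm)
        (fun h => hiso u h1 h2 z h.symm) (fun h => hiso v h3 h4 z h.symm) (hiso u h1 h2 v)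
      · rintro rfl; exact hlK hz
      · rintro rfl; exact h1 hz
      · rintro rfl; exact h3 hz
    · intro v
      by_cases hv : v ∈ K
      · exact Or.inl hv
      by_cases h1 : v = l
      · exact Or.inr (Or.inl h1)
      · exact Or.inr (Or.inr ⟨hv, h1⟩)
    · rintro u rfl v ⟨h1, h2⟩
      exact hI u hlK v h1
    · rintro k hk _ ⟨v, ⟨h1, h2⟩, h3⟩
      exact hiso v h1 h2 k h3
    · rintro y hy y' hy' ⟨v, ⟨h1, h2⟩, h3⟩
      exact absurd h3 (hiso v h1 h2 y)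
  · push Not at hne
    refine embed_A (H := H) (K := K) (A := ∅) (B := ∅) hK Set.subsingleton_empty
      Set.subsingleton_empty (fun v => Or.inl (hne v)) ?_ ?_ ?_
    · rintro u hu
      exact absurd hu (Set.notMem_empty u)
    · rintro k _ ⟨u, hu, _⟩
      exact absurd hu (Set.notMem_empty u)
    · rintro y _ y' _ ⟨u, hu, _⟩
      exact absurd hu (Set.notMem_empty u)

theorem two_side {W : Type} [Finite W] {H : SimpleGraph W} {a : W → ℝ} (ha : UModel H a)
    {K : Set W} (hK : ∀ u ∈ K, ∀ v ∈ K, u ≠ v → H.Adj u v)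
    (hI : ∀ u, u ∉ K → ∀ v, v ∉ K → ¬ H.Adj u v) (hi : IndepLEThree H)
    (hq : IsEmpty (graphQ ↪g H))
    (hside : ∀ v, v ∉ K → (∃ k ∈ K, a v + 1 < a k) ∨ (∃ k ∈ K, a k + 1 < a v))
    (h1 : ∃ v, v ∉ K ∧ ∃ k ∈ K, a v + 1 < a k) (h2 : ∃ v, v ∉ K ∧ ∃ k ∈ K, a k + 1 < a v) :
    ∃ t, Nonempty (H ↪g graphA t) ∨ Nonempty (H ↪g graphB t) := by
  classical
  obtain ⟨l, ⟨hlK, hl⟩, hmax⟩ := Set.exists_max_image {v | v ∉ K ∧ ∃ k ∈ K, a v + 1 < a k} a
    (Set.toFinite _) h1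
  obtain ⟨r, ⟨hrK, hr⟩, hmin⟩ := Set.exists_min_image {v | v ∉ K ∧ ∃ k ∈ K, a k + 1 < a v} a
    (Set.toFinite _) h2
  have right_lt : ∀ v, (∃ k ∈ K, a k + 1 < a v) → ∀ w ∈ K, a w < a v := by
    intro v hv w hw
    have := left_lt ha.neg hK (v := v) (by
      obtain ⟨k, hk, h⟩ := hv
      exact ⟨k, hk, by linarith⟩) hw
    linarith
  have hne : ∃ k, k ∈ K := by
    obtain ⟨k, hk, _⟩ := hl
    exact ⟨k, hk⟩
  obtain ⟨k0, hk0⟩ := hne
  have hlr : l ≠ r := by
    intro h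
    have h3 := left_lt ha hK hl hk0
    have h4 := right_lt r hr k0 hk0
    rw [h] at h3
    linarith
  have hiso : ∀ v, v ∉ K → v ≠ l → v ≠ r → ∀ w, ¬ H.Adj v w := by
    intro v hv hvl hvr w hvw
    by_cases hw : w ∈ K
    · rcases hside v hv with hs | hs
      · have h3 := hI v hv l hlK
        rw [ha v l] at h3
        have h4 := hmax v ⟨hv, hs⟩
        have h5 : a v + 1 < a l := by
          by_contra hc
          push Not at hc
          exact h3 ⟨hvl, by linarith, hc⟩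
        have h6 := left_lt ha hK hl hw
        have h7 := ((ha v w).1 hvw).2.2
        linarith
      · have h3 := hI v hv r hrK
        rw [ha v r] at h3
        have h4 := hmin v ⟨hv, hs⟩
        have h5 : a r + 1 < a v := by
          by_contra hc
          push Not at hc
          exact h3 ⟨hvr, hc, by linarith⟩
        have h6 := right_lt r hr w hw
        have h7 := ((ha v w).1 hvw).2.1
        linarith
    · exact hI v hv w hw hvw
  have hD : ∀ u v, u ∉ K → u ≠ l → u ≠ r → v ∉ K → v ≠ l → v ≠ r → u = v := by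
    intro u v u1 u2 u3 v1 v2 v3
    by_contra huv
    exact indep_four hi hlr u2.symm v2.symm u3.symm v3.symm huv (hI l hlK r hrK)
      (hI l hlK u u1) (hI l hlK v v1) (hI r hrK u u1) (hI r hrK v v1) (hI u u1 v v1)
  have hzw : ∀ z ∈ K, ¬ H.Adj l z → ¬ H.Adj r z → ∀ w ∈ K, H.Adj l w → H.Adj r w → False := by
    intro z hz z1 z2 w hw w1 w2
    have e1 := left_lt ha hK hl hz
    have e2 := right_lt r hr z hz
    have e3 : a l + 1 < a z := by
      by_contra hc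
      push Not at hc
      exact z1 ((ha l z).2 ⟨fun h => hlK (h ▸ hz), by linarith, hc⟩)
    have e4 : a z + 1 < a r := by
      by_contra hc
      push Not at hc
      exact z2 ((ha r z).2 ⟨fun h => hrK (h ▸ hz), hc, by linarith⟩)
    have e5 := ((ha l w).1 w1).2.2
    have e6 := ((ha r w).1 w2).2.1
    linarith
  have hzd : ∀ z ∈ K, ¬ H.Adj l z → ¬ H.Adj r z → ∀ v, v ∉ K → v = l ∨ v = r := by
    intro z hz z1 z2 v hv
    by_contra hc
    push Not at hc
    exact indep_four hi (p := l) (q := r) (r := z) (s := v) hlr (fun h => hlK (h ▸ hz))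
      hc.1.symm (fun h => hrK (h ▸ hz)) hc.2.symm (fun h => hv (h ▸ hz)) (hI l hlK r hrK) z1
      (hI l hlK v hv) z2 (hI r hrK v hv) (fun h => hiso v hv hc.1 hc.2 z h.symm)
  by_cases hY : ∀ y ∈ K, ∀ y' ∈ K, H.Adj r y → ¬ H.Adj l y → H.Adj r y' → ¬ H.Adj l y' → y = y'
  · exact two_finish hK (hI l hlK r hrK) hD hiso hzw hzd hY
  · refine two_finish (l := r) (r := l) hK (hI r hrK l hlK)
      (fun u v u1 u2 u3 v1 v2 v3 => hD u v u1 u3 u2 v1 v3 v2)
      (fun v v1 v2 v3 => hiso v v1 v3 v2) (fun z hz z1 z2 w hw w1 w2 => hzw z hz z2 z1 w hw w2 w1)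
      (fun z hz z1 z2 v hv => (hzd z hz z2 z1 v hv).symm) ?_
    intro x hx x' hx' x1 x2 x3 x4
    by_contra hxx
    push Not at hY
    obtain ⟨y, hy, y', hy', y1, y2, y3, y4, hyy⟩ := hY
    obtain ⟨e⟩ := emb_Q (H := H) (x1 := x) (x2 := x') (y1 := y) (y2 := y') (l := l) (r := r)
      (hK x hx x' hx' hxx) (hK x hx y hy (fun h => y2 (h ▸ x1))) (hK x hx y' hy' (fun h => y4 (h ▸ x1)))
      (hK x' hx' y hy (fun h => y2 (h ▸ x3))) (hK x' hx' y' hy' (fun h => y4 (h ▸ x3)))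
      (hK y hy y' hy' hyy) x1 x3 y1 y3 (hI l hlK r hrK) y2 y4 x2 x4
    exact hq.false e

/-- The structural description of the graphs satisfying the four necessary conditions. -/
theorem emb_of_conditions {W : Type} [Finite W] {H : SimpleGraph W} (hs : IsSplitGraph H)
    (hu : IsUnitIntervalGraph H) (hi : IndepLEThree H) (hq : IsEmpty (graphQ ↪g H)) :
    ∃ t, Nonempty (H ↪g graphA t) ∨ Nonempty (H ↪g graphB t) := by
  classical
  obtain ⟨a, ha⟩ := exists_model hu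
  obtain ⟨K, ⟨hK, hI⟩, hmax⟩ := Set.exists_max_image
    {K : Set W | (∀ u ∈ K, ∀ v ∈ K, u ≠ v → H.Adj u v) ∧ (∀ u ∉ K, ∀ v ∉ K, ¬ H.Adj u v)}
    Set.ncard (Set.toFinite _) hs
  have hnon : ∀ v, v ∉ K → ∃ k ∈ K, ¬ H.Adj v k := by
    intro v hv
    by_contra hc
    push Not at hc
    have h1 := hmax (insert v K) ⟨?_, ?_⟩
    · rw [Set.ncard_insert_of_notMem hv (Set.toFinite _)] at h1
      omega
    · intro u hu w hw huw
      rcases Set.mem_insert_iff.1 hu with hu1 | hu1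
      · rcases Set.mem_insert_iff.1 hw with hw1 | hw1
        · exact absurd (hu1.trans hw1.symm) huw
        · rw [hu1]
          exact hc w hw1
      · rcases Set.mem_insert_iff.1 hw with hw1 | hw1
        · rw [hw1]
          exact (hc u hu1).symm
        · exact hK u hu1 w hw1 huw
    · intro u hu w hw
      exact hI u (fun h => hu (Set.mem_insert_of_mem _ h)) w
        (fun h => hw (Set.mem_insert_of_mem _ h))
  have hside : ∀ v, v ∉ K → (∃ k ∈ K, a v + 1 < a k) ∨ (∃ k ∈ K, a k + 1 < a v) := by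
    intro v hv
    obtain ⟨k, hk, hnk⟩ := hnon v hv
    rw [ha v k] at hnk
    rcases lt_or_ge (a v + 1) (a k) with h | h
    · exact Or.inl ⟨k, hk, h⟩
    rcases lt_or_ge (a k + 1) (a v) with h' | h'
    · exact Or.inr ⟨k, hk, h'⟩
    · exact absurd ⟨fun h => hv (h ▸ hk), h', h⟩ hnk
  by_cases h1 : ∃ v, v ∉ K ∧ ∃ k ∈ K, a v + 1 < a k
  · by_cases h2 : ∃ v, v ∉ K ∧ ∃ k ∈ K, a k + 1 < a v
    · exact two_side ha hK hI hi hq hside h1 h2
    · obtain ⟨t, ht⟩ := one_side ha hK hI hi (fun v hv => by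
        rcases hside v hv with h | h
        · exact h
        · exact absurd ⟨v, hv, h⟩ h2)
      exact ⟨t, Or.inl ht⟩
  · obtain ⟨t, ht⟩ := one_side ha.neg hK hI hi (fun v hv => by
      rcases hside v hv with h | ⟨k, hk, h⟩
      · exact absurd ⟨v, hv, h⟩ h1
      · exact ⟨k, hk, by linarith⟩)
    exact ⟨t, Or.inl ht⟩

end Pool.Agent.Work.MP_84a460_co
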