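import Pool.Agent.Work.MP_84a460_co.Defs

namespace Pool.Agent.Work.MP_84a460_co

/-- The labelled graph `(lab, adj)` on `V` is built by a `k`-expression. -/
def Real (k : ℕ) {V : Type} (lab : V → Fin k) (adj : V → V → Prop) : Prop :=
  ∃ (e : CWExpr k) (φ : e.Vert ≃ V),
    (∀ u, e.label u = lab (φ u)) ∧ (∀ u v, e.Adj u v ↔ adj (φ u) (φ v))

theorem Real.congr {k : ℕ} {V V' : Type} {lab : V → Fin k} {adj : V → V → Prop}
    (h : Real k lab adj) (ψ : V ≃ V') {lab' : V' → Fin k} {adj' : V' → V' → Prop}
    (hlab : ∀ v, lab' (ψ v) = lab v) (hadj : ∀ u v, adj' (ψ u) (ψ v) ↔ adj u v) :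
    Real k lab' adj' := by
  obtain ⟨e, φ, h1, h2⟩ := h
  refine ⟨e, φ.trans ψ, fun u => ?_, fun u v => ?_⟩
  · simp [h1, hlab]
  · simp [h2, hadj]

theorem Real.single {k : ℕ} {V : Type} [Unique V] (lab : V → Fin k) :
    Real k lab (fun _ _ => False) := by
  refine ⟨.vertex (lab default), ⟨fun _ => default, fun _ => (), fun _ => rfl,
    fun v => (Unique.eq_default v).symm⟩, fun u => rfl, fun u v => ?_⟩
  simp [CWExpr.Adj]

/-- Adjacency of a disjoint union. -/
def sumAdj {V V' : Type} (adj : V → V → Prop) (adj' : V' → V' → Prop) : V ⊕ V' → V ⊕ V' → Prop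
  | .inl u, .inl v => adj u v
  | .inr u, .inr v => adj' u v
  | _, _ => False

theorem Real.union {k : ℕ} {V V' : Type} {lab : V → Fin k} {adj : V → V → Prop}
    {lab' : V' → Fin k} {adj' : V' → V' → Prop}
    (h : Real k lab adj) (h' : Real k lab' adj') :
    Real k (Sum.elim lab lab') (sumAdj adj adj') := by
  obtain ⟨e, φ, h1, h2⟩ := h
  obtain ⟨e', φ', h1', h2'⟩ := h'
  refine ⟨.union e e', Equiv.sumCongr φ φ', ?_, ?_⟩
  · rintro (u | u)
    · exact h1 u
    · exact h1' u
  · rintro (u | u) (v | v)
    · exact h2 u v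
    · exact Iff.rfl
    · exact Iff.rfl
    · exact h2' u v

theorem Real.relabel {k : ℕ} {V : Type} {lab : V → Fin k} {adj : V → V → Prop}
    (h : Real k lab adj) (i j : Fin k) :
    Real k (fun v => if lab v = i then j else lab v) adj := by
  obtain ⟨e, φ, h1, h2⟩ := h
  refine ⟨.relabel i j e, φ, fun (u : e.Vert) => ?_, fun (u v : e.Vert) => h2 u v⟩
  change (if e.label u = i then j else e.label u) = if lab (φ u) = i then j else lab (φ u)
  rw [h1]

theorem Real.join {k : ℕ} {V : Type} {lab : V → Fin k} {adj : V → V → Prop}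
    (h : Real k lab adj) {i j : Fin k} (hij : i ≠ j) :
    Real k lab (fun u v => adj u v ∨ ((lab u = i ∧ lab v = j) ∨ (lab u = j ∧ lab v = i))) := by
  obtain ⟨e, φ, h1, h2⟩ := h
  refine ⟨.join i j e, φ, fun (u : e.Vert) => h1 u, fun (u v : e.Vert) => ?_⟩
  change (e.Adj u v ∨
      (i ≠ j ∧ ((e.label u = i ∧ e.label v = j) ∨ (e.label u = j ∧ e.label v = i)))) ↔ _
  rw [h2, h1, h1]
  simp only [ne_eq, hij, not_false_eq_true, true_and]
  exact Iff.rfl

theorem Real.adj_iff {k : ℕ} {V : Type} {lab : V → Fin k} {adj adj' : V → V → Prop}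
    (h : Real k lab adj) (h' : ∀ u v, adj' u v ↔ adj u v) : Real k lab adj' :=
  h.congr (Equiv.refl V) (fun _ => rfl) h'

theorem Real.lab_eq {k : ℕ} {V : Type} {lab lab' : V → Fin k} {adj : V → V → Prop}
    (h : Real k lab adj) (h' : ∀ u, lab' u = lab u) : Real k lab' adj :=
  h.congr (Equiv.refl V) h' (fun _ _ => Iff.rfl)

/-- Add all edges between label classes given by a list of pairs. -/
theorem Real.joinList {k : ℕ} {V : Type} {lab : V → Fin k} {adj : V → V → Prop}
    (l : List (Fin k × Fin k)) (hl : ∀ p ∈ l, p.1 ≠ p.2) (h : Real k lab adj) :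
    Real k lab (fun u v => adj u v ∨
      ∃ p ∈ l, ((lab u = p.1 ∧ lab v = p.2) ∨ (lab u = p.2 ∧ lab v = p.1))) := by
  induction l with
  | nil => exact h.adj_iff (by simp)
  | cons p l ih =>
    have h1 := ih (fun q hq => hl q (List.mem_cons_of_mem _ hq))
    have h2 := h1.join (hl p List.mem_cons_self)
    refine h2.adj_iff (fun u v => ?_)
    simp only [List.mem_cons]
    constructor
    · rintro (h | ⟨q, rfl | hq, h⟩)
      · exact Or.inl (Or.inl h)
      · exact Or.inr h
      · exact Or.inl (Or.inr ⟨q, hq, h⟩)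
    · rintro ((h | ⟨q, hq, h⟩) | h)
      · exact Or.inl h
      · exact Or.inr ⟨q, Or.inr hq, h⟩
      · exact Or.inr ⟨p, Or.inl rfl, h⟩

/-- Relabel all labels in a list by a map whose values on the list are outside the list. -/
theorem Real.relabelList {k : ℕ} {V : Type} {lab : V → Fin k} {adj : V → V → Prop}
    (l : List (Fin k)) (f : Fin k → Fin k) (hf : ∀ i ∈ l, f i ∉ l) (h : Real k lab adj) :
    Real k (fun v => if lab v ∈ l then f (lab v) else lab v) adj := by
  -- prove a stronger statement for sublists
  suffices H : ∀ l' : List (Fin k), (∀ i ∈ l', i ∈ l) →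
      Real k (fun v => if lab v ∈ l' then f (lab v) else lab v) adj from H l (fun i hi => hi)
  intro l'
  induction l' with
  | nil => intro _; exact h.lab_eq (by simp)
  | cons i l' ih =>
    intro hsub
    have h1 := ih (fun j hj => hsub j (List.mem_cons_of_mem _ hj))
    have h2 := h1.relabel i (f i)
    refine h2.lab_eq (fun u => ?_)
    by_cases hu : lab u ∈ l'
    · have hne : f (lab u) ≠ i := by
        intro h
        exact hf (lab u) (hsub _ (List.mem_cons_of_mem _ hu))
          (h ▸ hsub i List.mem_cons_self)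
      simp [hu, hne]
    · by_cases hui : lab u = i
      · subst hui
        simp [hu]
      · simp [hu, hui]

/-- Types: `τ` separates the vertices of `B` by their neighbourhoods outside `B`. -/
def IsTypeMap {V T : Type} (G : SimpleGraph V) (B : Set V) (τ : V → T) : Prop :=
  ∀ u ∈ B, ∀ v ∈ B, τ u = τ v → ∀ w ∉ B, (G.Adj u w ↔ G.Adj v w)

/-- Hierarchical decompositions of vertex sets with at most `q` types at every node. -/
inductive Decomp {V : Type} (G : SimpleGraph V) (q : ℕ) : Set V → Prop
  | single (v : V) : Decomp G q {v}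
  | union (A B : Set V) (hd : Disjoint A B) (hA : Decomp G q A) (hB : Decomp G q B)
      (ht : ∃ τ : V → Fin q, IsTypeMap G (A ∪ B) τ) : Decomp G q (A ∪ B)

/-- Exact type maps. -/
def IsExactTypeMap {V T : Type} (G : SimpleGraph V) (B : Set V) (τ : V → T) : Prop :=
  ∀ u ∈ B, ∀ v ∈ B, τ u = τ v ↔ ∀ w ∉ B, (G.Adj u w ↔ G.Adj v w)

theorem IsTypeMap.exists_exact {V T : Type} {G : SimpleGraph V} {B : Set V} {τ : V → T}
    (h : IsTypeMap G B τ) : ∃ τ' : V → T, IsExactTypeMap G B τ' := by
  classical
  by_cases hV : Nonempty V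
  · obtain ⟨v0⟩ := hV
    let nb : V → Set V := fun u => {w | w ∉ B ∧ G.Adj u w}
    let f : Set V → V := fun S => if h : ∃ u ∈ B, nb u = S then h.choose else v0
    have hf : ∀ u ∈ B, f (nb u) ∈ B ∧ nb (f (nb u)) = nb u := by
      intro u hu
      have h : ∃ u' ∈ B, nb u' = nb u := ⟨u, hu, rfl⟩
      have : f (nb u) = h.choose := by simp only [f]; rw [dif_pos h]
      rw [this]
      exact h.choose_spec
    have hnb : ∀ u v, nb u = nb v ↔ ∀ w ∉ B, (G.Adj u w ↔ G.Adj v w) := by
      intro u v
      constructor
      · intro h w hw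
        have := congrArg (fun S => w ∈ S) h
        simpa [nb, hw] using this
      · intro h
        ext w
        simp only [nb, Set.mem_ofPred_eq]
        constructor
        · rintro ⟨h1, h2⟩; exact ⟨h1, (h w h1).1 h2⟩
        · rintro ⟨h1, h2⟩; exact ⟨h1, (h w h1).2 h2⟩
    refine ⟨fun u => τ (f (nb u)), fun u hu v hv => ⟨fun huv => ?_, fun huv => ?_⟩⟩
    · have h1 := h _ (hf u hu).1 _ (hf v hv).1 huv
      have h2 := (hnb _ _).2 h1
      rw [(hf u hu).2, (hf v hv).2] at h2
      exact (hnb _ _).1 h2
    · have := (hnb _ _).2 huv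
      simp only [this]
  · exact ⟨τ, fun u => (hV ⟨u⟩).elim⟩

theorem Decomp.exists_exact {V : Type} {G : SimpleGraph V} {q : ℕ} [NeZero q] {B : Set V}
    (h : Decomp G q B) : ∃ τ : V → Fin q, IsExactTypeMap G B τ := by
  cases h with
  | single v =>
    refine ⟨fun _ => 0, fun u hu v' hv' => ⟨fun _ w _ => ?_, fun _ => rfl⟩⟩
    rw [Set.mem_singleton_iff] at hu hv'
    rw [hu, hv']
  | union A B hd hA hB ht =>
    obtain ⟨τ, hτ⟩ := ht
    exact hτ.exists_exact

/-- The graph on a vertex subset with a decomposition is built by an expression. -/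
theorem Decomp.real {V : Type} {G : SimpleGraph V} {q : ℕ} [NeZero q] {B : Set V}
    (h : Decomp G q B) :
    ∀ τ : V → Fin q, IsExactTypeMap G B τ →
      Real (q + q + q) (V := B) (fun v => Fin.castAdd q (Fin.castAdd q (τ v)))
        (fun u v => G.Adj u v) := by
  classical
  induction h with
  | single v =>
    intro τ _
    refine (Real.single (V := ({v} : Set V)) (k := q + q + q)
      (fun v => Fin.castAdd q (Fin.castAdd q (τ v)))).adj_iff ?_
    rintro ⟨u, hu⟩ ⟨w, hw⟩
    rw [Set.mem_singleton_iff] at hu hw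
    subst hu; subst hw
    simp
  | union A B hd hA hB ht ihA ihB =>
    intro τ hτ
    obtain ⟨τA, hτA⟩ := hA.exists_exact
    obtain ⟨τB, hτB⟩ := hB.exists_exact
    have hAr := ihA τA hτA
    have hBr := ihB τB hτB
    -- shift labels of B
    let sh : Fin (q + q + q) → Fin (q + q + q) := fun i =>
      if hi : i.val < q then Fin.castAdd q (Fin.natAdd q ⟨i.val, hi⟩) else i
    let firstBlock : List (Fin (q + q + q)) :=
      (List.finRange q).map (fun i => Fin.castAdd q (Fin.castAdd q i))
    have memFirst : ∀ i : Fin (q + q + q), i ∈ firstBlock ↔ i.val < q := by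
      intro i
      simp only [firstBlock, List.mem_map, List.mem_finRange, true_and]
      constructor
      · rintro ⟨j, rfl⟩
        simp
      · intro hi
        exact ⟨⟨i.val, hi⟩, by ext; simp⟩
    have hBr' := hBr.relabelList firstBlock sh (by
      intro i hi
      rw [memFirst] at hi ⊢
      simp [sh, hi])
    have hBr'' := hBr'.lab_eq (lab' := fun v : B => Fin.castAdd q (Fin.natAdd q (τB v)))
      (by
        intro u
        have : (Fin.castAdd q (Fin.castAdd q (τB u)) : Fin (q + q + q)) ∈ firstBlock := by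
          rw [memFirst]; simp
        simp only [this, if_true]
        ext
        simp [sh])
    have hU := hAr.union hBr''
    -- join
    let P : Fin q × Fin q → Prop := fun p =>
      ∃ u ∈ A, ∃ v ∈ B, τA u = p.1 ∧ τB v = p.2 ∧ G.Adj u v
    let pairs : List (Fin (q + q + q) × Fin (q + q + q)) :=
      ((List.finRange q ×ˢ List.finRange q).filter (fun p => decide (P p))).map
        (fun p => (Fin.castAdd q (Fin.castAdd q p.1), Fin.castAdd q (Fin.natAdd q p.2)))
    have memPairs : ∀ p : Fin (q + q + q) × Fin (q + q + q), p ∈ pairs ↔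
        ∃ i j : Fin q, P (i, j) ∧ p = (Fin.castAdd q (Fin.castAdd q i),
          Fin.castAdd q (Fin.natAdd q j)) := by
      rintro ⟨p1, p2⟩
      simp only [pairs, List.mem_map, List.mem_filter, decide_eq_true_eq]
      constructor
      · rintro ⟨⟨i, j⟩, ⟨_, hP⟩, h⟩
        exact ⟨i, j, hP, h.symm⟩
      · rintro ⟨i, j, hP, h⟩
        exact ⟨(i, j), ⟨by simp [List.mem_product, List.mem_finRange], hP⟩, h.symm⟩
    have hJ := hU.joinList pairs (by
      intro p hp
      rw [memPairs] at hp
      obtain ⟨i, j, _, rfl⟩ := hp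
      intro h
      have := congrArg Fin.val h
      simp at this
      omega)
    -- transport to the union
    have hdis : A ∩ B ⊆ ∅ := by
      rw [Set.disjoint_iff] at hd
      exact hd
    let ψ : A ⊕ B ≃ (A ∪ B : Set V) := (Equiv.Set.union (Set.disjoint_iff.2 hdis)).symm
    have hψl : ∀ u : A, ((ψ (Sum.inl u) : (A ∪ B : Set V)) : V) = u := fun u => rfl
    have hψr : ∀ u : B, ((ψ (Sum.inr u) : (A ∪ B : Set V)) : V) = u := fun u => rfl
    -- adjacency between the parts
    have hcross : ∀ u ∈ A, ∀ v ∈ B, (G.Adj u v ↔ P (τA u, τB v)) := by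
      intro u hu v hv
      constructor
      · intro h
        exact ⟨u, hu, v, hv, rfl, rfl, h⟩
      · rintro ⟨u', hu', v', hv', h1, h2, h3⟩
        have hvA : v ∉ A := fun h => Set.disjoint_left.1 hd h hv
        have hv'A : v' ∉ A := fun h => Set.disjoint_left.1 hd h hv'
        have huB : u ∉ B := fun h => Set.disjoint_left.1 hd hu h
        have e1 := (hτA u' hu' u hu).1 h1 v' hv'A
        have e2 := (hτB v' hv' v hv).1 h2 u huB
        exact (e2.1 (e1.1 h3).symm).symm
    -- relabel to third block
    let tA : Fin q → Fin q := fun i => if h : ∃ u ∈ A, τA u = i then τ h.choose else 0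
    let tB : Fin q → Fin q := fun i => if h : ∃ u ∈ B, τB u = i then τ h.choose else 0
    have htA : ∀ u ∈ A, tA (τA u) = τ u := by
      intro u hu
      have h : ∃ u' ∈ A, τA u' = τA u := ⟨u, hu, rfl⟩
      have h1 : tA (τA u) = τ h.choose := by simp only [tA]; rw [dif_pos h]
      rw [h1]
      obtain ⟨h2, h3⟩ := h.choose_spec
      refine (hτ _ (Or.inl h2) _ (Or.inl hu)).2 (fun w hw => ?_)
      exact (hτA _ h2 _ hu).1 h3 w (fun h => hw (Or.inl h))
    have htB : ∀ u ∈ B, tB (τB u) = τ u := by
      intro u hu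
      have h : ∃ u' ∈ B, τB u' = τB u := ⟨u, hu, rfl⟩
      have h1 : tB (τB u) = τ h.choose := by simp only [tB]; rw [dif_pos h]
      rw [h1]
      obtain ⟨h2, h3⟩ := h.choose_spec
      refine (hτ _ (Or.inr h2) _ (Or.inr hu)).2 (fun w hw => ?_)
      exact (hτB _ h2 _ hu).1 h3 w (fun h => hw (Or.inr h))
    let firstTwo : List (Fin (q + q + q)) :=
      (List.finRange (q + q)).map (fun i => Fin.castAdd q i)
    have memTwo : ∀ i : Fin (q + q + q), i ∈ firstTwo ↔ i.val < q + q := by
      intro i
      simp only [firstTwo, List.mem_map, List.mem_finRange, true_and]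
      constructor
      · rintro ⟨j, rfl⟩
        simp
      · intro hi
        exact ⟨⟨i.val, hi⟩, by ext; simp⟩
    let g : Fin (q + q + q) → Fin (q + q + q) := fun i =>
      if h1 : i.val < q then Fin.natAdd (q + q) (tA ⟨i.val, h1⟩)
      else if h2 : i.val < q + q then Fin.natAdd (q + q) (tB ⟨i.val - q, by omega⟩)
      else i
    have hJ2 := hJ.relabelList firstTwo g (by
      intro i hi
      rw [memTwo] at hi ⊢
      simp only [g]
      split_ifs <;> simp)
    have hJ3 := hJ2.lab_eq (lab' := fun v : A ⊕ B => Fin.natAdd (q + q)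
        (τ ((ψ v : (A ∪ B : Set V)) : V))) (by
      rintro (u | u)
      · have h1 : (Sum.elim (fun v : A => Fin.castAdd q (Fin.castAdd q (τA v)))
            (fun v : B => (Fin.castAdd q (Fin.natAdd q (τB v)) : Fin (q + q + q))) (Sum.inl u))
            ∈ firstTwo := by
          rw [memTwo]; simp; omega
        rw [if_pos h1, hψl]
        simp only [Sum.elim_inl, g]
        rw [dif_pos (by simp)]
        have : (⟨((Fin.castAdd q (Fin.castAdd q (τA u)) : Fin (q + q + q)) : ℕ), by simp⟩ : Fin q)
            = τA u := by ext; simp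
        rw [this, htA u u.2]
      · have h1 : (Sum.elim (fun v : A => Fin.castAdd q (Fin.castAdd q (τA v)))
            (fun v : B => (Fin.castAdd q (Fin.natAdd q (τB v)) : Fin (q + q + q))) (Sum.inr u))
            ∈ firstTwo := by
          rw [memTwo]; simp
        rw [if_pos h1, hψr]
        simp only [Sum.elim_inr, g]
        rw [dif_neg (by simp), dif_pos (by simp)]
        have : (⟨((Fin.castAdd q (Fin.natAdd q (τB u)) : Fin (q + q + q)) : ℕ) - q, by
            simp⟩ : Fin q)
            = τB u := by ext; simp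
        rw [this, htB u u.2])
    let third : List (Fin (q + q + q)) :=
      (List.finRange q).map (fun i => Fin.natAdd (q + q) i)
    have memThird : ∀ i : Fin (q + q + q), i ∈ third ↔ q + q ≤ i.val := by
      intro i
      simp only [third, List.mem_map, List.mem_finRange, true_and]
      constructor
      · rintro ⟨j, rfl⟩
        simp
      · intro hi
        exact ⟨⟨i.val - (q + q), by omega⟩, by ext; simp; omega⟩
    let g' : Fin (q + q + q) → Fin (q + q + q) := fun i =>
      if h1 : q + q ≤ i.val then Fin.castAdd q (Fin.castAdd q ⟨i.val - (q + q), by omega⟩)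
      else i
    have hJ4 := hJ3.relabelList third g' (by
      intro i hi
      rw [memThird] at hi ⊢
      simp only [g']
      rw [dif_pos hi]
      simp
      omega)
    refine hJ4.congr ψ ?_ ?_
    · intro v
      have h1 : (Fin.natAdd (q + q) (τ ((ψ v : (A ∪ B : Set V)) : V)) : Fin (q + q + q))
          ∈ third := by
        rw [memThird]; simp
      simp only [h1, if_true, g']
      rw [dif_pos (by simp)]
      ext
      simp
    · have hlt : ∀ i : Fin q, i.val < q := fun i => i.2
      have key : ∀ (u v : A ⊕ B),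
          (∃ p ∈ pairs,
            (Sum.elim (fun v : A => Fin.castAdd q (Fin.castAdd q (τA v)))
              (fun v : B => (Fin.castAdd q (Fin.natAdd q (τB v)) : Fin (q + q + q))) u = p.1 ∧
             Sum.elim (fun v : A => Fin.castAdd q (Fin.castAdd q (τA v)))
              (fun v : B => (Fin.castAdd q (Fin.natAdd q (τB v)) : Fin (q + q + q))) v = p.2)) ↔
          (∃ (u' : A) (v' : B), u = Sum.inl u' ∧ v = Sum.inr v' ∧ P (τA u', τB v')) := by
        intro u v
        constructor
        · rintro ⟨p, hp, h1, h2⟩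
          rw [memPairs] at hp
          obtain ⟨i, j, hP, rfl⟩ := hp
          rcases u with u | u
          · rcases v with v | v
            · exfalso
              have := congrArg Fin.val h2
              simp at this
              have h3 := hlt (τA v)
              omega
            · refine ⟨u, v, rfl, rfl, ?_⟩
              have e1 : τA u = i := by
                have := congrArg Fin.val h1
                simp at this
                exact Fin.ext this
              have e2 : τB v = j := by
                have := congrArg Fin.val h2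
                simp at this
                exact Fin.ext this
              rw [e1, e2]; exact hP
          · exfalso
            have := congrArg Fin.val h1
            simp at this
            have h3 := hlt i
            omega
        · rintro ⟨u', v', rfl, rfl, hP⟩
          refine ⟨(Fin.castAdd q (Fin.castAdd q (τA u')), Fin.castAdd q (Fin.natAdd q (τB v'))),
            ?_, rfl, rfl⟩
          rw [memPairs]
          exact ⟨_, _, hP, rfl⟩
      have key2 : ∀ (u v : A ⊕ B),
          (∃ p ∈ pairs,
            ((Sum.elim (fun v : A => Fin.castAdd q (Fin.castAdd q (τA v)))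
              (fun v : B => (Fin.castAdd q (Fin.natAdd q (τB v)) : Fin (q + q + q))) u = p.1 ∧
             Sum.elim (fun v : A => Fin.castAdd q (Fin.castAdd q (τA v)))
              (fun v : B => (Fin.castAdd q (Fin.natAdd q (τB v)) : Fin (q + q + q))) v = p.2) ∨
            (Sum.elim (fun v : A => Fin.castAdd q (Fin.castAdd q (τA v)))
              (fun v : B => (Fin.castAdd q (Fin.natAdd q (τB v)) : Fin (q + q + q))) u = p.2 ∧
             Sum.elim (fun v : A => Fin.castAdd q (Fin.castAdd q (τA v)))
              (fun v : B => (Fin.castAdd q (Fin.natAdd q (τB v)) : Fin (q + q + q))) v = p.1))) ↔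
          ((∃ (u' : A) (v' : B), u = Sum.inl u' ∧ v = Sum.inr v' ∧ P (τA u', τB v')) ∨
           (∃ (u' : A) (v' : B), v = Sum.inl u' ∧ u = Sum.inr v' ∧ P (τA u', τB v'))) := by
        intro u v
        rw [← key u v, ← key v u]
        constructor
        · rintro ⟨p, hp, h | h⟩
          · exact Or.inl ⟨p, hp, h⟩
          · exact Or.inr ⟨p, hp, h.2, h.1⟩
        · rintro (⟨p, hp, h⟩ | ⟨p, hp, h⟩)
          · exact ⟨p, hp, Or.inl h⟩
          · exact ⟨p, hp, Or.inr ⟨h.2, h.1⟩⟩
      intro u v
      rw [key2 u v]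
      rcases u with u | u <;> rcases v with v | v
      · simp [hψl, sumAdj]
      · rw [hψl, hψr, hcross u u.2 v v.2]
        simp [sumAdj]
      · rw [hψl, hψr, G.adj_comm, hcross v v.2 u u.2]
        simp [sumAdj]
      · simp [hψr, sumAdj]

/-- From a hierarchical decomposition to a clique-width bound. -/
theorem Decomp.cliqueWidthLE {V : Type} {G : SimpleGraph V} {q : ℕ} [NeZero q]
    (h : Decomp G q Set.univ) : CliqueWidthLE G (q + q + q) := by
  obtain ⟨τ, hτ⟩ := h.exists_exact
  obtain ⟨e, φ, _, h2⟩ := h.real τ hτ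
  exact ⟨q + q + q, le_rfl, e, φ.trans (Equiv.Set.univ V), fun u v => h2 u v⟩

end Pool.Agent.Work.MP_84a460_co
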