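import Pool.Agent.Work.MP_84a460_co.Rank

namespace Pool.Agent.Work.MP_84a460_co

/-- An integer interval representation with positions `1, ..., m`. -/
structure Rep {V : Type} (G : SimpleGraph V) (m : ℕ) (l r : V → ℕ) : Prop where
  one_le : ∀ v, 1 ≤ l v
  le : ∀ v, l v ≤ r v
  le_m : ∀ v, r v ≤ m
  adj : ∀ u v, G.Adj u v ↔ u ≠ v ∧ l u ≤ r v ∧ l v ≤ r u

variable {V : Type}

/-- Intervals entering `(s, e]` from the left are covered by lines. -/
def CovA (l r : V → ℕ) (s e : ℕ) (L R : Finset ℕ) : Prop :=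
  ∀ v, l v ≤ s → s < r v → r v ≤ e → l v ∈ L ∨ r v ∈ R

/-- Intervals leaving `(s, e]` to the right are covered by lines. -/
def CovB (l r : V → ℕ) (s e : ℕ) (L R : Finset ℕ) : Prop :=
  ∀ v, s < l v → l v ≤ e → e < r v → l v ∈ L ∨ r v ∈ R

/-- The vertex set attached to `(s, e]`. -/
def US (l r : V → ℕ) (s e : ℕ) (La Rb : Finset ℕ) : Set V :=
  {v | (s < l v ∧ r v ≤ e) ∨ (l v ≤ s ∧ s < r v ∧ r v ≤ e ∧ l v ∈ La) ∨
    (s < l v ∧ l v ≤ e ∧ e < r v ∧ r v ∈ Rb)}

theorem US_mono (l r : V → ℕ) (s e : ℕ) {La Rb Rb' : Finset ℕ} (h : Rb ⊆ Rb') :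
    US l r s e La Rb ⊆ US l r s e La Rb' := by
  rintro v (hv | hv | hv)
  · exact Or.inl hv
  · exact Or.inr (Or.inl hv)
  · exact Or.inr (Or.inr ⟨hv.1, hv.2.1, hv.2.2.1, h hv.2.2.2⟩)

variable [Fintype V] {G : SimpleGraph V} {m : ℕ} {l r : V → ℕ}

theorem rk_US (rep : Rep G m l r) {s e : ℕ} {La Ra Lb Rb : Finset ℕ}
    (hA : CovA l r s e La Ra) (hB : CovB l r s e Lb Rb) :
    rk G (US l r s e La Rb) (US l r s e La Rb)ᶜ ≤
      (La.card + 1) * ((Rb.card + 1) * (2 ^ Ra.card * 2 ^ Lb.card)) := by
  classical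
  let τ : V → ℕ × ℕ × Finset ℕ × Finset ℕ := fun v =>
    (if l v ≤ s then l v else 0, if e < r v then r v else 0,
      Ra.filter (fun x => x < l v), Lb.filter (fun x => x ≤ r v))
  have key : ∀ u ∈ US l r s e La Rb, ∀ v ∈ US l r s e La Rb, τ u = τ v →
      ∀ w ∉ US l r s e La Rb, (l u ≤ r w ∧ l w ≤ r u) → (l v ≤ r w ∧ l w ≤ r v) := by
    intro u hu v hv huv w hw h
    simp only [τ, Prod.mk.injEq] at huv
    obtain ⟨k1, k2, k3, k4⟩ := huv
    have m3 : ∀ x ∈ Ra, (x < l u ↔ x < l v) := by
      intro x hx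
      have := Finset.ext_iff.1 k3 x
      simpa [hx] using this
    have m4 : ∀ x ∈ Lb, (x ≤ r u ↔ x ≤ r v) := by
      intro x hx
      have := Finset.ext_iff.1 k4 x
      simpa [hx] using this
    have ou := rep.one_le u
    have ov := rep.one_le v
    have ow := rep.one_le w
    have lu := rep.le u
    have lv := rep.le v
    have lw := rep.le w
    simp only [US, Set.mem_ofPred_eq] at hu hv hw
    push Not at hw
    obtain ⟨w1, w2, w3⟩ := hw
    have hsv : s < r v := by rcases hv with h | h | h <;> omega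
    have hve : l v ≤ e := by rcases hv with h | h | h <;> omega
    by_cases c1 : r w ≤ s
    · have : l u ≤ s := by omega
      rw [if_pos this] at k1
      by_cases c2 : l v ≤ s
      · rw [if_pos c2] at k1
        omega
      · rw [if_neg c2] at k1
        omega
    · by_cases c2 : e < l w
      · have : e < r u := by omega
        rw [if_pos this] at k2
        by_cases c3 : e < r v
        · rw [if_pos c3] at k2
          omega
        · rw [if_neg c3] at k2
          omega
      · by_cases c3 : l w ≤ s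
        · by_cases c4 : r w ≤ e
          · have h5 : l w ∉ La := w2 c3 (by omega) c4
            have h6 : r w ∈ Ra := by
              rcases hA w c3 (by omega) c4 with h | h
              · exact absurd h h5
              · exact h
            have := m3 _ h6
            omega
          · omega
        · by_cases c4 : r w ≤ e
          · exact absurd c4 (by have := w1 (by omega); omega)
          · have h5 : r w ∉ Rb := w3 (by omega) (by omega) (by omega)
            have h6 : l w ∈ Lb := by
              rcases hB w (by omega) (by omega) (by omega) with h | h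
              · exact h
              · exact absurd h h5
            have := m4 _ h6
            omega
  have htype : IsTypeMap G (US l r s e La Rb) τ := by
    intro u hu v hv huv w hw
    rw [rep.adj, rep.adj]
    have hne1 : u ≠ w := fun h => hw (h ▸ hu)
    have hne2 : v ≠ w := fun h => hw (h ▸ hv)
    constructor
    · rintro ⟨_, h⟩
      exact ⟨hne2, key u hu v hv huv w hw h⟩
    · rintro ⟨_, h⟩
      exact ⟨hne1, key v hv u hu huv.symm w hw h⟩
  have hmem : ∀ u ∈ US l r s e La Rb,
      τ u ∈ (insert 0 La) ×ˢ ((insert 0 Rb) ×ˢ (Ra.powerset ×ˢ Lb.powerset)) := by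
    intro u hu
    simp only [τ, Finset.mem_product, Finset.mem_insert, Finset.mem_powerset]
    refine ⟨?_, ?_, Finset.filter_subset _ _, Finset.filter_subset _ _⟩
    · by_cases h : l u ≤ s
      · rw [if_pos h]
        rcases hu with h' | h' | h'
        · omega
        · exact Or.inr h'.2.2.2
        · omega
      · rw [if_neg h]; exact Or.inl rfl
    · by_cases h : e < r u
      · rw [if_pos h]
        rcases hu with h' | h' | h'
        · omega
        · omega
        · exact Or.inr h'.2.2.2
      · rw [if_neg h]; exact Or.inl rfl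
  refine (rk_le_of_typeMap G htype _ hmem).trans ?_
  rw [Finset.card_product, Finset.card_product, Finset.card_product, Finset.card_powerset,
    Finset.card_powerset]
  exact Nat.mul_le_mul (Finset.card_insert_le _ _) (Nat.mul_le_mul (Finset.card_insert_le _ _)
    le_rfl)

theorem rk_twins (rep : Rep G m l r) (LT RT : Finset ℕ) {S : Set V}
    (hS : ∀ v ∈ S, l v ∈ LT ∧ r v ∈ RT) : rk G S Sᶜ ≤ LT.card * RT.card := by
  classical
  have htype : IsTypeMap G S (fun v => (l v, r v)) := by
    intro u hu v hv huv w hw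
    simp only [Prod.mk.injEq] at huv
    rw [rep.adj, rep.adj]
    have hne1 : u ≠ w := fun h => hw (h ▸ hu)
    have hne2 : v ≠ w := fun h => hw (h ▸ hv)
    rw [huv.1, huv.2]
    simp [hne1, hne2]
  have := rk_le_of_typeMap G htype (LT ×ˢ RT) (by
    intro u hu
    rw [Finset.mem_product]
    exact hS u hu)
  rwa [Finset.card_product] at this

/-- Bound for the cut-rank of the sets `US` with `k` lines. -/
def F (k : ℕ) : ℕ := (k + 1) * ((k + 1) * (2 ^ k * 2 ^ k))

theorem F_bound {a b c d k : ℕ} (ha : a ≤ k) (hb : b ≤ k) (hc : c ≤ k) (hd : d ≤ k) :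
    (a + 1) * ((b + 1) * (2 ^ c * 2 ^ d)) ≤ F k := by
  unfold F
  have h2 : 2 ^ c ≤ 2 ^ k := Nat.pow_le_pow_right (by norm_num) hc
  have h3 : 2 ^ d ≤ 2 ^ k := Nat.pow_le_pow_right (by norm_num) hd
  exact Nat.mul_le_mul (by omega) (Nat.mul_le_mul (by omega) (Nat.mul_le_mul h2 h3))

/-- The balance constant. -/
def KK (κ : ℕ) : ℕ := 2 * F (2 * κ + 2) + (4 * κ + 4) * (4 * κ + 4)

theorem KK_pos (κ : ℕ) : 1 ≤ KK κ := by
  unfold KK
  have : 1 ≤ (4 * κ + 4) * (4 * κ + 4) := Nat.mul_pos (by omega) (by omega)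
  omega

theorem balanced_of_good (rep : Rep G m l r) (κ : ℕ)
    (hgood : ∀ y, 2 ≤ l y → r y + 1 ≤ m → ∃ La Ra Lb Rb : Finset ℕ,
      La.card ≤ κ ∧ Ra.card ≤ κ ∧ Lb.card ≤ κ ∧ Rb.card ≤ κ ∧
      CovA l r (l y - 1) (r y) La Ra ∧ CovB l r (l y - 1) (r y) Lb Rb)
    (A : Set V) (hA : A.ncard = 9 * KK κ) :
    ∃ Z : Set V, rk G Z Zᶜ ≤ KK κ ∧ 3 * KK κ ≤ (A ∩ Z).ncard ∧ (A ∩ Z).ncard ≤ 6 * KK κ := by
  classical
  by_contra hcon
  push Not at hcon
  set K := KK κ with hK
  have hK1 : 1 ≤ K := KK_pos κ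
  have hKdef : K = 2 * F (2 * κ + 2) + (4 * κ + 4) * (4 * κ + 4) := rfl
  let w : Set V → ℕ := fun S => (A ∩ S).ncard
  have hwmono : ∀ S S' : Set V, S ⊆ S' → w S ≤ w S' := fun S S' h =>
    Set.ncard_le_ncard (Set.inter_subset_inter_right _ h) (Set.toFinite _)
  have hwunion : ∀ S S' : Set V, w (S ∪ S') ≤ w S + w S' := by
    intro S S'
    simp only [w]
    rw [Set.inter_union_distrib_left]
    exact Set.ncard_union_le _ _
  have hdich : ∀ Z : Set V, rk G Z Zᶜ ≤ K → 3 * K ≤ w Z → 6 * K < w Z := hcon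
  -- union of two small sets
  have hsmall2 : ∀ (Z Z' : Set V) (a b : ℕ), rk G Z Zᶜ ≤ a → rk G Z' Z'ᶜ ≤ b → a + b ≤ K →
      w Z < 3 * K → w Z' < 3 * K → w (Z ∪ Z') < 3 * K := by
    intro Z Z' a b h1 h2 h3 h4 h5
    by_contra h6
    have h7 := hdich (Z ∪ Z') ((rk_compl_union G Z Z').trans (by omega)) (by omega)
    have := hwunion Z Z'
    omega
  -- few twin classes are small
  have htwins : ∀ LT RT : Finset ℕ, LT.card * RT.card ≤ K →
      w {v | l v ∈ LT ∧ r v ∈ RT} < 3 * K := by
    intro LT RT hc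
    by_contra h
    push Not at h
    obtain ⟨S, hS1, hS2⟩ := Set.exists_subset_card_eq h
    have h1 : rk G S Sᶜ ≤ K := (rk_twins rep LT RT (fun v hv => (hS1 hv).2)).trans hc
    have h2 : A ∩ S = S := by
      rw [Set.inter_eq_right]
      exact fun v hv => (hS1 hv).1
    have h3 : w S = 3 * K := by simp only [w]; rw [h2]; exact hS2
    have := hdich S h1 (by omega)
    omega
  -- minimal big good interval
  let P : ℕ → Prop := fun n => ∃ s e, s ≤ e ∧ e - s = n ∧ ∃ La Ra Lb Rb : Finset ℕ,
    La.card ≤ κ ∧ Ra.card ≤ κ ∧ Lb.card ≤ κ ∧ Rb.card ≤ κ ∧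
    CovA l r s e La Ra ∧ CovB l r s e Lb Rb ∧ 3 * K ≤ w (US l r s e La Rb)
  have hPex : ∃ n, P n := by
    refine ⟨m - 0, 0, m, Nat.zero_le _, rfl, ∅, ∅, ∅, ∅, by simp, by simp, by simp, by simp,
      ?_, ?_, ?_⟩
    · intro v hv
      have := rep.one_le v
      omega
    · intro v _ _ hv
      have := rep.le_m v
      omega
    · have : US l r 0 m ∅ ∅ = Set.univ := by
        ext v
        simp only [US, Set.mem_ofPred_eq, Set.mem_univ, iff_true]
        have := rep.one_le v
        have := rep.le_m v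
        left; omega
      rw [this]
      simp only [w, Set.inter_univ]
      omega
  obtain ⟨s, e, hse, hlen, La, Ra, Lb, Rb, cLa, cRa, cLb, cRb, hCA, hCB, hbig⟩ :=
    Nat.find_spec hPex
  have hmin : ∀ (s' e' : ℕ) (La' Ra' Lb' Rb' : Finset ℕ), s' ≤ e' → e' - s' < e - s →
      La'.card ≤ κ → Ra'.card ≤ κ → Lb'.card ≤ κ → Rb'.card ≤ κ →
      CovA l r s' e' La' Ra' → CovB l r s' e' Lb' Rb' → w (US l r s' e' La' Rb') < 3 * K := by
    intro s' e' La' Ra' Lb' Rb' h1 h2 c1 c2 c3 c4 h3 h4
    by_contra h5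
    push Not at h5
    have := Nat.find_min hPex (m := e' - s') (by omega)
    exact this ⟨s', e', h1, rfl, La', Ra', Lb', Rb', c1, c2, c3, c4, h3, h4, h5⟩
  -- free gaps
  let Cov : ℕ → Finset ℕ → Finset ℕ → Prop := fun g L R =>
    ∀ v, s < l v → l v ≤ g → g < r v → r v ≤ e → l v ∈ L ∨ r v ∈ R
  let Q : ℕ → Prop := fun g => s ≤ g ∧ g ≤ e ∧ ∃ L R : Finset ℕ, L.card ≤ κ + 2 ∧
    R.card ≤ κ + 2 ∧ Cov g L R ∧ 3 * K ≤ w (US l r s g La (Rb ∪ R))
  have hQex : ∃ g, Q g := by
    refine ⟨e, hse, le_rfl, ∅, ∅, by simp, by simp, ?_, ?_⟩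
    · intro v _ _ h1 h2
      omega
    · simpa using hbig
  obtain ⟨hsg', hg'e, L', R', cL', cR', hcov', hbig'⟩ := Nat.find_spec hQex
  set g' := Nat.find hQex with hg'
  have hQmin : ∀ g, g < g' → ¬ Q g := fun g hg => Nat.find_min hQex hg
  have hg's : s < g' := by
    rcases Nat.lt_or_ge s g' with h | h
    · exact h
    · exfalso
      have hEq : g' = s := le_antisymm h hsg'
      rw [hEq] at hbig'
      have : US l r s s La (Rb ∪ R') = ∅ := by
        ext v
        simp only [US, Set.mem_ofPred_eq, Set.mem_empty_iff_false, iff_false]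
        have := rep.le v
        omega
      rw [this] at hbig'
      simp only [w, Set.inter_empty, Set.ncard_empty] at hbig'
      omega
  let Fr : ℕ → Prop := fun g => s ≤ g ∧ ∃ L R : Finset ℕ, L.card ≤ κ + 2 ∧
    R.card ≤ κ + 2 ∧ Cov g L R
  have hFrs : Fr s := by
    refine ⟨le_rfl, ∅, ∅, by simp, by simp, ?_⟩
    intro v h1 h2
    omega
  have hgspec : Fr (Nat.findGreatest Fr (g' - 1)) :=
    Nat.findGreatest_spec (m := s) (by omega) hFrs
  set g := Nat.findGreatest Fr (g' - 1) with hgdef
  have hgg' : g < g' := by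
    have := Nat.findGreatest_le (P := Fr) (g' - 1)
    omega
  have hnofree : ∀ x, g < x → x < g' → ¬ Fr x := by
    intro x h1 h2
    exact Nat.findGreatest_is_greatest h1 (by omega)
  obtain ⟨hsg, L, R, cL, cR, hcov⟩ := hgspec
  have hsmallg : w (US l r s g La (Rb ∪ R)) < 3 * K := by
    by_contra h
    push Not at h
    exact hQmin g hgg' ⟨hsg, by omega, L, R, cL, cR, hcov, h⟩
  -- covers of the sets attached to `(s, g]` and `(s, g']`
  have hCAg : ∀ x, x ≤ e → CovA l r s x La Ra := fun x hx v h1 h2 h3 => hCA v h1 h2 (by omega)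
  have hCBg : CovB l r s g (Lb ∪ L) (Rb ∪ R) := by
    intro v h1 h2 h3
    by_cases h4 : r v ≤ e
    · rcases hcov v h1 h2 h3 h4 with h | h
      · exact Or.inl (Finset.mem_union_right _ h)
      · exact Or.inr (Finset.mem_union_right _ h)
    · rcases hCB v h1 (by omega) (by omega) with h | h
      · exact Or.inl (Finset.mem_union_left _ h)
      · exact Or.inr (Finset.mem_union_left _ h)
  have hCBg' : CovB l r s g' (Lb ∪ L') (Rb ∪ R') := by
    intro v h1 h2 h3
    by_cases h4 : r v ≤ e
    · rcases hcov' v h1 h2 h3 h4 with h | h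
      · exact Or.inl (Finset.mem_union_right _ h)
      · exact Or.inr (Finset.mem_union_right _ h)
    · rcases hCB v h1 (by omega) (by omega) with h | h
      · exact Or.inl (Finset.mem_union_left _ h)
      · exact Or.inr (Finset.mem_union_left _ h)
  have cu : ∀ (X Y : Finset ℕ), X.card ≤ κ → Y.card ≤ κ + 2 → (X ∪ Y).card ≤ 2 * κ + 2 := by
    intro X Y h1 h2
    have := Finset.card_union_le X Y
    omega
  have hrkg : rk G (US l r s g La (Rb ∪ R)) (US l r s g La (Rb ∪ R))ᶜ ≤ F (2 * κ + 2) :=
    (rk_US rep (hCAg g (by omega)) hCBg).trans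
      (F_bound (by omega) (cu _ _ cRb cR) (by omega) (cu _ _ cLb cL))
  rcases Nat.lt_or_ge (g + 1) g' with hcase | hcase
  · -- there is a gap strictly between
    have hnf := hnofree (g + 1) (by omega) hcase
    -- candidates
    let S : Finset V := Finset.univ.filter (fun v => s < l v ∧ l v ≤ g + 1 ∧ g + 1 < r v ∧
      r v ≤ e ∧ 2 ≤ l v ∧ r v + 1 ≤ m ∧ ¬ (l v = s + 1 ∧ r v = e))
    have hSne : S.Nonempty := by
      by_contra hS
      rw [Finset.not_nonempty_iff_eq_empty] at hS
      apply hnf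
      refine ⟨by omega, {1, s + 1}, {m}, ?_, ?_, ?_⟩
      · exact (Finset.card_le_two).trans (by omega)
      · simp
      · intro v h1 h2 h3 h4
        by_contra h5
        push Not at h5
        obtain ⟨h6, h7⟩ := h5
        simp only [Finset.mem_insert, Finset.mem_singleton, not_or] at h6 h7
        have : v ∈ S := by
          simp only [S, Finset.mem_filter, Finset.mem_univ, true_and]
          have := rep.one_le v
          have := rep.le_m v
          refine ⟨h1, h2, h3, h4, by omega, by omega, ?_⟩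
          rintro ⟨h8, h9⟩
          exact h6.2 h8
        rw [hS] at this
        exact absurd this (Finset.notMem_empty v)
    obtain ⟨c, hcS, hcmax⟩ := Finset.exists_max_image S (fun v => r v - l v) hSne
    simp only [S, Finset.mem_filter, Finset.mem_univ, true_and] at hcS
    obtain ⟨c1, c2, c3, c4, c5, c6, c7⟩ := hcS
    obtain ⟨La', Ra', Lb', Rb', d1, d2, d3, d4, hcA, hcB⟩ := hgood c c5 c6
    have hlc := rep.le c
    -- the right end of `c` is free
    have hrc : g' ≤ r c := by
      by_contra hlt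
      push Not at hlt
      apply hnofree (r c) (by omega) hlt
      refine ⟨by omega, insert 1 (insert (s + 1) Lb'), insert m Rb', ?_, ?_, ?_⟩
      · refine (Finset.card_insert_le _ _).trans ?_
        have := Finset.card_insert_le (s + 1) Lb'
        omega
      · refine (Finset.card_insert_le _ _).trans (by omega)
      · intro v h1 h2 h3 h4
        by_contra h5
        push Not at h5
        obtain ⟨h6, h7⟩ := h5
        simp only [Finset.mem_insert, not_or] at h6 h7
        have hv1 := rep.one_le v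
        have hvm := rep.le_m v
        by_cases h8 : l v ≤ l c
        · have : v ∈ S := by
            simp only [S, Finset.mem_filter, Finset.mem_univ, true_and]
            refine ⟨h1, by omega, by omega, h4, by omega, by omega, ?_⟩
            rintro ⟨h8, h9⟩
            exact h6.2.1 h8
          have := hcmax v this
          omega
        · rcases hcB v (by omega) h2 h3 with h | h
          · exact h6.2.2 h
          · exact h7.2 h
    -- the set attached to `c` is small
    have hsmallc : w (US l r (l c - 1) (r c) La' Rb') < 3 * K :=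
      hmin _ _ La' Ra' Lb' Rb' (by omega) (by omega) d1 d2 d3 d4 hcA hcB
    have hrkc : rk G (US l r (l c - 1) (r c) La' Rb') (US l r (l c - 1) (r c) La' Rb')ᶜ ≤
        F (2 * κ + 2) :=
      (rk_US rep hcA hcB).trans
        (F_bound (by omega) (by omega) (by omega) (by omega))
    let LT : Finset ℕ := (Lb ∪ L) ∪ (La ∪ Lb')
    let RT : Finset ℕ := Ra' ∪ (Rb ∪ R')
    have hLT : LT.card ≤ 4 * κ + 4 := by
      have h1 := Finset.card_union_le (Lb ∪ L) (La ∪ Lb')
      have h2 := cu _ _ cLb cL
      have h3 := Finset.card_union_le La Lb'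
      simp only [LT]
      omega
    have hRT : RT.card ≤ 4 * κ + 4 := by
      have h1 := Finset.card_union_le Ra' (Rb ∪ R')
      have h2 := cu _ _ cRb cR'
      simp only [RT]
      omega
    have hTK : LT.card * RT.card ≤ (4 * κ + 4) * (4 * κ + 4) := Nat.mul_le_mul hLT hRT
    have hT := htwins LT RT (by omega)
    have hrkT := rk_twins rep (S := {v | l v ∈ LT ∧ r v ∈ RT}) LT RT (fun v hv => hv)
    have h12 := hsmall2 _ _ _ _ hrkg hrkc (by omega) hsmallg hsmallc
    have hrk12 := (rk_compl_union G (US l r s g La (Rb ∪ R)) (US l r (l c - 1) (r c) La' Rb')).trans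
      (Nat.add_le_add hrkg hrkc)
    have h123 := hsmall2 _ _ _ _ hrk12 (hrkT.trans hTK) (by omega) h12 hT
    have hsub : US l r s g' La (Rb ∪ R') ⊆
        (US l r s g La (Rb ∪ R) ∪ US l r (l c - 1) (r c) La' Rb') ∪
          {v | l v ∈ LT ∧ r v ∈ RT} := by
      intro v hv
      have hv1 := rep.one_le v
      have hvl := rep.le v
      have inU1 : ∀ h : v ∈ US l r s g La (Rb ∪ R), v ∈
        (US l r s g La (Rb ∪ R) ∪ US l r (l c - 1) (r c) La' Rb') ∪
          {v | l v ∈ LT ∧ r v ∈ RT} := fun h => Or.inl (Or.inl h)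
      have inU2 : ∀ h : v ∈ US l r (l c - 1) (r c) La' Rb', v ∈
        (US l r s g La (Rb ∪ R) ∪ US l r (l c - 1) (r c) La' Rb') ∪
          {v | l v ∈ LT ∧ r v ∈ RT} := fun h => Or.inl (Or.inr h)
      have inT : ∀ (h : l v ∈ LT) (h' : r v ∈ RT), v ∈
        (US l r s g La (Rb ∪ R) ∪ US l r (l c - 1) (r c) La' Rb') ∪
          {v | l v ∈ LT ∧ r v ∈ RT} := fun h h' => Or.inr ⟨h, h'⟩
      -- a vertex entering `c` from the left
      have fromleft : l v < l c → g < r v → r v ≤ g' → l v ∈ LT → v ∈
        (US l r s g La (Rb ∪ R) ∪ US l r (l c - 1) (r c) La' Rb') ∪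
          {v | l v ∈ LT ∧ r v ∈ RT} := by
        intro h1 h2 h3 h4
        rcases hcA v (by omega) (by omega) (by omega) with h | h
        · exact inU2 (Or.inr (Or.inl ⟨by omega, by omega, by omega, h⟩))
        · exact inT h4 (Finset.mem_union_left _ h)
      rcases hv with hv | hv | hv
      · -- inside
        by_cases h1 : r v ≤ g
        · exact inU1 (Or.inl ⟨hv.1, h1⟩)
        · by_cases h2 : l v ≤ g
          · rcases hCBg v hv.1 h2 (by omega) with h | h
            · by_cases h3 : l v < l c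
              · exact fromleft h3 (by omega) hv.2 (Finset.mem_union_left _ h)
              · exact inU2 (Or.inl ⟨by omega, by omega⟩)
            · exact inU1 (Or.inr (Or.inr ⟨hv.1, h2, by omega, h⟩))
          · exact inU2 (Or.inl ⟨by omega, by omega⟩)
      · -- entering from the left
        obtain ⟨h1, h2, h3, h4⟩ := hv
        by_cases h5 : r v ≤ g
        · exact inU1 (Or.inr (Or.inl ⟨h1, h2, h5, h4⟩))
        · exact fromleft (by omega) (by omega) h3
            (Finset.mem_union_right _ (Finset.mem_union_left _ h4))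
      · -- leaving to the right
        obtain ⟨h1, h2, h3, h4⟩ := hv
        by_cases h5 : l v ≤ g
        · rcases hCBg v h1 h5 (by omega) with h | h
          · exact inT (Finset.mem_union_left _ h) (Finset.mem_union_right _ h4)
          · exact inU1 (Or.inr (Or.inr ⟨h1, h5, by omega, h⟩))
        · by_cases h6 : r v ≤ r c
          · exact inU2 (Or.inl ⟨by omega, h6⟩)
          · rcases hcB v (by omega) (by omega) (by omega) with h | h
            · exact inT (Finset.mem_union_right _ (Finset.mem_union_right _ h))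
                (Finset.mem_union_right _ h4)
            · exact inU2 (Or.inr (Or.inr ⟨by omega, by omega, by omega, h⟩))
    have := hwmono _ _ hsub
    omega
  · -- consecutive gaps
    have hg1 : g' = g + 1 := by omega
    let LT : Finset ℕ := insert (g + 1) ((Lb ∪ L) ∪ La)
    let RT : Finset ℕ := insert (g + 1) (Rb ∪ R')
    have hLT : LT.card ≤ 4 * κ + 4 := by
      have h0 := Finset.card_insert_le (g + 1) ((Lb ∪ L) ∪ La)
      have h1 := Finset.card_union_le (Lb ∪ L) La
      have h2 := cu _ _ cLb cL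
      simp only [LT]
      omega
    have hRT : RT.card ≤ 4 * κ + 4 := by
      have h1 := Finset.card_insert_le (g + 1) (Rb ∪ R')
      have h2 := cu _ _ cRb cR'
      simp only [RT]
      omega
    have hTK : LT.card * RT.card ≤ (4 * κ + 4) * (4 * κ + 4) := Nat.mul_le_mul hLT hRT
    have hT := htwins LT RT (by omega)
    have hrkT := rk_twins rep (S := {v | l v ∈ LT ∧ r v ∈ RT}) LT RT (fun v hv => hv)
    have h123 := hsmall2 _ _ _ _ hrkg (hrkT.trans hTK) (by omega) hsmallg hT
    have hsub : US l r s g' La (Rb ∪ R') ⊆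
        US l r s g La (Rb ∪ R) ∪ {v | l v ∈ LT ∧ r v ∈ RT} := by
      intro v hv
      have hv1 := rep.one_le v
      have hvl := rep.le v
      have inU1 : ∀ h : v ∈ US l r s g La (Rb ∪ R), v ∈
        US l r s g La (Rb ∪ R) ∪ {v | l v ∈ LT ∧ r v ∈ RT} := fun h => Or.inl h
      have inT : ∀ (h : l v ∈ LT) (h' : r v ∈ RT), v ∈
        US l r s g La (Rb ∪ R) ∪ {v | l v ∈ LT ∧ r v ∈ RT} := fun h h' => Or.inr ⟨h, h'⟩
      have eqR : r v = g + 1 → r v ∈ RT := fun h => by
        rw [h]; exact Finset.mem_insert_self _ _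
      have eqL : l v = g + 1 → l v ∈ LT := fun h => by
        rw [h]; exact Finset.mem_insert_self _ _
      rcases hv with hv | hv | hv
      · by_cases h1 : r v ≤ g
        · exact inU1 (Or.inl ⟨hv.1, h1⟩)
        · by_cases h2 : l v ≤ g
          · rcases hCBg v hv.1 h2 (by omega) with h | h
            · exact inT (Finset.mem_insert_of_mem (Finset.mem_union_left _ h)) (eqR (by omega))
            · exact inU1 (Or.inr (Or.inr ⟨hv.1, h2, by omega, h⟩))
          · exact inT (eqL (by omega)) (eqR (by omega))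
      · obtain ⟨h1, h2, h3, h4⟩ := hv
        by_cases h5 : r v ≤ g
        · exact inU1 (Or.inr (Or.inl ⟨h1, h2, h5, h4⟩))
        · exact inT (Finset.mem_insert_of_mem (Finset.mem_union_right _ h4)) (eqR (by omega))
      · obtain ⟨h1, h2, h3, h4⟩ := hv
        by_cases h5 : l v ≤ g
        · rcases hCBg v h1 h5 (by omega) with h | h
          · exact inT (Finset.mem_insert_of_mem (Finset.mem_union_left _ h))
              (Finset.mem_insert_of_mem h4)
          · exact inU1 (Or.inr (Or.inr ⟨h1, h5, by omega, h⟩))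
        · exact inT (eqL (by omega)) (Finset.mem_insert_of_mem h4)
    have := hwmono _ _ hsub
    omega

/-- Clique-width bound for interval graphs in which crossing families are covered by lines. -/
theorem cliqueWidthLE_of_good [Nonempty V] (rep : Rep G m l r) (κ : ℕ)
    (hgood : ∀ y, 2 ≤ l y → r y + 1 ≤ m → ∃ La Ra Lb Rb : Finset ℕ,
      La.card ≤ κ ∧ Ra.card ≤ κ ∧ Lb.card ≤ κ ∧ Rb.card ≤ κ ∧
      CovA l r (l y - 1) (r y) La Ra ∧ CovB l r (l y - 1) (r y) Lb Rb) :
    CliqueWidthLE G (2 ^ (9 * KK κ) + 2 ^ (9 * KK κ) + 2 ^ (9 * KK κ)) :=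
  cliqueWidthLE_of_balanced G (KK_pos κ) (balanced_of_good rep κ hgood)

end Pool.Agent.Work.MP_84a460_co
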