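import Mathlib

/-! Definitions for the classification of bounded clique-width of `H`-free interval graphs. -/

namespace Pool.Agent.Work.MP_84a460_co

/-- Clique-width expressions with labels `0, ..., k-1`. -/
inductive CWExpr (k : ℕ) : Type
  | vertex (i : Fin k) : CWExpr k
  | union (a b : CWExpr k) : CWExpr k
  | relabel (i j : Fin k) (a : CWExpr k) : CWExpr k
  | join (i j : Fin k) (a : CWExpr k) : CWExpr k

/-- The vertex set of the graph built by an expression. -/
def CWExpr.Vert {k : ℕ} : CWExpr k → Type
  | .vertex _ => Unit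
  | .union a b => a.Vert ⊕ b.Vert
  | .relabel _ _ a => a.Vert
  | .join _ _ a => a.Vert

/-- The labels of the vertices of the graph built by an expression. -/
def CWExpr.label {k : ℕ} : (e : CWExpr k) → e.Vert → Fin k
  | .vertex i, _ => i
  | .union a _, .inl v => a.label v
  | .union _ b, .inr v => b.label v
  | .relabel i j a, v => if a.label v = i then j else a.label v
  | .join _ _ a, v => a.label v

/-- Adjacency in the graph built by an expression: `union` is disjoint union, `relabel i j` turns
every label `i` into `j`, and `join i j` (for `i ≠ j`) adds all edges between the vertices labelled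
`i` and those labelled `j`. -/
def CWExpr.Adj {k : ℕ} : (e : CWExpr k) → e.Vert → e.Vert → Prop
  | .vertex _, _, _ => False
  | .union a _, .inl u, .inl v => a.Adj u v
  | .union _ b, .inr u, .inr v => b.Adj u v
  | .union _ _, .inl _, .inr _ => False
  | .union _ _, .inr _, .inl _ => False
  | .relabel _ _ a, u, v => a.Adj u v
  | .join i j a, u, v => a.Adj u v ∨
      (i ≠ j ∧ ((a.label u = i ∧ a.label v = j) ∨ (a.label u = j ∧ a.label v = i)))

/-- `CliqueWidthLE G k`: the graph `G` can be constructed from single labelled vertices with at most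
`k` labels, i.e. the clique-width of `G` is at most `k`. -/
def CliqueWidthLE {V : Type} (G : SimpleGraph V) (k : ℕ) : Prop :=
  ∃ n ≤ k, ∃ (e : CWExpr n) (φ : e.Vert ≃ V), ∀ u v : e.Vert, e.Adj u v ↔ G.Adj (φ u) (φ v)

/-- Interval graphs: intersection graphs of families of compact intervals of the real line. -/
def IsIntervalGraph {V : Type} (G : SimpleGraph V) : Prop :=
  ∃ a b : V → ℝ, (∀ v, a v ≤ b v) ∧
    ∀ u v, G.Adj u v ↔ u ≠ v ∧ (Set.Icc (a u) (b u) ∩ Set.Icc (a v) (b v)).Nonempty

/-- Unit interval graphs: intersection graphs of families of intervals of length one. -/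
def IsUnitIntervalGraph {V : Type} (G : SimpleGraph V) : Prop :=
  ∃ a : V → ℝ,
    ∀ u v, G.Adj u v ↔ u ≠ v ∧ (Set.Icc (a u) (a u + 1) ∩ Set.Icc (a v) (a v + 1)).Nonempty

/-- Split graphs: the vertex set is partitioned into a clique `K` and an independent set. -/
def IsSplitGraph {V : Type} (G : SimpleGraph V) : Prop :=
  ∃ K : Set V, (∀ u ∈ K, ∀ v ∈ K, u ≠ v → G.Adj u v) ∧ (∀ u ∉ K, ∀ v ∉ K, ¬ G.Adj u v)

/-- Every independent set of vertices has at most three elements. -/
def IndepLEThree {W : Type} (H : SimpleGraph W) : Prop :=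
  ∀ s : Finset W, (∀ u ∈ s, ∀ v ∈ s, ¬ H.Adj u v) → s.card ≤ 3

/-- The graph `Q`: a complete graph on `0, 1, 2, 3`, a vertex `4` adjacent to exactly `0, 1` and a
vertex `5` adjacent to exactly `2, 3`. -/
def graphQ : SimpleGraph (Fin 6) :=
  SimpleGraph.fromRel (fun u v => (u < 4 ∧ v < 4) ∨ (u ≤ 1 ∧ v = 4) ∨ (2 ≤ u ∧ u ≤ 3 ∧ v = 5))

/-- The class of `H`-free interval graphs has bounded clique-width. -/
def BoundedOnHFreeInterval {W : Type} (H : SimpleGraph W) : Prop :=
  ∃ c : ℕ, ∀ (V : Type) [Finite V] [Nonempty V] (G : SimpleGraph V),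
    IsIntervalGraph G → IsEmpty (H ↪g G) → CliqueWidthLE G c

/-- Vertices of `graphA t`. -/
inductive VA (t : ℕ) : Type
  | x (i : Fin t) : VA t
  | z (i : Fin t) : VA t
  | y : VA t
  | a : VA t
  | b : VA t
  deriving DecidableEq

/-- Adjacency of `graphA t`: the `2t+1` vertices `x i`, `z i`, `y` form a clique, `a` is adjacent to
exactly the vertices `x i` and `b` is adjacent to exactly `y`. -/
def adjA {t : ℕ} : VA t → VA t → Prop
  | .x i, .x j => i ≠ j
  | .x _, .z _ => True
  | .x _, .y => True
  | .z _, .x _ => True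
  | .z i, .z j => i ≠ j
  | .z _, .y => True
  | .y, .x _ => True
  | .y, .z _ => True
  | .a, .x _ => True
  | .x _, .a => True
  | .b, .y => True
  | .y, .b => True
  | _, _ => False

/-- The graph `A_t`. -/
def graphA (t : ℕ) : SimpleGraph (VA t) where
  Adj := adjA
  symm := ⟨by
    intro u v h
    cases u <;> cases v <;> simp_all [adjA]
    all_goals exact fun h' => h h'.symm⟩
  loopless := ⟨by
    intro u h
    cases u <;> simp_all [adjA]⟩

/-- Vertices of `graphB t`. -/
inductive VB (t : ℕ) : Type
  | x (i : Fin t) : VB t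
  | w (i : Fin t) : VB t
  | y : VB t
  | a : VB t
  | b : VB t
  | d : VB t
  deriving DecidableEq

/-- Adjacency of `graphB t`: the `2t+1` vertices `x i`, `w i`, `y` form a clique, `a` is adjacent to
exactly the vertices `x i`, `w i`, the vertex `b` is adjacent to exactly `y` and the vertices `w i`,
and `d` is isolated. -/
def adjB {t : ℕ} : VB t → VB t → Prop
  | .x i, .x j => i ≠ j
  | .x _, .w _ => True
  | .x _, .y => True
  | .w _, .x _ => True
  | .w i, .w j => i ≠ j
  | .w _, .y => True
  | .y, .x _ => True
  | .y, .w _ => True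
  | .a, .x _ => True
  | .x _, .a => True
  | .a, .w _ => True
  | .w _, .a => True
  | .b, .y => True
  | .y, .b => True
  | .b, .w _ => True
  | .w _, .b => True
  | _, _ => False

/-- The graph `B_t`. -/
def graphB (t : ℕ) : SimpleGraph (VB t) where
  Adj := adjB
  symm := ⟨by
    intro u v h
    cases u <;> cases v <;> simp_all [adjB]
    all_goals exact fun h' => h h'.symm⟩
  loopless := ⟨by
    intro u h
    cases u <;> simp_all [adjB]⟩

end Pool.Agent.Work.MP_84a460_co
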