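import Pool.Agent.Work.MP_84a460_co.Grid

namespace Pool.Agent.Work.MP_84a460_co

/-- Intersection graph of integer intervals. -/
def intGraph {V : Type} (lo hi : V → ℤ) : SimpleGraph V where
  Adj u v := u ≠ v ∧ lo u ≤ hi v ∧ lo v ≤ hi u
  symm := ⟨fun _ _ h => ⟨h.1.symm, h.2.2, h.2.1⟩⟩
  loopless := ⟨fun _ h => h.1 rfl⟩

theorem intGraph_interval {V : Type} {lo hi : V → ℤ} (h : ∀ v, lo v ≤ hi v) :
    IsIntervalGraph (intGraph lo hi) := by
  refine ⟨fun v => (lo v : ℝ), fun v => (hi v : ℝ), fun v => Int.cast_le.2 (h v), ?_⟩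
  intro u v
  have h1 : (lo u : ℝ) ≤ hi u := by exact_mod_cast h u
  have h2 : (lo v : ℝ) ≤ hi v := by exact_mod_cast h v
  rw [Set.Icc_inter_Icc, Set.nonempty_Icc, sup_le_iff, le_inf_iff, le_inf_iff]
  change (u ≠ v ∧ lo u ≤ hi v ∧ lo v ≤ hi u) ↔ _
  simp only [h1, h2, true_and, and_true, Int.cast_le]

/-- Vertices of the grid-like interval graphs. -/
abbrev GV (n : ℕ) : Type := (Fin n × Fin n) ⊕ (Fin n ⊕ Fin n)

/-- Left ends in the grid-like interval graphs. -/
def gridLo (n : ℕ) (long : Bool) : GV n → ℤ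
  | .inl p => p.1.val
  | .inr (.inl i) => if long then -1 else i.val
  | .inr (.inr j) => n + j.val

/-- Right ends in the grid-like interval graphs. -/
def gridHi (n : ℕ) (long : Bool) : GV n → ℤ
  | .inl p => n + p.2.val
  | .inr (.inl i) => i.val
  | .inr (.inr j) => if long then 2 * n + 1 else n + j.val

/-- The grid-like interval graphs. -/
def gridG (n : ℕ) (long : Bool) : SimpleGraph (GV n) := intGraph (gridLo n long) (gridHi n long)

theorem grid_le (n : ℕ) (long : Bool) (v : GV n) : gridLo n long v ≤ gridHi n long v := by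
  rcases v with ⟨x, y⟩ | i | j
  · simp only [gridLo, gridHi]
    have := x.2
    omega
  · simp only [gridLo, gridHi]
    split_ifs <;> omega
  · simp only [gridLo, gridHi]
    have := j.2
    split_ifs <;> omega

theorem grid_unbounded (long : Bool) (k : ℕ) :
    ∃ n, 0 < n ∧ ¬ CliqueWidthLE (gridG n long) k := by
  refine ⟨3 * (2 * 2 ^ k + 1), by omega, ?_⟩
  refine grid_lower (fun x y => Sum.inl (x, y)) ?_ (fun i => Sum.inr (Sum.inl i))
    (fun j => Sum.inr (Sum.inr j)) ?_ ?_ rfl
  · intro x y x' y' h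
    simp only [Sum.inl.injEq, Prod.mk.injEq] at h
    exact h
  · intro x y i
    change (Sum.inl (x, y) ≠ Sum.inr (Sum.inl i) ∧ gridLo _ long (Sum.inl (x, y)) ≤
      gridHi _ long (Sum.inr (Sum.inl i)) ∧ gridLo _ long (Sum.inr (Sum.inl i)) ≤
      gridHi _ long (Sum.inl (x, y))) ↔ _
    simp only [gridLo, gridHi, Fin.le_def, ne_eq, reduceCtorEq, not_false_eq_true, true_and]
    have := i.2
    split_ifs <;> omega
  · intro x y j
    change (Sum.inl (x, y) ≠ Sum.inr (Sum.inr j) ∧ gridLo _ long (Sum.inl (x, y)) ≤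
      gridHi _ long (Sum.inr (Sum.inr j)) ∧ gridLo _ long (Sum.inr (Sum.inr j)) ≤
      gridHi _ long (Sum.inl (x, y))) ↔ _
    simp only [gridLo, gridHi, Fin.le_def, ne_eq, reduceCtorEq, not_false_eq_true, true_and]
    have := x.2
    split_ifs <;> omega

/-- If all members of an unbounded family are `H`-free, then `H` is a negative instance. -/
theorem not_bounded_of_family {W : Type} {H : SimpleGraph W}
    (h : ∀ k : ℕ, ∃ (V : Type) (_ : Finite V) (_ : Nonempty V) (G : SimpleGraph V),
      IsIntervalGraph G ∧ IsEmpty (H ↪g G) ∧ ¬ CliqueWidthLE G k) :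
    ¬ BoundedOnHFreeInterval H := by
  rintro ⟨c, hc⟩
  obtain ⟨V, hf, hne, G, h1, h2, h3⟩ := h c
  exact h3 (hc V G h1 h2)

theorem split_of_emb {W V : Type} {H : SimpleGraph W} {G : SimpleGraph V} (e : H ↪g G)
    (h : IsSplitGraph G) : IsSplitGraph H := by
  obtain ⟨K, h1, h2⟩ := h
  refine ⟨e ⁻¹' K, fun u hu v hv huv => ?_, fun u hu v hv => ?_⟩
  · rw [← e.map_adj_iff]
    exact h1 _ hu _ hv (fun h => huv (e.injective h))
  · rw [← e.map_adj_iff]
    exact h2 _ hu _ hv

theorem grid_split (n : ℕ) : IsSplitGraph (gridG n false) := by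
  refine ⟨Set.range Sum.inl, ?_, ?_⟩
  · rintro _ ⟨⟨x, y⟩, rfl⟩ _ ⟨⟨x', y'⟩, rfl⟩ h
    refine ⟨h, ?_, ?_⟩ <;> simp only [gridLo, gridHi]
    · have := x.2
      omega
    · have := x'.2
      omega
  · rintro (u | u) hu
    · exact absurd ⟨u, rfl⟩ hu
    rintro (v | v) hv
    · exact absurd ⟨v, rfl⟩ hv
    rintro ⟨h1, h2, h3⟩
    rcases u with i | j <;> rcases v with i' | j' <;>
      simp only [gridLo, gridHi, Bool.false_eq_true, if_false] at h2 h3
    · apply h1
      have : i = i' := Fin.ext (by omega)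
      rw [this]
    · have := i.2
      omega
    · have := i'.2
      omega
    · apply h1
      have : j = j' := Fin.ext (by omega)
      rw [this]

theorem split_of_bounded {W : Type} {H : SimpleGraph W} (h : BoundedOnHFreeInterval H) :
    IsSplitGraph H := by
  by_contra hns
  refine not_bounded_of_family (H := H) ?_ h
  intro k
  obtain ⟨n, hn, hk⟩ := grid_unbounded false k
  have : Nonempty (GV n) := ⟨Sum.inr (Sum.inl ⟨0, hn⟩)⟩
  exact ⟨GV n, inferInstance, this, gridG n false, intGraph_interval (grid_le n false),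
    ⟨fun e => hns (split_of_emb e (grid_split n))⟩, hk⟩

/-- The three cliques covering `gridG n true`. -/
def gridClass (n : ℕ) : GV n → Fin 3
  | .inl _ => 0
  | .inr (.inl _) => 1
  | .inr (.inr _) => 2

theorem gridClass_adj {n : ℕ} {u v : GV n} (h : gridClass n u = gridClass n v) (hne : u ≠ v) :
    (gridG n true).Adj u v := by
  refine ⟨hne, ?_⟩
  rcases u with ⟨x, y⟩ | i | j <;> rcases v with ⟨x', y'⟩ | i' | j' <;>
    simp only [gridClass] at h <;> simp only [gridLo, gridHi, if_true]
  · have := x.2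
    have := x'.2
    omega
  · exact absurd h (by decide)
  · exact absurd h (by decide)
  · exact absurd h (by decide)
  · omega
  · exact absurd h (by decide)
  · exact absurd h (by decide)
  · exact absurd h (by decide)
  · have := j.2
    have := j'.2
    omega

theorem indep_of_bounded {W : Type} {H : SimpleGraph W} (h : BoundedOnHFreeInterval H) :
    IndepLEThree H := by
  by_contra hns
  refine not_bounded_of_family (H := H) ?_ h
  intro k
  obtain ⟨n, hn, hk⟩ := grid_unbounded true k
  have : Nonempty (GV n) := ⟨Sum.inr (Sum.inl ⟨0, hn⟩)⟩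
  refine ⟨GV n, inferInstance, this, gridG n true, intGraph_interval (grid_le n true),
    ⟨fun e => hns ?_⟩, hk⟩
  intro s hs
  have h1 : s.card ≤ (Finset.univ : Finset (Fin 3)).card := by
    refine Finset.card_le_card_of_injOn (fun v => gridClass n (e v))
      (fun _ _ => Finset.mem_coe.2 (Finset.mem_univ _)) ?_
    intro u hu v hv huv
    by_contra hne
    have := gridClass_adj huv (fun h => hne (e.injective h))
    rw [e.map_adj_iff] at this
    exact hs u hu v hv this
  simpa using h1

end Pool.Agent.Work.MP_84a460_co
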