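import Pool.Agent.Work.MP_84a460_co.Lower

namespace Pool.Agent.Work.MP_84a460_co

/-- Rows with a vertex in `Z` whose marker is outside `Z` are few. -/
theorem rows_few {V : Type} {G : SimpleGraph V} {n N : ℕ} {Z : Set V}
    {τ : V → Fin N} (hτ : IsTypeMap G Z τ) (c : Fin n → Fin n → V) (a : Fin n → V)
    (ha : ∀ x y i, G.Adj (c x y) (a i) ↔ x ≤ i) (X : Finset (Fin n))
    (hX : ∀ x ∈ X, (∃ y, c x y ∈ Z) ∧ a x ∉ Z) : X.card ≤ N := by
  classical
  have hch : ∀ x, ∃ v, x ∈ X → v ∈ Z ∧ ∀ i, (G.Adj v (a i) ↔ x ≤ i) := by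
    intro x
    by_cases hx : x ∈ X
    · obtain ⟨⟨y, hy⟩, _⟩ := hX x hx
      exact ⟨c x y, fun _ => ⟨hy, fun i => ha x y i⟩⟩
    · exact ⟨c x x, fun h => absurd h hx⟩
  choose u hu using hch
  refine card_le_of_distinguished hτ X u (fun x hx => (hu x hx).1) ?_
  intro i hi j hj hij
  refine ⟨a i, (hX i hi).2, ?_⟩
  rw [(hu i hi).2, (hu j hj).2]
  simp only [le_refl, true_iff, not_le]
  exact hij

theorem mixed_rows_few {V : Type} {G : SimpleGraph V} {n N : ℕ} {Z : Set V}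
    (hZ : FewTypes G N Z) (c : Fin n → Fin n → V) (a : Fin n → V)
    (ha : ∀ x y i, G.Adj (c x y) (a i) ↔ x ≤ i) (X : Finset (Fin n))
    (hX : ∀ x ∈ X, (∃ y, c x y ∈ Z) ∧ (∃ y, c x y ∉ Z)) : X.card ≤ 2 * N := by
  classical
  obtain ⟨⟨τ, hτ⟩, ⟨τ', hτ'⟩⟩ := hZ
  have h1 : (X.filter (fun x => a x ∉ Z)).card ≤ N := by
    refine rows_few hτ c a ha _ ?_
    intro x hx
    rw [Finset.mem_filter] at hx
    exact ⟨(hX x hx.1).1, hx.2⟩
  have h2 : (X.filter (fun x => ¬ a x ∉ Z)).card ≤ N := by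
    refine rows_few hτ' c a ha _ ?_
    intro x hx
    rw [Finset.mem_filter] at hx
    refine ⟨(hX x hx.1).2, ?_⟩
    intro h
    exact hx.2 h
  have h3 := Finset.card_filter_add_card_filter_not (s := X) (fun x => a x ∉ Z)
  omega

/-- Transposed version: columns. -/
theorem mixed_cols_few {V : Type} {G : SimpleGraph V} {n N : ℕ} {Z : Set V}
    (hZ : FewTypes G N Z) (c : Fin n → Fin n → V) (b : Fin n → V)
    (hb : ∀ x y j, G.Adj (c x y) (b j) ↔ j ≤ y) (Y : Finset (Fin n))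
    (hY : ∀ y ∈ Y, (∃ x, c x y ∈ Z) ∧ (∃ x, c x y ∉ Z)) : Y.card ≤ 2 * N := by
  classical
  have h := mixed_rows_few (n := n) hZ (fun x y => c y.rev x.rev) (fun i => b i.rev) (by
    intro x y i
    rw [hb]
    exact Fin.rev_le_rev) (Y.image Fin.rev) (by
    intro x hx
    rw [Finset.mem_image] at hx
    obtain ⟨y, hy, rfl⟩ := hx
    obtain ⟨⟨x1, h1⟩, ⟨x2, h2⟩⟩ := hY y hy
    refine ⟨⟨x1.rev, ?_⟩, ⟨x2.rev, ?_⟩⟩
    · simpa using h1
    · simpa using h2)
  rwa [Finset.card_image_of_injective _ Fin.rev_injective] at h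

theorem grid_half {V : Type} [Finite V] {G : SimpleGraph V} {n N s : ℕ} {Z : Set V}
    (hZ : FewTypes G N Z) (c : Fin n → Fin n → V)
    (b : Fin n → V)
    (hb : ∀ x y j, G.Adj (c x y) (b j) ↔ j ≤ y) (hn : n = 3 * s) (hs : s = 2 * N + 1)
    (x0 : Fin n) (hx0 : ∀ y, c x0 y ∈ Z)
    (hcard : 3 * s * s ≤ ({v | ∃ x y, c x y = v} \ Z).ncard) : False := by
  classical
  let Y : Finset (Fin n) := Finset.univ.filter (fun y => ∃ x, c x y ∉ Z)
  have hY : Y.card ≤ 2 * N := by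
    refine mixed_cols_few hZ c b hb Y ?_
    intro y hy
    simp only [Y, Finset.mem_filter, Finset.mem_univ, true_and] at hy
    exact ⟨⟨x0, hx0 y⟩, hy⟩
  have hsub : ({v | ∃ x y, c x y = v} \ Z) ⊆
      ((Finset.univ ×ˢ Y).image (fun p : Fin n × Fin n => c p.1 p.2) : Finset V) := by
    rintro v ⟨⟨x, y, rfl⟩, hv⟩
    rw [Finset.coe_image]
    refine ⟨(x, y), ?_, rfl⟩
    simp only [Finset.coe_product, Set.mem_prod, Finset.mem_coe, Finset.mem_univ, true_and]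
    simp only [Y, Finset.mem_filter, Finset.mem_univ, true_and]
    exact ⟨x, hv⟩
  have h1 := Set.ncard_le_ncard hsub (Set.toFinite _)
  rw [Set.ncard_coe_finset] at h1
  have h2 := Finset.card_image_le (s := Finset.univ ×ˢ Y)
    (f := fun p : Fin n × Fin n => c p.1 p.2)
  rw [Finset.card_product, Finset.card_univ, Fintype.card_fin] at h2
  have h3 : n * Y.card ≤ n * (2 * N) := Nat.mul_le_mul_left _ hY
  have h5 : 3 * s * s ≤ 3 * s * (2 * N) := by
    rw [← hn] at hcard ⊢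
    omega
  have h6 : s ≤ 2 * N := Nat.le_of_mul_le_mul_left h5 (by omega)
  omega

theorem grid_lower {V : Type} [Finite V] {G : SimpleGraph V} {n k : ℕ}
    (c : Fin n → Fin n → V)
    (hc : ∀ x y x' y', c x y = c x' y' → x = x' ∧ y = y') (a b : Fin n → V)
    (ha : ∀ x y i, G.Adj (c x y) (a i) ↔ x ≤ i)
    (hb : ∀ x y j, G.Adj (c x y) (b j) ↔ j ≤ y) (hn : n = 3 * (2 * 2 ^ k + 1)) :
    ¬ CliqueWidthLE G k := by
  classical
  intro hcw
  set N := 2 ^ k with hN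
  set s := 2 * N + 1 with hs
  let S : Set V := {v | ∃ x y, c x y = v}
  have hScard : S.ncard = n * n := by
    have : S = Set.range (fun p : Fin n × Fin n => c p.1 p.2) := by
      ext v
      constructor
      · rintro ⟨x, y, h⟩
        exact ⟨(x, y), h⟩
      · rintro ⟨⟨x, y⟩, h⟩
        exact ⟨x, y, h⟩
    rw [this, ← Set.image_univ, Set.ncard_image_of_injective]
    · rw [Set.ncard_univ, Nat.card_prod, Nat.card_fin]
    · rintro ⟨x, y⟩ ⟨x', y'⟩ h
      obtain ⟨h1, h2⟩ := hc _ _ _ _ h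
      exact Prod.ext h1 h2
  have hnn : n * n = 9 * (s * s) := by rw [hn]; ring
  have hss : 1 ≤ s * s := Nat.mul_pos (by omega) (by omega)
  obtain ⟨Z, hZ, h1, h2⟩ := exists_fewTypes hcw S (M := 3 * (s * s)) (by omega)
    (by rw [hScard, hnn]; omega)
  have hsplit : (S ∩ Z).ncard + (S \ Z).ncard = S.ncard :=
    Set.ncard_inter_add_ncard_sdiff_eq_ncard S Z (Set.toFinite _)
  rw [hScard, hnn] at hsplit
  -- a non-mixed row
  have hrow : ∃ x0 : Fin n, (∀ y, c x0 y ∈ Z) ∨ (∀ y, c x0 y ∉ Z) := by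
    by_contra hcon
    push Not at hcon
    have := mixed_rows_few hZ c a ha Finset.univ (by
      intro x _
      obtain ⟨⟨y1, h3⟩, ⟨y2, h4⟩⟩ := hcon x
      exact ⟨⟨y2, h4⟩, ⟨y1, h3⟩⟩)
    rw [Finset.card_univ, Fintype.card_fin] at this
    omega
  obtain ⟨x0, h3 | h3⟩ := hrow
  · refine grid_half hZ c b hb hn hs x0 h3 ?_
    have : 3 * s * s = 3 * (s * s) := by ring
    rw [this]
    change _ ≤ (S \ Z).ncard
    omega
  · refine grid_half hZ.compl c b hb hn hs x0 h3 ?_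
    have : 3 * s * s = 3 * (s * s) := by ring
    rw [this]
    have h4 : S \ Zᶜ = S ∩ Z := by
      ext v; simp
    change _ ≤ (S \ Zᶜ).ncard
    rw [h4]
    omega

end Pool.Agent.Work.MP_84a460_co
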