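import Pool.Agent.Work.MP_84a460_co.Construct

namespace Pool.Agent.Work.MP_84a460_co

theorem CWExpr.finite_vert {k : ℕ} (e : CWExpr k) : Finite e.Vert := by
  induction e with
  | vertex i => exact inferInstanceAs (Finite Unit)
  | union a b iha ihb => exact @Finite.instSum a.Vert b.Vert iha ihb
  | relabel i j a ih => exact ih
  | join i j a ih => exact ih

/-- Separated sets of a labelled graph. -/
def Sep {k : ℕ} {A : Type} (lab : A → Fin k) (adj : A → A → Prop) (Z : Set A) (τ : A → Fin k) :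
    Prop :=
  ∀ u ∈ Z, ∀ v ∈ Z, τ u = τ v → lab u = lab v ∧ ∀ w ∉ Z, (adj u w ↔ adj v w)

theorem sep_sum {k : ℕ} {A B : Type} [Finite A] [Finite B] (labA : A → Fin k)
    (adjA : A → A → Prop) (labB : B → Fin k) (adjB : B → B → Prop) (M : ℕ)
    (ihA : ∀ S : Set A, 2 * M < S.ncard → ∃ (Z : Set A) (τ : A → Fin k),
      Sep labA adjA Z τ ∧ M < (S ∩ Z).ncard ∧ (S ∩ Z).ncard ≤ 2 * M)
    (ihB : ∀ S : Set B, 2 * M < S.ncard → ∃ (Z : Set B) (τ : B → Fin k),
      Sep labB adjB Z τ ∧ M < (S ∩ Z).ncard ∧ (S ∩ Z).ncard ≤ 2 * M) (S : Set (A ⊕ B))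
    (hS : 2 * M < S.ncard) : ∃ (Z : Set (A ⊕ B)) (τ : A ⊕ B → Fin k),
      Sep (Sum.elim labA labB) (sumAdj adjA adjB) Z τ ∧ M < (S ∩ Z).ncard ∧
      (S ∩ Z).ncard ≤ 2 * M := by
  let Sa : Set A := Sum.inl ⁻¹' S
  let Sb : Set B := Sum.inr ⁻¹' S
  have hcard : S.ncard = Sa.ncard + Sb.ncard := by
    have h1 : S = (Sum.inl '' Sa) ∪ (Sum.inr '' Sb) := by
      ext x
      rcases x with x | x <;> simp [Sa, Sb]
    have h2 : ((Sum.inl '' Sa) ∪ (Sum.inr '' Sb) : Set (A ⊕ B)).ncard =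
        Sa.ncard + Sb.ncard := by
      rw [Set.ncard_union_eq _ (Set.toFinite _) (Set.toFinite _),
        Set.ncard_image_of_injective _ Sum.inl_injective,
        Set.ncard_image_of_injective _ Sum.inr_injective]
      rw [Set.disjoint_left]
      rintro _ ⟨x, _, rfl⟩ ⟨y, _, h⟩
      simp at h
    rw [← h2]
    exact congrArg Set.ncard h1
  rcases Nat.lt_or_ge M Sa.ncard with hA | hA
  · rcases Nat.lt_or_ge (2 * M) Sa.ncard with hA2 | hA2
    · obtain ⟨Z, τ, h1, h2, h3⟩ := ihA Sa hA2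
      have hint : (S ∩ (Sum.inl '' Z)) = Sum.inl '' (Sa ∩ Z) := by
        ext x
        rcases x with x | x <;> simp [Sa]
      have hc : (S ∩ (Sum.inl '' Z)).ncard = (Sa ∩ Z).ncard := by
        rw [hint, Set.ncard_image_of_injective _ Sum.inl_injective]
      refine ⟨Sum.inl '' Z, Sum.elim τ labB, ?_, ?_, ?_⟩
      · rintro _ ⟨u, hu, rfl⟩ _ ⟨v, hv, rfl⟩ huv
        obtain ⟨h4, h5⟩ := h1 u hu v hv huv
        refine ⟨h4, ?_⟩
        rintro (w | w) hw
        · exact h5 w (fun h => hw ⟨w, h, rfl⟩)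
        · exact Iff.rfl
      · rw [hc]; exact h2
      · rw [hc]; exact h3
    · have hc : (S ∩ (Set.range Sum.inl)).ncard = Sa.ncard := by
        rw [← Set.ncard_image_of_injective Sa (Sum.inl_injective (β := B))]
        congr 1
        ext x
        rcases x with x | x <;> simp [Sa]
      refine ⟨Set.range Sum.inl, Sum.elim labA labB, ?_, ?_, ?_⟩
      · rintro _ ⟨u, rfl⟩ _ ⟨v, rfl⟩ huv
        refine ⟨huv, ?_⟩
        rintro (w | w) hw
        · exact absurd ⟨w, rfl⟩ hw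
        · exact Iff.rfl
      · rw [hc]; exact hA
      · rw [hc]; exact hA2
  · rcases Nat.lt_or_ge (2 * M) Sb.ncard with hB2 | hB2
    · obtain ⟨Z, τ, h1, h2, h3⟩ := ihB Sb hB2
      have hint : (S ∩ (Sum.inr '' Z)) = Sum.inr '' (Sb ∩ Z) := by
        ext x
        rcases x with x | x <;> simp [Sb]
      have hc : (S ∩ (Sum.inr '' Z)).ncard = (Sb ∩ Z).ncard := by
        rw [hint, Set.ncard_image_of_injective _ Sum.inr_injective]
      refine ⟨Sum.inr '' Z, Sum.elim labA τ, ?_, ?_, ?_⟩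
      · rintro _ ⟨u, hu, rfl⟩ _ ⟨v, hv, rfl⟩ huv
        obtain ⟨h4, h5⟩ := h1 u hu v hv huv
        refine ⟨h4, ?_⟩
        rintro (w | w) hw
        · exact Iff.rfl
        · exact h5 w (fun h => hw ⟨w, h, rfl⟩)
      · rw [hc]; exact h2
      · rw [hc]; exact h3
    · have hc : (S ∩ (Set.range Sum.inr)).ncard = Sb.ncard := by
        rw [← Set.ncard_image_of_injective Sb (Sum.inr_injective (α := A))]
        congr 1
        ext x
        rcases x with x | x <;> simp [Sb]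
      refine ⟨Set.range Sum.inr, Sum.elim labA labB, ?_, ?_, ?_⟩
      · rintro _ ⟨u, rfl⟩ _ ⟨v, rfl⟩ huv
        refine ⟨huv, ?_⟩
        rintro (w | w) hw
        · exact Iff.rfl
        · exact absurd ⟨w, rfl⟩ hw
      · rw [hc]; omega
      · rw [hc]; exact hB2

theorem exists_sep {k : ℕ} (e : CWExpr k) (M : ℕ) (hM : 1 ≤ M) :
    ∀ S : Set e.Vert, 2 * M < S.ncard → ∃ (Z : Set e.Vert) (τ : e.Vert → Fin k),
      Sep e.label e.Adj Z τ ∧ M < (S ∩ Z).ncard ∧ (S ∩ Z).ncard ≤ 2 * M := by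
  induction e with
  | vertex i =>
    intro S hS
    exfalso
    have h1 : S.ncard ≤ 1 := by
      have : Finite ((CWExpr.vertex i : CWExpr k).Vert) := CWExpr.finite_vert _
      refine (Set.ncard_le_ncard (Set.subset_univ S) (Set.toFinite _)).trans ?_
      rw [Set.ncard_univ]
      exact (Nat.card_unique (α := Unit)).le
    omega
  | union a b iha ihb =>
    intro S hS
    have fa : Finite a.Vert := a.finite_vert
    have fb : Finite b.Vert := b.finite_vert
    obtain ⟨Z, τ, h1, h2⟩ := sep_sum a.label a.Adj b.label b.Adj M iha ihb S hS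
    refine ⟨Z, τ, ?_, h2⟩
    rintro (u | u) hu (v | v) hv huv
    · obtain ⟨h3, h4⟩ := h1 _ hu _ hv huv
      refine ⟨h3, ?_⟩
      rintro (w | w) hw
      · exact h4 _ hw
      · exact Iff.rfl
    · obtain ⟨h3, h4⟩ := h1 _ hu _ hv huv
      refine ⟨h3, ?_⟩
      rintro (w | w) hw
      · exact h4 _ hw
      · exact h4 _ hw
    · obtain ⟨h3, h4⟩ := h1 _ hu _ hv huv
      refine ⟨h3, ?_⟩
      rintro (w | w) hw
      · exact h4 _ hw
      · exact h4 _ hw
    · obtain ⟨h3, h4⟩ := h1 _ hu _ hv huv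
      refine ⟨h3, ?_⟩
      rintro (w | w) hw
      · exact Iff.rfl
      · exact h4 _ hw
  | relabel i j a ih =>
    intro S hS
    obtain ⟨Z, τ, h1, h2, h3⟩ := ih S hS
    refine ⟨Z, τ, ?_, h2, h3⟩
    intro u hu v hv huv
    obtain ⟨h4, h5⟩ := h1 u hu v hv huv
    refine ⟨?_, h5⟩
    change (if a.label u = i then j else a.label u) = (if a.label v = i then j else a.label v)
    rw [h4]
  | join i j a ih =>
    intro S hS
    obtain ⟨Z, τ, h1, h2, h3⟩ := ih S hS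
    refine ⟨Z, τ, ?_, h2, h3⟩
    intro u hu v hv huv
    obtain ⟨h4, h5⟩ := h1 u hu v hv huv
    refine ⟨h4, fun w hw => ?_⟩
    change (a.Adj u w ∨ (i ≠ j ∧ ((a.label u = i ∧ a.label w = j) ∨
      (a.label u = j ∧ a.label w = i)))) ↔ (a.Adj v w ∨ (i ≠ j ∧
      ((a.label v = i ∧ a.label w = j) ∨ (a.label v = j ∧ a.label w = i))))
    rw [h4, h5 w hw]

theorem exists_cut {V : Type} {G : SimpleGraph V} {c : ℕ} (h : CliqueWidthLE G c) (S : Set V)
    {M : ℕ} (hM : 1 ≤ M) (hS : 2 * M < S.ncard) :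
    ∃ (Z : Set V) (τ : V → Fin c), IsTypeMap G Z τ ∧ M < (S ∩ Z).ncard ∧
      (S ∩ Z).ncard ≤ 2 * M := by
  obtain ⟨n, hn, e, φ, hφ⟩ := h
  have hc : (φ ⁻¹' S).ncard = S.ncard := by
    rw [Set.ncard_preimage_of_injective_subset_range φ.injective]
    rw [φ.surjective.range_eq]
    exact Set.subset_univ _
  obtain ⟨Z, τ, h1, h2, h3⟩ := exists_sep e M hM (φ ⁻¹' S) (by rw [hc]; exact hS)
  have hc2 : (S ∩ φ '' Z).ncard = (φ ⁻¹' S ∩ Z).ncard := by
    rw [← Set.ncard_image_of_injective _ φ.injective]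
    congr 1
    ext x
    constructor
    · rintro ⟨hx, y, hy, rfl⟩
      exact ⟨y, ⟨hx, hy⟩, rfl⟩
    · rintro ⟨y, ⟨hy1, hy2⟩, rfl⟩
      exact ⟨hy1, y, hy2, rfl⟩
  refine ⟨φ '' Z, fun v => Fin.castLE hn (τ (φ.symm v)), ?_, ?_, ?_⟩
  · rintro _ ⟨u, hu, rfl⟩ _ ⟨v, hv, rfl⟩ huv w hw
    simp only [Equiv.symm_apply_apply] at huv
    have huv' : τ u = τ v := Fin.castLE_injective hn huv
    obtain ⟨_, h5⟩ := h1 u hu v hv huv'
    have hw' : φ.symm w ∉ Z := fun h => hw ⟨φ.symm w, h, by simp⟩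
    have := h5 _ hw'
    rw [hφ, hφ] at this
    simpa using this
  · rw [hc2]; exact h2
  · rw [hc2]; exact h3

/-- Few types on one side give few types on the other side. -/
theorem IsTypeMap.compl {V : Type} {G : SimpleGraph V} {Z : Set V} {c : ℕ} {τ : V → Fin c}
    (h : IsTypeMap G Z τ) : ∃ τ' : V → Fin (2 ^ c), IsTypeMap G Zᶜ τ' := by
  classical
  have heq : Fintype.card (Finset (Fin c)) = 2 ^ c := by simp
  let e : Finset (Fin c) ≃ Fin (2 ^ c) := Fintype.equivFinOfCardEq heq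
  let σ : V → Finset (Fin c) := fun w =>
    Finset.univ.filter (fun t => ∃ u ∈ Z, τ u = t ∧ G.Adj u w)
  refine ⟨fun w => e (σ w), ?_⟩
  intro u hu v hv huv w hw
  have h1 : σ u = σ v := e.injective huv
  have hwZ : w ∈ Z := by
    by_contra hc
    exact hw hc
  have key : ∀ x ∉ Z, (G.Adj x w ↔ τ w ∈ σ x) := by
    intro x hx
    simp only [σ, Finset.mem_filter, Finset.mem_univ, true_and]
    constructor
    · intro hadj
      exact ⟨w, hwZ, rfl, hadj.symm⟩
    · rintro ⟨y, hy, hty, hadj⟩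
      exact ((h y hy w hwZ hty x hx).1 hadj).symm
  rw [key u hu, key v hv, h1]

/-- Both sides of a cut have at most `N` types. -/
def FewTypes {V : Type} (G : SimpleGraph V) (N : ℕ) (Z : Set V) : Prop :=
  (∃ τ : V → Fin N, IsTypeMap G Z τ) ∧ (∃ τ : V → Fin N, IsTypeMap G Zᶜ τ)

theorem FewTypes.compl {V : Type} {G : SimpleGraph V} {N : ℕ} {Z : Set V}
    (h : FewTypes G N Z) : FewTypes G N Zᶜ := by
  refine ⟨h.2, ?_⟩
  rw [compl_compl]
  exact h.1

theorem exists_fewTypes {V : Type} {G : SimpleGraph V} {c : ℕ} (h : CliqueWidthLE G c)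
    (S : Set V) {M : ℕ} (hM : 1 ≤ M) (hS : 2 * M < S.ncard) :
    ∃ Z : Set V, FewTypes G (2 ^ c) Z ∧ M < (S ∩ Z).ncard ∧ (S ∩ Z).ncard ≤ 2 * M := by
  obtain ⟨Z, τ, h1, h2, h3⟩ := exists_cut h S hM hS
  refine ⟨Z, ⟨⟨fun v => Fin.castLE (Nat.lt_two_pow_self).le (τ v), ?_⟩, h1.compl⟩, h2, h3⟩
  intro u hu v hv huv w hw
  exact h1 u hu v hv (Fin.castLE_injective _ huv) w hw

/-- Pairwise distinguished vertices on one side are few. -/
theorem card_le_of_distinguished {V : Type} {G : SimpleGraph V} {Z : Set V} {N : ℕ}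
    {τ : V → Fin N} (h : IsTypeMap G Z τ) {ι : Type} [LinearOrder ι] (X : Finset ι) (u : ι → V)
    (hu : ∀ i ∈ X, u i ∈ Z)
    (hd : ∀ i ∈ X, ∀ j ∈ X, i < j → ∃ w ∉ Z, ¬ (G.Adj (u i) w ↔ G.Adj (u j) w)) :
    X.card ≤ N := by
  have : X.card ≤ (Finset.univ : Finset (Fin N)).card := by
    refine Finset.card_le_card_of_injOn (fun i => τ (u i)) (fun _ _ => Finset.mem_coe.2
      (Finset.mem_univ _)) ?_
    intro i hi j hj hij
    by_contra hne
    rcases lt_or_gt_of_ne hne with hlt | hlt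
    · obtain ⟨w, hw, hn⟩ := hd i hi j hj hlt
      exact hn (h _ (hu i hi) _ (hu j hj) hij w hw)
    · obtain ⟨w, hw, hn⟩ := hd j hj i hi hlt
      exact hn (h _ (hu j hj) _ (hu i hi) hij.symm w hw)
  simpa using this

end Pool.Agent.Work.MP_84a460_co
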