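import Pool.Agent.Work.MP_84a460_co.Cuts

namespace Pool.Agent.Work.MP_84a460_co

variable {V : Type}

/-- A family which is not covered by few lines contains a long sorted matching. -/
theorem exists_sorted [Fintype V] (l r : V → ℕ) (S : Set V) (n : ℕ)
    (h : ¬ ∃ L R : Finset ℕ, L.card ≤ n ∧ R.card ≤ n ∧ ∀ v ∈ S, l v ∈ L ∨ r v ∈ R) :
    ∃ f : Fin (n + 1) → V, (∀ i, f i ∈ S) ∧ StrictMono (fun i => l (f i)) ∧
      Function.Injective (fun i => r (f i)) := by
  classical
  let Mat : Finset (Finset V) := Finset.univ.filter (fun M => (∀ v ∈ M, v ∈ S) ∧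
    Set.InjOn l (M : Set V) ∧ Set.InjOn r (M : Set V))
  have hne : Mat.Nonempty := ⟨∅, by simp [Mat]⟩
  obtain ⟨M, hM, hmax⟩ := Finset.exists_max_image Mat Finset.card hne
  simp only [Mat, Finset.mem_filter, Finset.mem_univ, true_and] at hM
  obtain ⟨hMS, hMl, hMr⟩ := hM
  have hcard : n + 1 ≤ M.card := by
    by_contra hlt
    push Not at hlt
    apply h
    refine ⟨M.image l, M.image r, Finset.card_image_le.trans (by omega),
      Finset.card_image_le.trans (by omega), fun v hv => ?_⟩
    by_contra hc
    push Not at hc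
    obtain ⟨h1, h2⟩ := hc
    have hvM : v ∉ M := fun h => h1 (Finset.mem_image_of_mem l h)
    have hins : insert v M ∈ Mat := by
      simp only [Mat, Finset.mem_filter, Finset.mem_univ, true_and]
      refine ⟨?_, ?_, ?_⟩
      · intro u hu
        rcases Finset.mem_insert.1 hu with rfl | hu
        · exact hv
        · exact hMS u hu
      · rw [Finset.coe_insert, Set.injOn_insert (by exact_mod_cast hvM)]
        refine ⟨hMl, ?_⟩
        rintro ⟨u, hu, hul⟩
        exact h1 (Finset.mem_image.2 ⟨u, by exact_mod_cast hu, hul⟩)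
      · rw [Finset.coe_insert, Set.injOn_insert (by exact_mod_cast hvM)]
        refine ⟨hMr, ?_⟩
        rintro ⟨u, hu, hul⟩
        exact h2 (Finset.mem_image.2 ⟨u, by exact_mod_cast hu, hul⟩)
    have := hmax _ hins
    rw [Finset.card_insert_of_notMem hvM] at this
    omega
  obtain ⟨M', hM'M, hM'c⟩ := Finset.exists_subset_card_eq hcard
  have hl' : Set.InjOn l (M' : Set V) := hMl.mono (by exact_mod_cast hM'M)
  have hcl : (M'.image l).card = n + 1 := by
    rw [Finset.card_image_of_injOn hl', hM'c]
  let g := (M'.image l).orderEmbOfFin hcl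
  have hg : ∀ i, ∃ v ∈ M', l v = g i := by
    intro i
    have := Finset.orderEmbOfFin_mem (M'.image l) hcl i
    exact Finset.mem_image.1 this
  choose f hf1 hf2 using hg
  refine ⟨f, fun i => hMS _ (hM'M (hf1 i)), ?_, ?_⟩
  · intro i j hij
    simp only [hf2]
    exact g.strictMono hij
  · intro i j hij
    have h1 : f i = f j := hMr (hM'M (hf1 i)) (hM'M (hf1 j)) hij
    have h2 : g i = g j := by rw [← hf2 i, ← hf2 j, h1]
    exact g.injective h2

/-- Representations in which every position is a left end and a right end. -/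
structure FullRep (G : SimpleGraph V) (m : ℕ) (l r : V → ℕ) : Prop extends Rep G m l r where
  exR : ∀ i, 1 ≤ i → i ≤ m → ∃ v, r v = i
  exL : ∀ i, 1 ≤ i → i ≤ m → ∃ v, l v = i

theorem FullRep.reverse {G : SimpleGraph V} {m : ℕ} {l r : V → ℕ} (rep : FullRep G m l r) :
    FullRep G m (fun v => m + 1 - r v) (fun v => m + 1 - l v) where
  one_le v := by
    have := rep.le_m v
    omega
  le v := by
    have := rep.le v
    omega
  le_m v := by
    have := rep.one_le v
    omega
  adj u v := by
    rw [rep.adj]
    have h1 := rep.one_le u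
    have h2 := rep.one_le v
    have h3 := rep.le_m u
    have h4 := rep.le_m v
    have h5 := rep.le u
    have h6 := rep.le v
    constructor
    · rintro ⟨h, h7, h8⟩
      exact ⟨h, by omega, by omega⟩
    · rintro ⟨h, h7, h8⟩
      exact ⟨h, by omega, by omega⟩
  exR i h1 h2 := by
    obtain ⟨v, hv⟩ := rep.exL (m + 1 - i) (by omega) (by omega)
    exact ⟨v, by omega⟩
  exL i h1 h2 := by
    obtain ⟨v, hv⟩ := rep.exR (m + 1 - i) (by omega) (by omega)
    exact ⟨v, by omega⟩

theorem covB_of_reverse {G : SimpleGraph V} {m : ℕ} {l r : V → ℕ} (rep : FullRep G m l r) (y : V)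
    {L R : Finset ℕ}
    (h : CovA (fun v => m + 1 - r v) (fun v => m + 1 - l v) (m + 1 - r y - 1) (m + 1 - l y) L R) :
    CovB l r (l y - 1) (r y) (R.image (fun x => m + 1 - x)) (L.image (fun x => m + 1 - x)) := by
  classical
  intro v h1 h2 h3
  have a1 := rep.one_le v
  have a2 := rep.le_m v
  have a3 := rep.one_le y
  have a4 := rep.le_m y
  rcases h v (by simp only; omega) (by simp only; omega) (by simp only; omega) with h | h
  · right
    exact Finset.mem_image.2 ⟨_, h, by change m + 1 - (m + 1 - r v) = r v; omega⟩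
  · left
    exact Finset.mem_image.2 ⟨_, h, by change m + 1 - (m + 1 - l v) = l v; omega⟩

/-- An induced copy from an interval model. -/
theorem nonempty_emb_of_model {U : Type} {H : SimpleGraph U} {G : SimpleGraph V} {m : ℕ}
    {l r : V → ℕ} (rep : Rep G m l r) (lo hi : U → ℕ)
    (hH : ∀ u v, u ≠ v → (H.Adj u v ↔ lo u ≤ hi v ∧ lo v ≤ hi u)) (φ : U → V)
    (hinj : ∀ u v, u ≠ v → φ u ≠ φ v)
    (hcmp : ∀ u v, u ≠ v → (lo u ≤ hi v ↔ l (φ u) ≤ r (φ v))) : Nonempty (H ↪g G) := by
  refine ⟨⟨⟨φ, fun u v huv => ?_⟩, ?_⟩⟩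
  · by_contra h
    exact hinj u v h huv
  · intro u v
    change G.Adj (φ u) (φ v) ↔ H.Adj u v
    by_cases huv : u = v
    · subst huv
      simp
    · rw [rep.adj, hH u v huv, hcmp u v huv, hcmp v u (Ne.symm huv)]
      simp [hinj u v huv]

/-- Left ends in the model of `graphA`. -/
def loA {t : ℕ} : VA t → ℕ
  | .x _ => 1
  | .z _ => 2
  | .y => 2
  | .a => 1
  | .b => 4

/-- Right ends in the model of `graphA`. -/
def hiA {t : ℕ} : VA t → ℕ
  | .x _ => 3
  | .z _ => 3
  | .y => 4
  | .a => 1
  | .b => 4

theorem modelA {t : ℕ} (u v : VA t) (huv : u ≠ v) :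
    (graphA t).Adj u v ↔ loA u ≤ hiA v ∧ loA v ≤ hiA u := by
  change adjA u v ↔ _
  cases u <;> cases v <;> simp_all [adjA, loA, hiA]

/-- Left ends in a model of `graphB`, with the isolated vertex at `p`. -/
def loB (p : ℕ) {t : ℕ} : VB t → ℕ
  | .x _ => 1
  | .w _ => 1
  | .y => 2
  | .a => 1
  | .b => 3
  | .d => p

/-- Right ends in a model of `graphB`, with the isolated vertex at `p`. -/
def hiB (p : ℕ) {t : ℕ} : VB t → ℕ
  | .x _ => 2
  | .w _ => 3
  | .y => 3
  | .a => 1
  | .b => 3
  | .d => p

theorem modelB0 {t : ℕ} (u v : VB t) (huv : u ≠ v) :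
    (graphB t).Adj u v ↔ loB 0 u ≤ hiB 0 v ∧ loB 0 v ≤ hiB 0 u := by
  change adjB u v ↔ _
  cases u <;> cases v <;> simp_all [adjB, loB, hiB]

theorem modelB5 {t : ℕ} (u v : VB t) (huv : u ≠ v) :
    (graphB t).Adj u v ↔ loB 5 u ≤ hiB 5 v ∧ loB 5 v ≤ hiB 5 u := by
  change adjB u v ↔ _
  cases u <;> cases v <;> simp_all [adjB, loB, hiB]

/-- The vertices of `graphA t` placed in `V`. -/
def mapA {t : ℕ} (X Z : Fin t → V) (y a b : V) : VA t → V
  | .x i => X i
  | .z i => Z i
  | .y => y
  | .a => a
  | .b => b

/-- The vertices of `graphB t` placed in `V`. -/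
def mapB {t : ℕ} (X W : Fin t → V) (y a b d : V) : VB t → V
  | .x i => X i
  | .w i => W i
  | .y => y
  | .a => a
  | .b => b
  | .d => d

theorem covA_of_freeA [Fintype V] {G : SimpleGraph V} {m : ℕ} {l r : V → ℕ}
    (rep : FullRep G m l r) {t : ℕ} (ht : 1 ≤ t) (hfree : IsEmpty (graphA t ↪g G)) (y : V) :
    ∃ L R : Finset ℕ, L.card ≤ 2 * t ∧ R.card ≤ 2 * t + 1 ∧ CovA l r (l y - 1) (r y) L R := by
  classical
  have hy1 := rep.one_le y
  have hym := rep.le_m y
  have hyl := rep.le y
  by_cases hcov : ∃ L R : Finset ℕ, L.card ≤ 2 * t ∧ R.card ≤ 2 * t ∧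
      ∀ v ∈ {v | l v < l y ∧ l y ≤ r v ∧ r v < r y}, l v ∈ L ∨ r v ∈ R
  · obtain ⟨L, R, hL, hR, h⟩ := hcov
    refine ⟨L, insert (r y) R, hL, (Finset.card_insert_le _ _).trans (by omega), ?_⟩
    intro v h1 h2 h3
    by_cases h4 : r v = r y
    · right
      rw [h4]
      exact Finset.mem_insert_self _ _
    · rcases h v ⟨by omega, by omega, by omega⟩ with h | h
      · exact Or.inl h
      · exact Or.inr (Finset.mem_insert_of_mem h)
  · exfalso
    obtain ⟨f, hf1, hf2, hf3⟩ := exists_sorted l r _ _ hcov
    have fl : ∀ i, l (f i) < l y := fun i => (hf1 i).1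
    have fr : ∀ i, l y ≤ r (f i) := fun i => (hf1 i).2.1
    have fr' : ∀ i, r (f i) < r y := fun i => (hf1 i).2.2
    have one : ∀ i, 1 ≤ l (f i) := fun i => rep.one_le _
    have lt_of_lt : ∀ i j : Fin (2 * t + 1), i < j → l (f i) < l (f j) := fun i j h => hf2 h
    have hpos : 1 < l (f ⟨t, by omega⟩) := by
      have := lt_of_lt ⟨0, by omega⟩ ⟨t, by omega⟩ (by simp [Fin.lt_def]; omega)
      have := one ⟨0, by omega⟩
      omega
    have hly := fl ⟨t, by omega⟩
    obtain ⟨a, ha⟩ := rep.exR (l (f ⟨t, by omega⟩) - 1) (by omega) (by omega)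
    obtain ⟨b, hb⟩ := rep.exL (r y) (by omega) hym
    have hla := rep.le a
    have hlb := rep.le b
    let X : Fin t → V := fun i => f ⟨i.val, by omega⟩
    let Z : Fin t → V := fun i => f ⟨t + i.val, by omega⟩
    have X1 : ∀ i, l (X i) ≤ r a := by
      intro i
      have := lt_of_lt ⟨i.val, by omega⟩ ⟨t, by omega⟩ (by simp [Fin.lt_def])
      simp only [X]
      omega
    have Z1 : ∀ i, r a < l (Z i) := by
      intro i
      have : l (f ⟨t, by omega⟩) ≤ l (f ⟨t + i.val, by omega⟩) :=
        hf2.monotone (by simp [Fin.le_def])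
      simp only [Z]
      omega
    have Xf : ∀ i, l (X i) < l y ∧ l y ≤ r (X i) ∧ r (X i) < r y := fun i =>
      ⟨fl _, fr _, fr' _⟩
    have Zf : ∀ i, l (Z i) < l y ∧ l y ≤ r (Z i) ∧ r (Z i) < r y := fun i =>
      ⟨fl _, fr _, fr' _⟩
    have XX : ∀ i j, i ≠ j → X i ≠ X j := by
      intro i j hij h
      have h2 : l (f ⟨i.val, by omega⟩) = l (f ⟨j.val, by omega⟩) := congrArg l h
      have := hf2.injective h2
      simp only [Fin.mk.injEq] at this
      exact hij (Fin.ext this)
    have ZZ : ∀ i j, i ≠ j → Z i ≠ Z j := by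
      intro i j hij h
      have h2 : l (f ⟨t + i.val, by omega⟩) = l (f ⟨t + j.val, by omega⟩) := congrArg l h
      have := hf2.injective h2
      simp only [Fin.mk.injEq] at this
      exact hij (Fin.ext (by omega))
    have neR : ∀ u v : V, r u ≠ r v → u ≠ v := fun u v h h' => h (congrArg r h')
    have neL : ∀ u v : V, l u ≠ l v → u ≠ v := fun u v h h' => h (congrArg l h')
    refine hfree.elim (Nonempty.some (nonempty_emb_of_model rep.toRep loA hiA modelA
      (mapA X Z y a b) ?_ ?_))
    · rintro (i | i | _ | _ | _) (j | j | _ | _ | _) huv <;>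
        simp only [mapA, ne_eq, VA.x.injEq, VA.z.injEq, not_true_eq_false] at huv ⊢
      · exact XX i j huv
      · apply neL
        have := X1 i
        have := Z1 j
        omega
      · apply neL
        have := Xf i
        omega
      · apply neR
        have := Xf i
        omega
      · apply neL
        have := Xf i
        omega
      · apply neL
        have := X1 j
        have := Z1 i
        omega
      · exact ZZ i j huv
      · apply neL
        have := Zf i
        omega
      · apply neR
        have := Zf i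
        omega
      · apply neL
        have := Zf i
        omega
      · apply neL
        have := Xf j
        omega
      · apply neL
        have := Zf j
        omega
      · apply neR
        omega
      · apply neL
        have := Xf ⟨0, ht⟩
        omega
      · apply neR
        have := Xf j
        omega
      · apply neR
        have := Zf j
        omega
      · apply neR
        omega
      · apply neR
        omega
      · apply neL
        have := Xf j
        omega
      · apply neL
        have := Zf j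
        omega
      · apply neL
        have := Xf ⟨0, ht⟩
        omega
      · apply neR
        omega
    · have x0 := Xf ⟨0, ht⟩
      rintro (i | i | _ | _ | _) (j | j | _ | _ | _) huv <;>
        simp only [mapA, loA, hiA] <;>
        first
        | (have q1 := Xf i; have q2 := Xf j; have q3 := X1 i; have q4 := X1 j; omega)
        | (have q1 := Xf i; have q2 := Zf j; have q3 := X1 i; have q4 := Z1 j; omega)
        | (have q1 := Zf i; have q2 := Xf j; have q3 := Z1 i; have q4 := X1 j; omega)
        | (have q1 := Zf i; have q2 := Zf j; have q3 := Z1 i; have q4 := Z1 j; omega)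
        | (have q1 := Xf i; have q3 := X1 i; omega)
        | (have q1 := Zf i; have q3 := Z1 i; omega)
        | (have q1 := Xf j; have q3 := X1 j; omega)
        | (have q1 := Zf j; have q3 := Z1 j; omega)
        | omega

/-- Distinctness and comparison for `graphB`, abstractly. -/
theorem emb_graphB {G : SimpleGraph V} {m : ℕ} {l r : V → ℕ}
    (rep : Rep G m l r) {t : ℕ} (p : ℕ)
    (hp : ∀ u v : VB t, u ≠ v → ((graphB t).Adj u v ↔ loB p u ≤ hiB p v ∧ loB p v ≤ hiB p u))
    (X W : Fin t → V) (y a b d : V)
    (XX : ∀ i j, i ≠ j → X i ≠ X j) (WW : ∀ i j, i ≠ j → W i ≠ W j)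
    (x1 : ∀ i, l (X i) ≤ r a) (w1 : ∀ i, l (W i) ≤ r a)
    (ya : r a < l y) (yx : ∀ i, l y ≤ r (X i)) (yw : ∀ i, l y ≤ r (W i))
    (bx : ∀ i, r (X i) < l b) (bw : ∀ i, l b ≤ r (W i)) (yb : l b ≤ r y) (yb' : l y < l b)
    (hd : (p = 0 ∧ r d < l y ∧ r d < l a ∧ (∀ i, r d < l (X i)) ∧ (∀ i, r d < l (W i))) ∨
      (p = 5 ∧ r b < l d ∧ r y < l d ∧ (∀ i, r (W i) < l d))) :
    Nonempty (graphB t ↪g G) := by
  have neR : ∀ u v : V, r u ≠ r v → u ≠ v := fun u v h h' => h (congrArg r h')
  have neL : ∀ u v : V, l u ≠ l v → u ≠ v := fun u v h h' => h (congrArg l h')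
  have hla := rep.le a
  have hlb := rep.le b
  have hld := rep.le d
  have hly := rep.le y
  have hX : ∀ i, l (X i) ≤ r (X i) := fun i => rep.le _
  have hW : ∀ i, l (W i) ≤ r (W i) := fun i => rep.le _
  refine nonempty_emb_of_model rep (loB p) (hiB p) hp (mapB X W y a b d) ?_ ?_
  · rintro (i | i | _ | _ | _ | _) (j | j | _ | _ | _ | _) huv <;>
      simp only [mapB, ne_eq, VB.x.injEq, VB.w.injEq, not_true_eq_false] at huv ⊢
    -- x
    · exact XX i j huv
    · apply neR
      have := bx i
      have := bw j
      omega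
    · apply neL
      have := x1 i
      omega
    · apply neR
      have := yx i
      omega
    · apply neL
      have := x1 i
      omega
    · rcases hd with h | h
      · apply neL
        have := h.2.2.2.1 i
        omega
      · apply neL
        have := x1 i
        omega
    -- w
    · apply neR
      have := bx j
      have := bw i
      omega
    · exact WW i j huv
    · apply neL
      have := w1 i
      omega
    · apply neR
      have := yw i
      omega
    · apply neL
      have := w1 i
      omega
    · rcases hd with h | h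
      · apply neL
        have := h.2.2.2.2 i
        omega
      · apply neL
        have := w1 i
        omega
    -- y
    · apply neL
      have := x1 j
      omega
    · apply neL
      have := w1 j
      omega
    · apply neL
      omega
    · apply neL
      omega
    · rcases hd with h | h
      · apply neL
        omega
      · apply neL
        omega
    -- a
    · apply neR
      have := yx j
      omega
    · apply neR
      have := yw j
      omega
    · apply neL
      omega
    · apply neR
      omega
    · rcases hd with h | h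
      · apply neL
        omega
      · apply neL
        omega
    -- b
    · apply neL
      have := x1 j
      omega
    · apply neL
      have := w1 j
      omega
    · apply neL
      omega
    · apply neR
      omega
    · rcases hd with h | h
      · apply neL
        omega
      · apply neL
        omega
    -- d
    · rcases hd with h | h
      · apply neL
        have := h.2.2.2.1 j
        omega
      · apply neL
        have := x1 j
        omega
    · rcases hd with h | h
      · apply neL
        have := h.2.2.2.2 j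
        omega
      · apply neL
        have := w1 j
        omega
    · rcases hd with h | h
      · apply neL
        omega
      · apply neL
        omega
    · rcases hd with h | h
      · apply neL
        omega
      · apply neL
        omega
    · rcases hd with h | h
      · apply neL
        omega
      · apply neL
        omega
  · rintro (i | i | _ | _ | _ | _) (j | j | _ | _ | _ | _) huv <;>
      simp only [mapB, loB, hiB, ne_eq, VB.x.injEq, VB.w.injEq, not_true_eq_false] at huv ⊢ <;>
      (try have Xi1 := x1 i) <;> (try have Xi2 := yx i) <;> (try have Xi3 := bx i) <;>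
      (try have Wi1 := w1 i) <;> (try have Wi2 := yw i) <;> (try have Wi3 := bw i) <;>
      (try have Xj1 := x1 j) <;> (try have Xj2 := yx j) <;> (try have Xj3 := bx j) <;>
      (try have Wj1 := w1 j) <;> (try have Wj2 := yw j) <;> (try have Wj3 := bw j) <;>
      (try have Xi4 := hX i) <;> (try have Wi4 := hW i) <;>
      (try have Xj4 := hX j) <;> (try have Wj4 := hW j) <;>
      rcases hd with ⟨h0, h1, h2, h3, h4⟩ | ⟨h0, h1, h2, h3⟩ <;>
      (try have Di := h3 i) <;> (try have Dj := h3 j) <;>
      (try have Di' := h4 i) <;> (try have Dj' := h4 j) <;>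
      omega

theorem covA_of_freeB [Fintype V] {G : SimpleGraph V} {m : ℕ} {l r : V → ℕ}
    (rep : FullRep G m l r) {t : ℕ} (ht : 1 ≤ t) (hfree : IsEmpty (graphB t ↪g G)) (y : V)
    (hy2 : 2 ≤ l y) (hym : r y + 1 ≤ m) :
    ∃ L R : Finset ℕ, L.card ≤ 4 * t + 1 ∧ R.card ≤ 4 * t + 1 ∧
      CovA l r (l y - 1) (r y) L R := by
  classical
  have hyl := rep.le y
  by_cases hcov : ∃ L R : Finset ℕ, L.card ≤ 4 * t ∧ R.card ≤ 4 * t ∧
      ∀ v ∈ {v | l v < l y ∧ l y ≤ r v ∧ r v < r y ∧ 2 ≤ l v}, l v ∈ L ∨ r v ∈ R
  · obtain ⟨L, R, hL, hR, h⟩ := hcov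
    refine ⟨insert 1 L, insert (r y) R, (Finset.card_insert_le _ _).trans (by omega),
      (Finset.card_insert_le _ _).trans (by omega), ?_⟩
    intro v h1 h2 h3
    have hv := rep.one_le v
    by_cases h4 : r v = r y
    · right
      rw [h4]
      exact Finset.mem_insert_self _ _
    · by_cases h5 : l v = 1
      · left
        rw [h5]
        exact Finset.mem_insert_self _ _
      · rcases h v ⟨by omega, by omega, by omega, by omega⟩ with h | h
        · exact Or.inl (Finset.mem_insert_of_mem h)
        · exact Or.inr (Finset.mem_insert_of_mem h)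
  · exfalso
    obtain ⟨f, hf1, hf2, hf3⟩ := exists_sorted l r _ _ hcov
    have fl : ∀ i, l (f i) < l y := fun i => (hf1 i).1
    have fr : ∀ i, l y ≤ r (f i) := fun i => (hf1 i).2.1
    have fr' : ∀ i, r (f i) < r y := fun i => (hf1 i).2.2.1
    have two : ∀ i, 2 ≤ l (f i) := fun i => (hf1 i).2.2.2
    have lt_of_lt : ∀ i j : Fin (4 * t + 1), i < j → l (f i) < l (f j) := fun i j h => hf2 h
    have le_of_le : ∀ i j : Fin (4 * t + 1), i ≤ j → l (f i) ≤ l (f j) :=
      fun i j h => hf2.monotone h
    -- Step 1: right ends in a certain range belong only to vertices with left end 1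
    have step1 : ∀ a : V, l (f ⟨2 * t - 1, by omega⟩) ≤ r a → r a < l y → l a = 1 := by
      intro a ha1 ha2
      by_contra ha3
      have ha4 := rep.one_le a
      have hla := rep.le a
      -- sort the first `2t` vertices by right end
      let f2 : Fin (2 * t) → V := fun i => f ⟨i.val, by omega⟩
      let σ := Tuple.sort (fun i => r (f2 i))
      let g : Fin (2 * t) → V := fun i => f2 (σ i)
      have hinj : Function.Injective (fun i => r (f2 i)) := by
        intro i j hij
        have := hf3 hij
        simp only [Fin.mk.injEq] at this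
        exact Fin.ext this
      have hmono : Monotone (fun i => r (g i)) := Tuple.monotone_sort (fun i => r (f2 i))
      have hinjg : Function.Injective (fun i => r (g i)) := by
        intro i j hij
        exact σ.injective (hinj hij)
      have hstrict : StrictMono (fun i => r (g i)) := hmono.strictMono_of_injective hinjg
      have gl : ∀ i, l (g i) ≤ l (f ⟨2 * t - 1, by omega⟩) := by
        intro i
        apply le_of_le
        simp only [Fin.le_def]
        have := (σ i).2
        omega
      have g1 : ∀ i, l (g i) < l y ∧ l y ≤ r (g i) ∧ r (g i) < r y ∧ 2 ≤ l (g i) := fun i =>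
        ⟨fl _, fr _, fr' _, two _⟩
      obtain ⟨b, hb⟩ := rep.exL (r (g ⟨t, by omega⟩)) (by have := g1 ⟨t, by omega⟩; omega)
        (by have := g1 ⟨t, by omega⟩; omega)
      obtain ⟨d, hd⟩ := rep.exR 1 (by omega) (by omega)
      have g0 := g1 ⟨0, by omega⟩
      have g0t : r (g ⟨0, by omega⟩) < r (g ⟨t, by omega⟩) :=
        hstrict (by simp only [Fin.lt_def]; omega)
      refine hfree.elim (Nonempty.some (emb_graphB rep.toRep 0 modelB0
        (fun i => g ⟨i.val, by omega⟩) (fun i => g ⟨t + i.val, by omega⟩) y a b d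
        ?_ ?_ ?_ ?_ ha2 ?_ ?_ ?_ ?_ ?_ ?_ ?_))
      · intro i j hij h
        have := hinjg (congrArg r h : r (g ⟨i.val, _⟩) = r (g ⟨j.val, _⟩))
        simp only [Fin.mk.injEq] at this
        exact hij (Fin.ext this)
      · intro i j hij h
        have := hinjg (congrArg r h : r (g ⟨t + i.val, _⟩) = r (g ⟨t + j.val, _⟩))
        simp only [Fin.mk.injEq] at this
        exact hij (Fin.ext (by omega))
      · intro i
        exact (gl _).trans ha1
      · intro i
        exact (gl _).trans ha1
      · intro i
        exact (g1 _).2.1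
      · intro i
        exact (g1 _).2.1
      · intro i
        have : r (g ⟨i.val, by omega⟩) < r (g ⟨t, by omega⟩) :=
          hstrict (by simp only [Fin.lt_def]; omega)
        omega
      · intro i
        have : r (g ⟨t, by omega⟩) ≤ r (g ⟨t + i.val, by omega⟩) :=
          hmono (by simp only [Fin.le_def]; omega)
        omega
      · have := g1 ⟨t, by omega⟩
        omega
      · have := g1 ⟨t, by omega⟩
        omega
      · left
        refine ⟨rfl, by omega, by omega, fun i => ?_, fun i => ?_⟩
        · have := g1 ⟨i.val, by omega⟩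
          omega
        · have := g1 ⟨t + i.val, by omega⟩
          omega
    -- Step 2
    have hα : ∀ k : Fin (4 * t + 1), ∃ a : V, r a = l (f k) := fun k =>
      rep.exR (l (f k)) (by have := two k; omega) (by have := fl k; omega)
    choose α hα using hα
    have hα1 : ∀ k : Fin (4 * t + 1), 2 * t - 1 ≤ k.val → l (α k) = 1 := by
      intro k hk
      apply step1
      · rw [hα]
        apply le_of_le
        simp only [Fin.le_def]
        omega
      · rw [hα]
        exact fl k
    obtain ⟨d, hd⟩ := rep.exL m (by omega) le_rfl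
    refine hfree.elim (Nonempty.some (emb_graphB rep.toRep 5 modelB5
        (fun i => α ⟨2 * t + i.val, by omega⟩) (fun i => α ⟨3 * t + i.val, by omega⟩)
        (f ⟨2 * t, by omega⟩) (α ⟨2 * t - 1, by omega⟩) (f ⟨3 * t, by omega⟩) d
        ?_ ?_ ?_ ?_ ?_ ?_ ?_ ?_ ?_ ?_ ?_ ?_))
    · intro i j hij h
      have h2 : l (f ⟨2 * t + i.val, by omega⟩) = l (f ⟨2 * t + j.val, by omega⟩) := by
        rw [← hα, ← hα]
        exact congrArg r h
      have := hf2.injective h2
      simp only [Fin.mk.injEq] at this
      exact hij (Fin.ext (by omega))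
    · intro i j hij h
      have h2 : l (f ⟨3 * t + i.val, by omega⟩) = l (f ⟨3 * t + j.val, by omega⟩) := by
        rw [← hα, ← hα]
        exact congrArg r h
      have := hf2.injective h2
      simp only [Fin.mk.injEq] at this
      exact hij (Fin.ext (by omega))
    · intro i
      rw [hα1 _ (by simp only; omega), hα]
      have := two ⟨2 * t - 1, by omega⟩
      omega
    · intro i
      rw [hα1 _ (by simp only; omega), hα]
      have := two ⟨2 * t - 1, by omega⟩
      omega
    · rw [hα]
      exact lt_of_lt _ _ (by simp only [Fin.lt_def]; omega)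
    · intro i
      rw [hα]
      exact le_of_le _ _ (by simp only [Fin.le_def]; omega)
    · intro i
      rw [hα]
      exact le_of_le _ _ (by simp only [Fin.le_def]; omega)
    · intro i
      rw [hα]
      exact lt_of_lt _ _ (by simp only [Fin.lt_def]; omega)
    · intro i
      rw [hα]
      exact le_of_le _ _ (by simp only [Fin.le_def]; omega)
    · have := fl ⟨3 * t, by omega⟩
      have := fr ⟨2 * t, by omega⟩
      omega
    · exact lt_of_lt _ _ (by simp only [Fin.lt_def]; omega)
    · right
      refine ⟨rfl, ?_, ?_, fun i => ?_⟩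
      · have := fr' ⟨3 * t, by omega⟩
        omega
      · have := fr' ⟨2 * t, by omega⟩
        omega
      · have h1 := hα ⟨3 * t + i.val, by omega⟩
        have h2 := fl ⟨3 * t + i.val, by omega⟩
        omega

/-- A graph which embeds in no part is also free in the reversed representation. -/
theorem good_of_covA [Fintype V] {G : SimpleGraph V} {m : ℕ} {l r : V → ℕ}
    (rep : FullRep G m l r) (κ : ℕ)
    (h : ∀ (l' r' : V → ℕ), FullRep G m l' r' → ∀ y, 2 ≤ l' y → r' y + 1 ≤ m →
      ∃ L R : Finset ℕ, L.card ≤ κ ∧ R.card ≤ κ ∧ CovA l' r' (l' y - 1) (r' y) L R) :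
    ∀ y, 2 ≤ l y → r y + 1 ≤ m → ∃ La Ra Lb Rb : Finset ℕ,
      La.card ≤ κ ∧ Ra.card ≤ κ ∧ Lb.card ≤ κ ∧ Rb.card ≤ κ ∧
      CovA l r (l y - 1) (r y) La Ra ∧ CovB l r (l y - 1) (r y) Lb Rb := by
  classical
  intro y h1 h2
  obtain ⟨La, Ra, c1, c2, hA⟩ := h l r rep y h1 h2
  have a1 := rep.le y
  have a2 := rep.le_m y
  obtain ⟨L, R, c3, c4, hB⟩ := h _ _ rep.reverse y (by omega) (by omega)
  exact ⟨La, Ra, R.image (fun x => m + 1 - x), L.image (fun x => m + 1 - x), c1, c2,
    Finset.card_image_le.trans c4, Finset.card_image_le.trans c3, hA,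
    covB_of_reverse rep y hB⟩

/-- `graphA t`-free interval graphs have bounded clique-width. -/
theorem cw_of_freeA [Fintype V] [Nonempty V] {G : SimpleGraph V} {m : ℕ} {l r : V → ℕ}
    (rep : FullRep G m l r) {t : ℕ} (ht : 1 ≤ t) (hfree : IsEmpty (graphA t ↪g G)) :
    CliqueWidthLE G (2 ^ (9 * KK (2 * t + 1)) + 2 ^ (9 * KK (2 * t + 1)) +
      2 ^ (9 * KK (2 * t + 1))) := by
  refine cliqueWidthLE_of_good rep.toRep (2 * t + 1) (good_of_covA rep _ ?_)
  intro l' r' rep' y _ _
  obtain ⟨L, R, h1, h2, h3⟩ := covA_of_freeA rep' ht hfree y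
  exact ⟨L, R, by omega, h2, h3⟩

/-- `graphB t`-free interval graphs have bounded clique-width. -/
theorem cw_of_freeB [Fintype V] [Nonempty V] {G : SimpleGraph V} {m : ℕ} {l r : V → ℕ}
    (rep : FullRep G m l r) {t : ℕ} (ht : 1 ≤ t) (hfree : IsEmpty (graphB t ↪g G)) :
    CliqueWidthLE G (2 ^ (9 * KK (4 * t + 1)) + 2 ^ (9 * KK (4 * t + 1)) +
      2 ^ (9 * KK (4 * t + 1))) := by
  refine cliqueWidthLE_of_good rep.toRep (4 * t + 1) (good_of_covA rep _ ?_)
  intro l' r' rep' y h1 h2
  exact covA_of_freeB rep' ht hfree y h1 h2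

end Pool.Agent.Work.MP_84a460_co
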