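import Pool.Agent.Work.MP_84a460_co.Construct

namespace Pool.Agent.Work.MP_84a460_co

open Submodule Module

variable {V : Type} [Fintype V] (G : SimpleGraph V)

open Classical in
/-- Row of the adjacency matrix restricted to the columns in `Y`. -/
noncomputable def row (Y : Set V) (u : V) : V → ZMod 2 :=
  fun w => if w ∈ Y ∧ G.Adj u w then 1 else 0

/-- Cut-rank of the submatrix with rows `X` and columns `Y`. -/
noncomputable def rk (X Y : Set V) : ℕ :=
  finrank (ZMod 2) (span (ZMod 2) (row G Y '' X))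

theorem rk_mono_left {X X' : Set V} (h : X ⊆ X') (Y : Set V) : rk G X Y ≤ rk G X' Y :=
  Submodule.finrank_mono (span_mono (Set.image_mono h))

theorem rk_le_ncard (X Y : Set V) : rk G X Y ≤ X.ncard := by
  classical
  have hfin : (row G Y '' X).Finite := Set.toFinite _
  have h1 : finrank (ZMod 2) (span (ZMod 2) (row G Y '' X)) ≤ hfin.toFinset.card := by
    have := finrank_span_finset_le_card (R := ZMod 2) hfin.toFinset
    rw [Set.Finite.coe_toFinset] at this
    exact this
  refine h1.trans ?_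
  rw [← Set.ncard_eq_toFinset_card _ hfin]
  exact Set.ncard_image_le (Set.toFinite _)

/-- The linear map masking coordinates outside `Y`. -/
noncomputable def mask (Y : Set V) : (V → ZMod 2) →ₗ[ZMod 2] (V → ZMod 2) := by
  classical
  exact
  { toFun := fun f w => if w ∈ Y then f w else 0
    map_add' := by
      intro f g; ext w; by_cases h : w ∈ Y <;> simp [h]
    map_smul' := by
      intro c f; ext w; by_cases h : w ∈ Y <;> simp [h] }

omit [Fintype V] in
theorem mask_row {Y Y' : Set V} (h : Y ⊆ Y') (u : V) : mask Y (row G Y' u) = row G Y u := by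
  classical
  ext w
  simp only [mask, row, LinearMap.coe_mk, AddHom.coe_mk]
  by_cases hw : w ∈ Y
  · simp [hw, h hw]
  · simp [hw]

theorem rk_le_of_span_le {X X' Y Y' : Set V} (hY : Y ⊆ Y')
    (hX : ∀ u ∈ X, row G Y' u ∈ span (ZMod 2) (row G Y' '' X')) : rk G X Y ≤ rk G X' Y := by
  refine Submodule.finrank_mono ?_
  rw [span_le]
  rintro _ ⟨u, hu, rfl⟩
  have h1 := hX u hu
  have h2 : mask Y (row G Y' u) ∈ (span (ZMod 2) (row G Y' '' X')).map (mask Y) :=
    Submodule.mem_map_of_mem h1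
  rw [mask_row G hY, Submodule.map_span, ← Set.image_comp] at h2
  have h3 : (mask Y ∘ row G Y') '' X' = row G Y '' X' := by
    refine Set.image_congr (fun a _ => ?_)
    exact mask_row G hY a
  rw [h3] at h2
  exact h2

theorem rk_mono_right (X : Set V) {Y Y' : Set V} (h : Y ⊆ Y') : rk G X Y ≤ rk G X Y' := by
  have h1 : row G Y '' X = mask Y '' (row G Y' '' X) := by
    rw [← Set.image_comp]
    exact Set.image_congr (fun a _ => (mask_row G h a).symm)
  unfold rk
  rw [h1, ← Submodule.map_span]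
  exact Submodule.finrank_map_le _ _

theorem rk_union_left (X X' Y : Set V) : rk G (X ∪ X') Y ≤ rk G X Y + rk G X' Y := by
  unfold rk
  rw [Set.image_union, span_union]
  exact Submodule.finrank_add_le_finrank_add_finrank _ _

theorem rk_union_right (X Y Y' : Set V) : rk G X (Y ∪ Y') ≤ rk G X Y + rk G X Y' := by
  classical
  have h0 : rk G X (Y ∪ Y') ≤ rk G X Y + rk G X (Y' \ Y) := by
    unfold rk
    refine (Submodule.finrank_mono ?_).trans (Submodule.finrank_add_le_finrank_add_finrank _ _)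
    rw [span_le]
    rintro _ ⟨u, hu, rfl⟩
    have : row G (Y ∪ Y') u = row G Y u + row G (Y' \ Y) u := by
      ext w
      simp only [row, Pi.add_apply, Set.mem_union, Set.mem_sdiff]
      by_cases h1 : w ∈ Y <;> by_cases h2 : w ∈ Y' <;> by_cases h3 : G.Adj u w <;>
        simp [h1, h2, h3]
    rw [SetLike.mem_coe, this]
    exact Submodule.add_mem_sup (subset_span ⟨u, hu, rfl⟩) (subset_span ⟨u, hu, rfl⟩)
  exact h0.trans (Nat.add_le_add_left (rk_mono_right G X Set.sdiff_subset) _)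

open Classical in
theorem rk_eq_rank (X Y : Set V) : rk G X Y =
    (Matrix.of (fun u w : V => if u ∈ X ∧ w ∈ Y ∧ G.Adj u w then (1 : ZMod 2) else 0)).rank := by
  rw [Matrix.rank_eq_finrank_span_row]
  unfold rk
  have h : span (ZMod 2) (row G Y '' X) = span (ZMod 2) (Set.range (Matrix.of
      (fun u w : V => if u ∈ X ∧ w ∈ Y ∧ G.Adj u w then (1 : ZMod 2) else 0)).row) := by
    apply le_antisymm
    · rw [span_le]
      rintro _ ⟨u, hu, rfl⟩
      refine subset_span ⟨u, ?_⟩
      ext w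
      simp [row, hu, Matrix.row]
    · rw [span_le]
      rintro _ ⟨u, rfl⟩
      by_cases hu : u ∈ X
      · refine subset_span ⟨u, hu, ?_⟩
        ext w
        simp [row, hu, Matrix.row]
      · have : (Matrix.of
          (fun u w : V => if u ∈ X ∧ w ∈ Y ∧ G.Adj u w then (1 : ZMod 2) else 0)).row u = 0 := by
          ext w
          simp [hu, Matrix.row]
        rw [this]
        exact Submodule.zero_mem _
  rw [h]

theorem rk_comm (X Y : Set V) : rk G X Y = rk G Y X := by
  classical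
  rw [rk_eq_rank, rk_eq_rank, ← Matrix.rank_transpose]
  congr 1
  ext u w
  simp only [Matrix.transpose_apply, Matrix.of_apply]
  by_cases h1 : u ∈ Y <;> by_cases h2 : w ∈ X <;> simp [h1, h2, G.adj_comm]

/-- A bound on the number of distinct types bounds the cut-rank. -/
theorem rk_le_of_typeMap {T : Type} {B : Set V} {τ : V → T} (h : IsTypeMap G B τ)
    (S : Finset T) (hS : ∀ u ∈ B, τ u ∈ S) :
    rk G B Bᶜ ≤ S.card := by
  classical
  let g : T → (V → ZMod 2) := fun t => if h : ∃ u ∈ B, τ u = t then row G Bᶜ h.choose else 0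
  have hg : row G Bᶜ '' B ⊆ (S.image g : Finset (V → ZMod 2)) := by
    rintro _ ⟨u, hu, rfl⟩
    rw [Finset.coe_image]
    refine ⟨τ u, hS u hu, ?_⟩
    have hex : ∃ u' ∈ B, τ u' = τ u := ⟨u, hu, rfl⟩
    have : g (τ u) = row G Bᶜ hex.choose := by simp only [g]; rw [dif_pos hex]
    rw [this]
    obtain ⟨h1, h2⟩ := hex.choose_spec
    ext w
    have := h _ h1 _ hu h2 w
    simp only [row, Set.mem_compl_iff]
    by_cases hw : w ∈ B
    · simp [hw]
    · simp [hw, this hw]
  have h1 : rk G B Bᶜ ≤ finrank (ZMod 2) (span (ZMod 2) ((S.image g : Finset (V → ZMod 2)) :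
      Set (V → ZMod 2))) := Submodule.finrank_mono (span_mono hg)
  exact h1.trans ((finrank_span_finset_le_card (R := ZMod 2) (S.image g)).trans
    Finset.card_image_le)

/-- Small cut-rank gives few types. -/
theorem exists_typeMap_of_rk {B : Set V} {n : ℕ} (h : rk G B Bᶜ ≤ n) :
    ∃ τ : V → Fin (2 ^ n), IsTypeMap G B τ := by
  classical
  let W := span (ZMod 2) (row G Bᶜ '' B)
  have hfin : Fintype W := Fintype.ofFinite W
  have hcard : Fintype.card W ≤ 2 ^ n := by
    rw [Module.card_eq_pow_finrank (K := ZMod 2) (V := W), ZMod.card]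
    exact Nat.pow_le_pow_right (by norm_num) h
  obtain ⟨f⟩ : Nonempty (W ↪ Fin (2 ^ n)) := by
    apply Function.Embedding.nonempty_of_card_le
    simpa using hcard
  refine ⟨fun u => if hu : u ∈ B then f ⟨row G Bᶜ u, subset_span ⟨u, hu, rfl⟩⟩ else
    ⟨0, by positivity⟩, ?_⟩
  intro u hu v hv huv w hw
  simp only [hu, hv, dif_pos] at huv
  have h1 := f.injective huv
  have h2 : row G Bᶜ u = row G Bᶜ v := congrArg Subtype.val h1
  have h3 := congrFun h2 w
  simp only [row, Set.mem_compl_iff, hw, not_false_eq_true, true_and] at h3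
  by_cases h4 : G.Adj u w <;> by_cases h5 : G.Adj v w <;> simp [h4, h5] at h3 ⊢

theorem rk_compl_union (Z Z' : Set V) :
    rk G (Z ∪ Z') (Z ∪ Z')ᶜ ≤ rk G Z Zᶜ + rk G Z' Z'ᶜ := by
  refine (rk_union_left G Z Z' _).trans (Nat.add_le_add ?_ ?_)
  · exact rk_mono_right G Z (Set.compl_subset_compl.2 Set.subset_union_left)
  · exact rk_mono_right G Z' (Set.compl_subset_compl.2 Set.subset_union_right)

/-- Every row space is spanned by few rows. -/
theorem exists_basis (B Y : Set V) : ∃ A ⊆ B, A.ncard ≤ rk G B Y ∧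
    ∀ u ∈ B, row G Y u ∈ span (ZMod 2) (row G Y '' A) := by
  classical
  rcases isEmpty_or_nonempty V with hV | hV
  · exact ⟨∅, Set.empty_subset _, by simp, fun u => (hV.false u).elim⟩
  obtain ⟨b, hb, hspan, hli⟩ := exists_linearIndependent (ZMod 2) (row G Y '' B)
  have hsec : ∀ x ∈ b, ∃ u ∈ B, row G Y u = x := fun x hx => hb hx
  choose! f hf1 hf2 using hsec
  refine ⟨f '' b, ?_, ?_, ?_⟩
  · rintro _ ⟨x, hx, rfl⟩
    exact hf1 x hx
  · have h1 : (f '' b).ncard ≤ b.ncard := Set.ncard_image_le (Set.toFinite _)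
    refine h1.trans ?_
    unfold rk
    rw [← hspan, finrank_span_set_eq_card hli, ← Set.ncard_eq_toFinset_card']
  · intro u hu
    have h2 : row G Y '' (f '' b) = b := by
      rw [← Set.image_comp]
      ext x
      constructor
      · rintro ⟨y, hy, rfl⟩
        simp only [Function.comp_apply, hf2 y hy]
        exact hy
      · intro hx
        exact ⟨x, hx, hf2 x hx⟩
    rw [h2, hspan]
    exact subset_span ⟨u, hu, rfl⟩

/-- Balanced cuts of low cut-rank for all vertex subsets of size `9 K` give a decomposition. -/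
theorem decomp_of_balanced {K : ℕ} (hK : 1 ≤ K)
    (hbal : ∀ A : Set V, A.ncard = 9 * K → ∃ Z : Set V, rk G Z Zᶜ ≤ K ∧
      3 * K ≤ (A ∩ Z).ncard ∧ (A ∩ Z).ncard ≤ 6 * K) :
    ∀ (n : ℕ) (B : Set V), B.ncard = n → B.Nonempty → rk G B Bᶜ ≤ 9 * K →
      Decomp G (2 ^ (9 * K)) B := by
  classical
  intro n
  induction n using Nat.strong_induction_on with
  | _ n ih =>
    intro B hBn hne hrk
    have hfinB : B.Finite := Set.toFinite _
    by_cases h1 : n = 1
    · rw [h1, Set.ncard_eq_one] at hBn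
      obtain ⟨v, rfl⟩ := hBn
      exact Decomp.single v
    have hn0 : n ≠ 0 := by
      rw [← hBn]
      exact (Set.ncard_pos).2 hne |>.ne'
    -- it suffices to find a set cutting `B` into nonempty parts of small cut-rank
    have main : ∀ Z : Set V, (B ∩ Z).Nonempty → (B \ Z).Nonempty →
        rk G (B ∩ Z) (B ∩ Z)ᶜ ≤ 9 * K → rk G (B \ Z) (B \ Z)ᶜ ≤ 9 * K →
        Decomp G (2 ^ (9 * K)) B := by
      intro Z hz1 hz2 hr1 hr2
      have hcard : (B ∩ Z).ncard + (B \ Z).ncard = n := by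
        rw [← hBn]
        exact Set.ncard_inter_add_ncard_sdiff_eq_ncard B Z hfinB
      have hp1 := (Set.ncard_pos (Set.toFinite _)).2 hz1
      have hp2 := (Set.ncard_pos (Set.toFinite _)).2 hz2
      have d1 := ih (B ∩ Z).ncard (by omega) (B ∩ Z) rfl hz1 hr1
      have d2 := ih (B \ Z).ncard (by omega) (B \ Z) rfl hz2 hr2
      have hU : (B ∩ Z) ∪ (B \ Z) = B := Set.inter_union_sdiff B Z
      have := Decomp.union (B ∩ Z) (B \ Z) (Set.disjoint_sdiff_inter.symm) d1 d2
        (by rw [hU]; exact exists_typeMap_of_rk G hrk)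
      rwa [hU] at this
    by_cases h2 : n ≤ 9 * K
    · obtain ⟨v, hv⟩ := hne
      refine main {v} ⟨v, hv, rfl⟩ ?_ ?_ ?_
      · by_contra hc
        rw [Set.not_nonempty_iff_eq_empty, Set.sdiff_eq_empty] at hc
        have : B.ncard ≤ 1 := (Set.ncard_le_ncard hc (Set.toFinite _)).trans (by simp)
        omega
      · refine (rk_le_ncard G _ _).trans ?_
        have : (B ∩ {v}).ncard ≤ B.ncard := Set.ncard_le_ncard Set.inter_subset_left hfinB
        omega
      · refine (rk_le_ncard G _ _).trans ?_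
        have : (B \ {v}).ncard ≤ B.ncard := Set.ncard_le_ncard Set.sdiff_subset hfinB
        omega
    · obtain ⟨A0, hA0B, hA0c, hA0s⟩ := exists_basis G B Bᶜ
      obtain ⟨A, hA1, hA2, hA3⟩ := Set.exists_subsuperset_card_eq hA0B
        (hA0c.trans hrk) (by omega : 9 * K ≤ B.ncard)
      obtain ⟨Z, hZ, hZ3, hZ6⟩ := hbal A hA3
      have hAs : ∀ u ∈ B, row G Bᶜ u ∈ span (ZMod 2) (row G Bᶜ '' A) := by
        intro u hu
        exact span_mono (Set.image_mono hA1) (hA0s u hu)
      have hsplit : (A ∩ Z).ncard + (A \ Z).ncard = 9 * K := by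
        rw [← hA3]
        exact Set.ncard_inter_add_ncard_sdiff_eq_ncard A Z (Set.toFinite _)
      have hZ' : rk G Zᶜ Z ≤ K := by rw [rk_comm]; exact hZ
      refine main Z ?_ ?_ ?_ ?_
      · have : (A ∩ Z).Nonempty := by
          apply (Set.ncard_pos (Set.toFinite _)).1
          omega
        exact this.mono (Set.inter_subset_inter_left _ hA2)
      · have : (A \ Z).Nonempty := by
          apply (Set.ncard_pos (Set.toFinite _)).1
          omega
        exact this.mono (Set.sdiff_subset_sdiff_left hA2)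
      · -- rank of `B ∩ Z`
        have e0 : (B ∩ Z)ᶜ ⊆ ((Bᶜ ∩ Z) ∪ Zᶜ) := by
          intro w hw
          by_cases h : w ∈ Z
          · exact Or.inl ⟨fun hb => hw ⟨hb, h⟩, h⟩
          · exact Or.inr h
        have e1 : rk G (B ∩ Z) (B ∩ Z)ᶜ ≤ rk G (B ∩ Z) (Bᶜ ∩ Z) + rk G (B ∩ Z) Zᶜ :=
          (rk_mono_right G _ e0).trans (rk_union_right G _ _ _)
        have e2 : rk G (B ∩ Z) Zᶜ ≤ K :=
          (rk_mono_left G Set.inter_subset_right _).trans hZ
        have e3 : rk G (B ∩ Z) (Bᶜ ∩ Z) ≤ rk G A (Bᶜ ∩ Z) :=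
          rk_le_of_span_le G Set.inter_subset_left (fun u hu => hAs u hu.1)
        have e4 : rk G A (Bᶜ ∩ Z) ≤ rk G (A ∩ Z) (Bᶜ ∩ Z) + rk G (A \ Z) (Bᶜ ∩ Z) := by
          have := rk_union_left G (A ∩ Z) (A \ Z) (Bᶜ ∩ Z)
          rwa [Set.inter_union_sdiff] at this
        have e5 : rk G (A ∩ Z) (Bᶜ ∩ Z) ≤ (A ∩ Z).ncard := rk_le_ncard G _ _
        have e6 : rk G (A \ Z) (Bᶜ ∩ Z) ≤ K := by
          refine le_trans ?_ hZ'
          refine (rk_mono_left G (?_ : A \ Z ⊆ Zᶜ) _).trans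
            (rk_mono_right G _ Set.inter_subset_right)
          intro w hw
          exact hw.2
        omega
      · have e0 : (B \ Z)ᶜ ⊆ ((Bᶜ ∩ Zᶜ) ∪ Z) := by
          intro w hw
          by_cases h : w ∈ Z
          · exact Or.inr h
          · exact Or.inl ⟨fun hb => hw ⟨hb, h⟩, h⟩
        have e1 : rk G (B \ Z) (B \ Z)ᶜ ≤ rk G (B \ Z) (Bᶜ ∩ Zᶜ) + rk G (B \ Z) Z :=
          (rk_mono_right G _ e0).trans (rk_union_right G _ _ _)
        have e2 : rk G (B \ Z) Z ≤ K :=
          (rk_mono_left G (fun w hw => hw.2) _).trans hZ'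
        have e3 : rk G (B \ Z) (Bᶜ ∩ Zᶜ) ≤ rk G A (Bᶜ ∩ Zᶜ) :=
          rk_le_of_span_le G Set.inter_subset_left (fun u hu => hAs u hu.1)
        have e4 : rk G A (Bᶜ ∩ Zᶜ) ≤ rk G (A ∩ Z) (Bᶜ ∩ Zᶜ) + rk G (A \ Z) (Bᶜ ∩ Zᶜ) := by
          have := rk_union_left G (A ∩ Z) (A \ Z) (Bᶜ ∩ Zᶜ)
          rwa [Set.inter_union_sdiff] at this
        have e5 : rk G (A \ Z) (Bᶜ ∩ Zᶜ) ≤ (A \ Z).ncard := rk_le_ncard G _ _
        have e6 : rk G (A ∩ Z) (Bᶜ ∩ Zᶜ) ≤ K := by
          refine le_trans ?_ hZ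
          exact (rk_mono_left G Set.inter_subset_right _).trans
            (rk_mono_right G _ Set.inter_subset_right)
        omega

/-- Balanced cuts of low cut-rank bound the clique-width. -/
theorem cliqueWidthLE_of_balanced [Nonempty V] {K : ℕ} (hK : 1 ≤ K)
    (hbal : ∀ A : Set V, A.ncard = 9 * K → ∃ Z : Set V, rk G Z Zᶜ ≤ K ∧
      3 * K ≤ (A ∩ Z).ncard ∧ (A ∩ Z).ncard ≤ 6 * K) :
    CliqueWidthLE G (2 ^ (9 * K) + 2 ^ (9 * K) + 2 ^ (9 * K)) := by
  have : NeZero (2 ^ (9 * K)) := ⟨by positivity⟩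
  apply Decomp.cliqueWidthLE
  refine decomp_of_balanced G hK hbal _ Set.univ rfl Set.univ_nonempty ?_
  have h1 : rk G Set.univ (Set.univ)ᶜ = rk G (Set.univ)ᶜ Set.univ := rk_comm G _ _
  rw [h1]
  refine (rk_le_ncard G _ _).trans ?_
  simp

end Pool.Agent.Work.MP_84a460_co
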