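import Pool.Agent.Work.MP_84a460_co.Patterns

namespace Pool.Agent.Work.MP_84a460_co

variable {V : Type}

theorem icc_inter_nonempty {a b c d : ℝ} (h : a ≤ b) (h' : c ≤ d) :
    (Set.Icc a b ∩ Set.Icc c d).Nonempty ↔ a ≤ d ∧ c ≤ b := by
  rw [Set.Icc_inter_Icc, Set.nonempty_Icc, sup_le_iff, le_inf_iff, le_inf_iff]
  tauto

theorem exists_rep [Fintype V] {G : SimpleGraph V} (h : IsIntervalGraph G) :
    ∃ m l r, Rep G m l r := by
  classical
  obtain ⟨a, b, hab, hadj⟩ := h
  let B : Finset ℝ := Finset.univ.image b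
  have hB : ∀ v, b v ∈ B := fun v => Finset.mem_image_of_mem b (Finset.mem_univ v)
  let cnt : ℝ → ℕ := fun x => (B.filter (fun y => y < x)).card
  have hmono : ∀ x y, x ≤ y → cnt x ≤ cnt y := by
    intro x y hxy
    apply Finset.card_le_card
    intro z hz
    rw [Finset.mem_filter] at hz ⊢
    exact ⟨hz.1, lt_of_lt_of_le hz.2 hxy⟩
  have hcmp : ∀ x v, x ≤ b v ↔ cnt x ≤ cnt (b v) := by
    intro x v
    constructor
    · exact hmono x (b v)
    · intro h
      by_contra hc
      push Not at hc
      have : cnt (b v) < cnt x := by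
        apply Finset.card_lt_card
        rw [Finset.ssubset_iff_of_subset]
        · refine ⟨b v, ?_, ?_⟩
          · rw [Finset.mem_filter]; exact ⟨hB v, hc⟩
          · rw [Finset.mem_filter]
            rintro ⟨_, h2⟩
            exact lt_irrefl _ h2
        · intro z hz
          rw [Finset.mem_filter] at hz ⊢
          exact ⟨hz.1, hz.2.trans hc⟩
      omega
  refine ⟨B.card, fun v => cnt (a v) + 1, fun v => cnt (b v) + 1, ?_, ?_, ?_, ?_⟩
  · intro v; omega
  · intro v
    have := hmono _ _ (hab v)
    omega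
  · intro v
    have : (B.filter (fun y => y < b v)).card < B.card := by
      apply Finset.card_lt_card
      rw [Finset.ssubset_iff_of_subset (Finset.filter_subset _ _)]
      refine ⟨b v, hB v, ?_⟩
      rw [Finset.mem_filter]
      rintro ⟨_, h2⟩
      exact lt_irrefl _ h2
    exact this
  · intro u v
    rw [hadj, icc_inter_nonempty (hab u) (hab v), hcmp (a u) v, hcmp (a v) u]
    constructor
    · rintro ⟨h1, h2, h3⟩
      exact ⟨h1, by omega, by omega⟩
    · rintro ⟨h1, h2, h3⟩
      exact ⟨h1, by omega, by omega⟩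

theorem exists_fullRep [Fintype V] {G : SimpleGraph V} (h : IsIntervalGraph G) :
    ∃ m l r, FullRep G m l r := by
  classical
  have hex : ∃ m, ∃ l r, Rep G m l r := exists_rep h
  obtain ⟨l, r, rep⟩ := Nat.find_spec hex
  set m := Nat.find hex with hm
  have hmin : ∀ m' < m, ¬ ∃ l r, Rep G m' l r := fun m' h => Nat.find_min hex h
  refine ⟨m, l, r, rep, ?_, ?_⟩
  · intro i h1 h2
    by_contra hc
    push Not at hc
    apply hmin (m - 1) (by omega)
    refine ⟨fun v => if l v ≤ i then l v else l v - 1, fun v => if r v ≤ i then r v else r v - 1,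
      ?_, ?_, ?_, ?_⟩
    · intro v
      have := rep.one_le v
      split_ifs <;> omega
    · intro v
      have := rep.le v
      split_ifs <;> omega
    · intro v
      have := rep.le_m v
      have := hc v
      split_ifs <;> omega
    · intro u v
      rw [rep.adj]
      have := hc v
      have := hc u
      constructor
      · rintro ⟨h3, h4, h5⟩
        refine ⟨h3, ?_, ?_⟩ <;> split_ifs <;> omega
      · rintro ⟨h3, h4, h5⟩
        refine ⟨h3, ?_, ?_⟩
        · split_ifs at h4 <;> omega
        · split_ifs at h5 <;> omega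
  · intro i h1 h2
    by_contra hc
    push Not at hc
    apply hmin (m - 1) (by omega)
    refine ⟨fun v => if l v < i then l v else l v - 1, fun v => if r v < i then r v else r v - 1,
      ?_, ?_, ?_, ?_⟩
    · intro v
      have := rep.one_le v
      have := hc v
      split_ifs <;> omega
    · intro v
      have := rep.le v
      have := hc v
      split_ifs <;> omega
    · intro v
      have := rep.le_m v
      split_ifs <;> omega
    · intro u v
      rw [rep.adj]
      have := hc v
      have := hc u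
      constructor
      · rintro ⟨h3, h4, h5⟩
        refine ⟨h3, ?_, ?_⟩ <;> split_ifs <;> omega
      · rintro ⟨h3, h4, h5⟩
        refine ⟨h3, ?_, ?_⟩
        · split_ifs at h4 <;> omega
        · split_ifs at h5 <;> omega

/-- Upper bound, family `A`. -/
theorem bounded_graphA {t : ℕ} (ht : 1 ≤ t) : BoundedOnHFreeInterval (graphA t) := by
  refine ⟨2 ^ (9 * KK (2 * t + 1)) + 2 ^ (9 * KK (2 * t + 1)) + 2 ^ (9 * KK (2 * t + 1)),
    fun V _ _ G hG hfree => ?_⟩
  have : Fintype V := Fintype.ofFinite V
  obtain ⟨m, l, r, rep⟩ := exists_fullRep hG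
  exact cw_of_freeA rep ht hfree

/-- Upper bound, family `B`. -/
theorem bounded_graphB {t : ℕ} (ht : 1 ≤ t) : BoundedOnHFreeInterval (graphB t) := by
  refine ⟨2 ^ (9 * KK (4 * t + 1)) + 2 ^ (9 * KK (4 * t + 1)) + 2 ^ (9 * KK (4 * t + 1)),
    fun V _ _ G hG hfree => ?_⟩
  have : Fintype V := Fintype.ofFinite V
  obtain ⟨m, l, r, rep⟩ := exists_fullRep hG
  exact cw_of_freeB rep ht hfree

theorem BoundedOnHFreeInterval.mono {W W' : Type} {H : SimpleGraph W} {H' : SimpleGraph W'}
    (h : BoundedOnHFreeInterval H') (e : H ↪g H') : BoundedOnHFreeInterval H := by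
  obtain ⟨c, hc⟩ := h
  refine ⟨c, fun V _ _ G hG hfree => hc V G hG ?_⟩
  exact ⟨fun f => hfree.false (f.comp e)⟩

/-- `graphA t` is an induced subgraph of `graphA (t + 1)`. -/
theorem graphA_succ (t : ℕ) : Nonempty (graphA t ↪g graphA (t + 1)) := by
  let φ : VA t → VA (t + 1) := fun v => match v with
    | .x i => .x i.castSucc
    | .z i => .z i.castSucc
    | .y => .y
    | .a => .a
    | .b => .b
  refine ⟨⟨⟨φ, ?_⟩, ?_⟩⟩
  · intro u v h
    cases u <;> cases v <;> simp_all [φ]
  · intro u v
    change adjA (φ u) (φ v) ↔ adjA u v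
    cases u <;> cases v <;> simp [adjA, φ]

/-- `graphB t` is an induced subgraph of `graphB (t + 1)`. -/
theorem graphB_succ (t : ℕ) : Nonempty (graphB t ↪g graphB (t + 1)) := by
  let φ : VB t → VB (t + 1) := fun v => match v with
    | .x i => .x i.castSucc
    | .w i => .w i.castSucc
    | .y => .y
    | .a => .a
    | .b => .b
    | .d => .d
  refine ⟨⟨⟨φ, ?_⟩, ?_⟩⟩
  · intro u v h
    cases u <;> cases v <;> simp_all [φ]
  · intro u v
    change adjB (φ u) (φ v) ↔ adjB u v
    cases u <;> cases v <;> simp [adjB, φ]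

/-- The upper bound: all listed graphs give bounded clique-width. -/
theorem bounded_of_emb {W : Type} {H : SimpleGraph W}
    (h : ∃ t, Nonempty (H ↪g graphA t) ∨ Nonempty (H ↪g graphB t)) :
    BoundedOnHFreeInterval H := by
  obtain ⟨t, h | h⟩ := h
  · obtain ⟨e⟩ := h
    obtain ⟨e'⟩ := graphA_succ t
    exact (bounded_graphA (t := t + 1) (by omega)).mono (e'.comp e)
  · obtain ⟨e⟩ := h
    obtain ⟨e'⟩ := graphB_succ t
    exact (bounded_graphB (t := t + 1) (by omega)).mono (e'.comp e)

end Pool.Agent.Work.MP_84a460_co
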