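import Pool.Agent.Work.MP_84a460_co.Families

namespace Pool.Agent.Work.MP_84a460_co

/-- Left end of the tile `z` of level `i`. -/
def tlo (i z : ℕ) : ℤ := 2 ^ i * (2 * z - 1)

/-- Right end of the tile `z` of level `i`. -/
def thi (i z : ℕ) : ℤ := 2 ^ i * (2 * z + 1) - 1

/-- The interval graph of the tiles of levels below `K` and indices below `R`. -/
def tiles (K R : ℕ) : SimpleGraph (Fin K × Fin R) :=
  intGraph (fun v => tlo v.1.val v.2.val) (fun v => thi v.1.val v.2.val)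

theorem two_pow_pos' (i : ℕ) : (0 : ℤ) < 2 ^ i := by positivity

theorem tlo_le_thi (i z : ℕ) : tlo i z ≤ thi i z := by
  have := two_pow_pos' i
  simp only [tlo, thi]
  have h : (2 : ℤ) ^ i * (2 * z + 1) = 2 ^ i * (2 * z - 1) + 2 * 2 ^ i := by ring
  omega

theorem tile_same {i z z' : ℕ} (h1 : tlo i z ≤ thi i z') : z ≤ z' := by
  simp only [tlo, thi] at h1
  have h2 : (2 : ℤ) ^ i * (2 * z - 1) < 2 ^ i * (2 * z' + 1) := by omega
  have h3 := lt_of_mul_lt_mul_left h2 (two_pow_pos' i).le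
  omega

theorem tiles_adj {K R : ℕ} {u v : Fin K × Fin R} : (tiles K R).Adj u v ↔ u ≠ v ∧
    tlo u.1.val u.2.val ≤ thi v.1.val v.2.val ∧ tlo v.1.val v.2.val ≤ thi u.1.val u.2.val :=
  Iff.rfl

theorem tiles_same_level {K R : ℕ} {u v : Fin K × Fin R} (h : u.1 = v.1) :
    ¬ (tiles K R).Adj u v := by
  rintro ⟨h0, h1, h2⟩
  apply h0
  obtain ⟨i, z⟩ := u
  obtain ⟨i', z'⟩ := v
  simp only at h h1 h2
  subst h
  have := le_antisymm (tile_same h1) (tile_same h2)
  rw [Fin.ext this]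

theorem pow_odd_inj {i j : ℕ} {a b : ℤ} (h : (2 : ℤ) ^ i * (2 * a + 1) = 2 ^ j * (2 * b + 1)) :
    i = j ∧ a = b := by
  have key : ∀ {i j : ℕ} {a b : ℤ}, (2 : ℤ) ^ i * (2 * a + 1) = 2 ^ j * (2 * b + 1) →
      ¬ i < j := by
    intro i j a b h hlt
    obtain ⟨d, rfl⟩ : ∃ d, j = i + (d + 1) := ⟨j - i - 1, by omega⟩
    rw [pow_add, mul_assoc] at h
    have h2 := mul_left_cancel₀ (two_pow_pos' i).ne' h
    rw [pow_succ] at h2
    have h3 : (2 : ℤ) ^ d * 2 * (2 * b + 1) = 2 * (2 ^ d * (2 * b + 1)) := by ring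
    omega
  have h1 := key h
  have h2 := key h.symm
  have h3 : i = j := by omega
  subst h3
  have h4 := mul_left_cancel₀ (two_pow_pos' i).ne' h
  exact ⟨rfl, by omega⟩

/-- A boundary of a higher tile inside a tile is its centre. -/
theorem centre_eq {i j : ℕ} (hij : i < j) {z : ℕ} {b : ℤ}
    (h1 : tlo i z < 2 ^ j * (2 * b + 1)) (h2 : (2 : ℤ) ^ j * (2 * b + 1) ≤ thi i z) :
    (2 : ℤ) ^ j * (2 * b + 1) = 2 ^ i * (2 * z) := by
  obtain ⟨d, rfl⟩ : ∃ d, j = i + (d + 1) := ⟨j - i - 1, by omega⟩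
  simp only [tlo, thi] at h1 h2
  have h3 : (2 : ℤ) ^ (i + (d + 1)) * (2 * b + 1) = 2 ^ i * (2 * (2 ^ d * (2 * b + 1))) := by
    rw [pow_add, pow_succ]; ring
  rw [h3] at h1 h2 ⊢
  have h4 : (2 : ℤ) ^ i * (2 * (2 ^ d * (2 * b + 1))) < 2 ^ i * (2 * z + 1) := by omega
  have h5 := lt_of_mul_lt_mul_left h1 (two_pow_pos' i).le
  have h6 := lt_of_mul_lt_mul_left h4 (two_pow_pos' i).le
  have h7 : (2 : ℤ) ^ d * (2 * b + 1) = z := by omega
  rw [h7]

/-- The crossing relation of two tiles. -/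
def TCross {K R : ℕ} (u v : Fin K × Fin R) : Prop :=
  tlo u.1.val u.2.val < tlo v.1.val v.2.val ∧ tlo v.1.val v.2.val ≤ thi u.1.val u.2.val ∧
    thi u.1.val u.2.val < thi v.1.val v.2.val

theorem low_left {K R : ℕ} {x y y' : Fin K × Fin R} (h1 : TCross x y) (h2 : TCross x y')
    (h3 : x.1 < y.1) (h4 : x.1 < y'.1) : y = y' := by
  obtain ⟨a1, a2, a3⟩ := h1
  obtain ⟨b1, b2, b3⟩ := h2
  have e1 : tlo y.1.val y.2.val = 2 ^ y.1.val * (2 * ((y.2.val : ℤ) - 1) + 1) := by
    simp only [tlo]; ring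
  have e2 : tlo y'.1.val y'.2.val = 2 ^ y'.1.val * (2 * ((y'.2.val : ℤ) - 1) + 1) := by
    simp only [tlo]; ring
  rw [e1] at a1 a2
  rw [e2] at b1 b2
  have h5 := centre_eq h3 a1 a2
  have h6 := centre_eq h4 b1 b2
  obtain ⟨h7, h8⟩ := pow_odd_inj (h5.trans h6.symm)
  exact Prod.ext (Fin.ext h7) (Fin.ext (by omega))

theorem low_right {K R : ℕ} {x x' y : Fin K × Fin R} (h1 : TCross x y) (h2 : TCross x' y)
    (h3 : y.1 < x.1) (h4 : y.1 < x'.1) : x = x' := by
  obtain ⟨a1, a2, a3⟩ := h1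
  obtain ⟨b1, b2, b3⟩ := h2
  have e1 : thi x.1.val x.2.val = 2 ^ x.1.val * (2 * (x.2.val : ℤ) + 1) - 1 := by
    simp only [thi]
  have e2 : thi x'.1.val x'.2.val = 2 ^ x'.1.val * (2 * (x'.2.val : ℤ) + 1) - 1 := by
    simp only [thi]
  rw [e1] at a2 a3
  rw [e2] at b2 b3
  have h5 := centre_eq h3 (z := y.2.val) (b := (x.2.val : ℤ)) (by omega) (by omega)
  have h6 := centre_eq h4 (z := y.2.val) (b := (x'.2.val : ℤ)) (by omega) (by omega)
  obtain ⟨h7, h8⟩ := pow_odd_inj (h5.trans h6.symm)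
  exact Prod.ext (Fin.ext h7) (Fin.ext (by omega))

theorem no_cross {K R : ℕ} {x x' y y' : Fin K × Fin R} (hx : x ≠ x') (hy : y ≠ y')
    (h1 : TCross x y) (h2 : TCross x y') (h3 : TCross x' y) (h4 : TCross x' y')
    (l1 : x.1 ≠ y.1) (l2 : x.1 ≠ y'.1) (l3 : x'.1 ≠ y.1) (l4 : x'.1 ≠ y'.1) : False := by
  have k1 : ¬ (x.1 < y.1 ∧ x.1 < y'.1) := fun h => hy (low_left h1 h2 h.1 h.2)
  have k2 : ¬ (x'.1 < y.1 ∧ x'.1 < y'.1) := fun h => hy (low_left h3 h4 h.1 h.2)
  have k3 : ¬ (y.1 < x.1 ∧ y.1 < x'.1) := fun h => hx (low_right h1 h3 h.1 h.2)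
  have k4 : ¬ (y'.1 < x.1 ∧ y'.1 < x'.1) := fun h => hx (low_right h2 h4 h.1 h.2)
  simp only [Fin.lt_def, ne_eq, Fin.ext_iff] at k1 k2 k3 k4 l1 l2 l3 l4
  omega

instance : DecidableRel graphQ.Adj := fun u v =>
  inferInstanceAs (Decidable (u ≠ v ∧ (((u < 4 ∧ v < 4) ∨ (u ≤ 1 ∧ v = 4) ∨
    (2 ≤ u ∧ u ≤ 3 ∧ v = 5)) ∨ ((v < 4 ∧ u < 4) ∨ (v ≤ 1 ∧ u = 4) ∨ (2 ≤ v ∧ v ≤ 3 ∧ u = 5)))))

theorem tiles_noQ (K R : ℕ) : IsEmpty (graphQ ↪g tiles K R) := by
  refine ⟨fun e => ?_⟩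
  have had : ∀ i j : Fin 6, graphQ.Adj i j → (e i).1 ≠ (e j).1 ∧
      tlo (e i).1.val (e i).2.val ≤ thi (e j).1.val (e j).2.val ∧
      tlo (e j).1.val (e j).2.val ≤ thi (e i).1.val (e i).2.val := by
    intro i j h
    have h1 := (e.map_adj_iff).2 h
    refine ⟨fun h2 => tiles_same_level h2 h1, h1.2⟩
  have hna : ∀ i j : Fin 6, i ≠ j → ¬ graphQ.Adj i j →
      thi (e j).1.val (e j).2.val < tlo (e i).1.val (e i).2.val ∨
      thi (e i).1.val (e i).2.val < tlo (e j).1.val (e j).2.val := by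
    intro i j hne h
    by_contra hcon
    push Not at hcon
    apply h
    rw [← e.map_adj_iff, tiles_adj]
    exact ⟨fun h2 => hne (e.injective h2), hcon⟩
  have hle : ∀ i : Fin 6, tlo (e i).1.val (e i).2.val ≤ thi (e i).1.val (e i).2.val :=
    fun i => tlo_le_thi _ _
  have hinj : ∀ i j : Fin 6, i ≠ j → e i ≠ e j := fun i j h h2 => h (e.injective h2)
  have a01 := had 0 1 (by decide)
  have a02 := had 0 2 (by decide)
  have a03 := had 0 3 (by decide)
  have a12 := had 1 2 (by decide)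
  have a13 := had 1 3 (by decide)
  have a23 := had 2 3 (by decide)
  have a40 := had 4 0 (by decide)
  have a41 := had 4 1 (by decide)
  have a52 := had 5 2 (by decide)
  have a53 := had 5 3 (by decide)
  have n45 := hna 4 5 (by decide) (by decide)
  have n42 := hna 4 2 (by decide) (by decide)
  have n43 := hna 4 3 (by decide) (by decide)
  have n50 := hna 5 0 (by decide) (by decide)
  have n51 := hna 5 1 (by decide) (by decide)
  have l0 := hle 0
  have l1 := hle 1
  have l2 := hle 2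
  have l3 := hle 3
  have l4 := hle 4
  have l5 := hle 5
  have i01 := hinj 0 1 (by decide)
  have i23 := hinj 2 3 (by decide)
  rcases n45 with h | h
  · refine no_cross (x := e 2) (x' := e 3) (y := e 0) (y' := e 1) i23 i01 ?_ ?_ ?_ ?_
      a02.1.symm a12.1.symm a03.1.symm a13.1.symm
    · refine ⟨by omega, by omega, by omega⟩
    · refine ⟨by omega, by omega, by omega⟩
    · refine ⟨by omega, by omega, by omega⟩
    · refine ⟨by omega, by omega, by omega⟩
  · refine no_cross (x := e 0) (x' := e 1) (y := e 2) (y' := e 3) i01 i23 ?_ ?_ ?_ ?_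
      a02.1 a03.1 a12.1 a13.1
    · refine ⟨by omega, by omega, by omega⟩
    · refine ⟨by omega, by omega, by omega⟩
    · refine ⟨by omega, by omega, by omega⟩
    · refine ⟨by omega, by omega, by omega⟩

/-- A `Z`-column to the left of a non-`Z`-column forces many types. -/
theorem tiles_linkage {K R N : ℕ} {Z : Set (Fin K × Fin R)} {τ : Fin K × Fin R → Fin N}
    (hτ : IsTypeMap (tiles K R) Z τ) {B0 B1 : ℕ} (hlt : B0 < B1) (c0 c1 : Fin K → Fin R)
    (h0 : ∀ i, 2 ^ (i.val + 1) * (c0 i).val = B0) (h1 : ∀ i, 2 ^ (i.val + 1) * (c1 i).val = B1)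
    (hZ0 : ∀ i, (i, c0 i) ∈ Z) (hZ1 : ∀ i, (i, c1 i) ∉ Z) : K ≤ N := by
  classical
  have hlt' : ∀ i, c0 i < c1 i := by
    intro i
    rw [Fin.lt_def]
    have h2 : 2 ^ (i.val + 1) * (c0 i).val < 2 ^ (i.val + 1) * (c1 i).val := by
      rw [h0, h1]; exact hlt
    exact lt_of_mul_lt_mul_left h2 (Nat.zero_le _)
  have hlast : ∀ i : Fin K, ∃ z : Fin R, z < c1 i ∧ (i, z) ∈ Z ∧
      ∀ z', z < z' → z' ≤ c1 i → (i, z') ∉ Z := by
    intro i
    let S : Finset (Fin R) := Finset.univ.filter (fun z => z < c1 i ∧ (i, z) ∈ Z)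
    have hS : S.Nonempty := ⟨c0 i, by simp [S, hlt' i, hZ0 i]⟩
    have hm := Finset.max'_mem S hS
    simp only [S, Finset.mem_filter, Finset.mem_univ, true_and] at hm
    refine ⟨S.max' hS, hm.1, hm.2, ?_⟩
    intro z' hz hz' hmem
    rcases lt_or_eq_of_le hz' with h | h
    · have h2 : z' ∈ S := by
        simp only [S, Finset.mem_filter, Finset.mem_univ, true_and]
        exact ⟨h, hmem⟩
      exact absurd hz (not_lt.2 (Finset.le_max' S z' h2))
    · rw [h] at hmem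
      exact hZ1 i hmem
  choose u hu1 hu2 hu3 using hlast
  -- right ends
  have hend : ∀ i, 2 ^ i.val * (2 * (u i).val + 1) < B1 := by
    intro i
    have h2 : (u i).val < (c1 i).val := hu1 i
    have h3 : 2 ^ i.val * (2 * (u i).val + 1) < 2 ^ i.val * (2 * (c1 i).val) := by
      apply Nat.mul_lt_mul_of_pos_left
      · omega
      · positivity
    have h4 : 2 ^ i.val * (2 * (c1 i).val) = 2 ^ (i.val + 1) * (c1 i).val := by
      rw [pow_succ]; ring
    rw [h4, h1] at h3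
    exact h3
  have key : ∀ i i' : Fin K, i < i' →
      ∃ w ∉ Z, ¬ ((tiles K R).Adj (i, u i) w ↔ (tiles K R).Adj (i', u i') w) := by
    intro i i' hii
    have hii' : i.val < i'.val := hii
    rcases lt_trichotomy (2 ^ i.val * (2 * (u i).val + 1)) (2 ^ i'.val * (2 * (u i').val + 1))
      with h | h | h
    · obtain ⟨d, hd⟩ : ∃ d, i'.val = i.val + 1 + d := ⟨i'.val - (i.val + 1), by omega⟩
      obtain ⟨q, hq⟩ : ∃ q, q = 2 ^ d * (2 * (u i').val + 1) := ⟨_, rfl⟩
      have hqe : 2 ^ (i.val + 1) * q = 2 ^ i'.val * (2 * (u i').val + 1) := by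
        rw [hq, hd, pow_add]; ring
      have hq1 : q < (c1 i).val := by
        have h2 : 2 ^ (i.val + 1) * q < 2 ^ (i.val + 1) * (c1 i).val := by
          rw [hqe, h1]; exact hend i'
        exact lt_of_mul_lt_mul_left h2 (Nat.zero_le _)
      have hq2 : (u i).val < q := by
        have h2 : 2 ^ i.val * (2 * (u i).val + 1) < 2 ^ i.val * (2 * q) := by
          have : 2 ^ i.val * (2 * q) = 2 ^ (i.val + 1) * q := by rw [pow_succ]; ring
          rw [this, hqe]; exact h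
        have h3 := lt_of_mul_lt_mul_left h2 (Nat.zero_le _)
        omega
      have hqR : q < R := lt_trans hq1 (c1 i).2
      have hw : (i, (⟨q, hqR⟩ : Fin R)) ∉ Z := by
        apply hu3 i
        · rw [Fin.lt_def]; exact hq2
        · rw [Fin.le_def]; exact hq1.le
      refine ⟨(i, ⟨q, hqR⟩), hw, ?_⟩
      have hnon : ¬ (tiles K R).Adj (i, u i) (i, ⟨q, hqR⟩) := tiles_same_level rfl
      have hadj : (tiles K R).Adj (i', u i') (i, ⟨q, hqR⟩) := by
        rw [tiles_adj]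
        refine ⟨fun h => hw (h ▸ hu2 i'), ?_, ?_⟩
        · simp only [tlo, thi]
          have e1 : ((2 ^ (i.val + 1) * q : ℕ) : ℤ) =
            ((2 ^ i'.val * (2 * (u i').val + 1) : ℕ) : ℤ) := by rw [hqe]
          push_cast at e1
          have e2 : (2 : ℤ) ^ i'.val * (2 * (u i').val - 1) =
            2 ^ i'.val * (2 * (u i').val + 1) - 2 * 2 ^ i'.val := by ring
          have e3 : (2 : ℤ) ^ i.val * (2 * q + 1) = 2 ^ (i.val + 1) * q + 2 ^ i.val := by
            rw [pow_succ]; ring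
          rw [e2, e3, e1]
          have := two_pow_pos' i.val
          have := two_pow_pos' i'.val
          omega
        · simp only [tlo, thi]
          have e1 : ((2 ^ (i.val + 1) * q : ℕ) : ℤ) =
            ((2 ^ i'.val * (2 * (u i').val + 1) : ℕ) : ℤ) := by rw [hqe]
          push_cast at e1
          have e3 : (2 : ℤ) ^ i.val * (2 * q - 1) = 2 ^ (i.val + 1) * q - 2 ^ i.val := by
            rw [pow_succ]; ring
          rw [e3, e1]
          have := two_pow_pos' i.val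
          omega
      intro h
      exact hnon (h.2 hadj)
    · exfalso
      have h2 : (2 : ℤ) ^ i.val * (2 * ((u i).val : ℤ) + 1) =
          2 ^ i'.val * (2 * ((u i').val : ℤ) + 1) := by exact_mod_cast h
      have := (pow_odd_inj h2).1
      omega
    · obtain ⟨E, hE⟩ : ∃ E, E = 2 ^ i.val * (2 * (u i).val + 1) := ⟨_, rfl⟩
      obtain ⟨P, hP⟩ : ∃ P, P = 2 ^ i'.val := ⟨_, rfl⟩
      have hPpos : 0 < P := by rw [hP]; positivity
      have hEB : E < B1 := by rw [hE]; exact hend i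
      obtain ⟨q, hq⟩ : ∃ q, q = (E - 1 + P) / (2 * P) := ⟨_, rfl⟩
      rw [← hE, ← hP] at h
      have hd1 : 2 * P * q ≤ E - 1 + P := by rw [hq]; exact Nat.mul_div_le _ _
      have hd2 : E - 1 + P < 2 * P * (q + 1) := by
        rw [hq]; exact Nat.lt_mul_div_succ _ (by omega)
      have hd3 : 2 * P * (q + 1) = 2 * P * q + 2 * P := by ring
      have hB : 2 * P * (c1 i').val = B1 := by
        rw [← h1 i', pow_succ, hP]; ring
      have hq1 : q ≤ (c1 i').val := by
        have h2 : 2 * P * q < 2 * P * ((c1 i').val + 1) := by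
          have : 2 * P * ((c1 i').val + 1) = 2 * P * (c1 i').val + 2 * P := by ring
          rw [this, hB]
          omega
        have h3 := lt_of_mul_lt_mul_left h2 (Nat.zero_le _)
        omega
      have hq2 : (u i').val < q := by
        have h2 : 2 * P * ((u i').val + 1) < 2 * P * (q + 1) := by
          have : 2 * P * ((u i').val + 1) = P * (2 * (u i').val + 1) + P := by ring
          rw [this]
          omega
        have h3 := lt_of_mul_lt_mul_left h2 (Nat.zero_le _)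
        omega
      have hqR : q < R := lt_of_le_of_lt hq1 (c1 i').2
      have hw : (i', (⟨q, hqR⟩ : Fin R)) ∉ Z := by
        apply hu3 i'
        · rw [Fin.lt_def]; exact hq2
        · rw [Fin.le_def]; exact hq1
      refine ⟨(i', ⟨q, hqR⟩), hw, ?_⟩
      have hnon : ¬ (tiles K R).Adj (i', u i') (i', ⟨q, hqR⟩) := tiles_same_level rfl
      have hadj : (tiles K R).Adj (i, u i) (i', ⟨q, hqR⟩) := by
        rw [tiles_adj]
        have hE' : (E : ℤ) = 2 ^ i.val * (2 * (u i).val + 1) := by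
          rw [hE]; push_cast; ring
        have hP' : (P : ℤ) = 2 ^ i'.val := by
          rw [hP]; push_cast; ring
        have hd1' : (2 : ℤ) * P * q ≤ E - 1 + P := by
          have : ((2 * P * q : ℕ) : ℤ) ≤ ((E - 1 + P : ℕ) : ℤ) := by exact_mod_cast hd1
          push_cast at this
          have hE1 : 1 ≤ E := by omega
          rw [Nat.cast_sub hE1] at this
          push_cast at this
          exact this
        have hd2' : (E : ℤ) - 1 + P < 2 * P * q + 2 * P := by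
          rw [hd3] at hd2
          have : ((E - 1 + P : ℕ) : ℤ) < ((2 * P * q + 2 * P : ℕ) : ℤ) := by exact_mod_cast hd2
          push_cast at this
          have hE1 : 1 ≤ E := by omega
          rw [Nat.cast_sub hE1] at this
          push_cast at this
          exact this
        refine ⟨fun h => hw (h ▸ hu2 i), ?_, ?_⟩
        · simp only [tlo, thi]
          rw [← hP']
          have e2 : (2 : ℤ) ^ i.val * (2 * (u i).val - 1) =
            2 ^ i.val * (2 * (u i).val + 1) - 2 * 2 ^ i.val := by ring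
          rw [e2, ← hE']
          have e3 : (P : ℤ) * (2 * q + 1) = 2 * P * q + P := by ring
          rw [e3]
          have := two_pow_pos' i.val
          omega
        · simp only [tlo, thi]
          rw [← hP', ← hE']
          have e3 : (P : ℤ) * (2 * q - 1) = 2 * P * q - P := by ring
          rw [e3]
          omega
      intro h
      exact hnon (h.1 hadj)
  have := card_le_of_distinguished hτ (Finset.univ : Finset (Fin K)) (fun i => (i, u i))
    (fun i _ => hu2 i) (fun i _ i' _ h => key i i' h)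
  simpa using this

theorem col_lo {i z K : ℕ} {B : ℕ} (hi : i < K) (h : 2 ^ (i + 1) * z = B) :
    (B : ℤ) - 2 ^ K ≤ tlo i z ∧ tlo i z ≤ B := by
  have e1 : ((2 ^ (i + 1) * z : ℕ) : ℤ) = (B : ℤ) := by rw [h]
  push_cast at e1
  have e2 : tlo i z = 2 ^ (i + 1) * z - 2 ^ i := by
    simp only [tlo]; rw [pow_succ]; ring
  have e3 : (2 : ℤ) ^ i ≤ 2 ^ K := pow_le_pow_right₀ (by norm_num) hi.le
  have := two_pow_pos' i
  rw [e2, e1]
  omega

theorem col_hi {i z K : ℕ} {B : ℕ} (hi : i < K) (h : 2 ^ (i + 1) * z = B) :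
    (B : ℤ) ≤ thi i z ∧ thi i z < B + 2 ^ K := by
  have e1 : ((2 ^ (i + 1) * z : ℕ) : ℤ) = (B : ℤ) := by rw [h]
  push_cast at e1
  have e2 : thi i z = 2 ^ (i + 1) * z + 2 ^ i - 1 := by
    simp only [thi]; rw [pow_succ]; ring
  have e3 : (2 : ℤ) ^ i ≤ 2 ^ K := pow_le_pow_right₀ (by norm_num) hi.le
  have := two_pow_pos' i
  rw [e2, e1]
  omega

theorem tiles_mixed {K R n N : ℕ} {Z : Set (Fin K × Fin R)} {τ : Fin K × Fin R → Fin N}
    (hτ : IsTypeMap (tiles K R) Z τ) (cz : Fin K → Fin n → Fin R)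
    (hcz : ∀ i j, 2 ^ (i.val + 1) * (cz i j).val = (2 * j.val + 1) * 2 ^ K) (X : Finset (Fin n))
    (hX : ∀ j ∈ X, (∃ i, (i, cz i j) ∈ Z) ∧ (∃ i, (i, cz i j) ∉ Z)) : X.card ≤ N := by
  classical
  rcases X.eq_empty_or_nonempty with rfl | ⟨j0, hj0⟩
  · simp
  obtain ⟨⟨i0, _⟩, _⟩ := hX j0 hj0
  have hch : ∀ j, ∃ i, j ∈ X → (i, cz i j) ∈ Z := by
    intro j
    by_cases hj : j ∈ X
    · obtain ⟨⟨i, hi⟩, _⟩ := hX j hj
      exact ⟨i, fun _ => hi⟩
    · exact ⟨i0, fun h => absurd h hj⟩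
  choose u hu using hch
  refine card_le_of_distinguished hτ X (fun j => (u j, cz (u j) j)) (fun j hj => hu j hj) ?_
  intro j hj j' hj' hlt
  obtain ⟨_, ⟨i, hi⟩⟩ := hX j hj
  refine ⟨(i, cz i j), hi, ?_⟩
  have a1 := col_lo (i := i.val) i.2 (hcz i j)
  have a2 := col_hi (i := i.val) i.2 (hcz i j)
  have b1 := col_lo (i := (u j).val) (u j).2 (hcz (u j) j)
  have b2 := col_hi (i := (u j).val) (u j).2 (hcz (u j) j)
  have c1 := col_lo (i := (u j').val) (u j').2 (hcz (u j') j')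
  have h1 : (tiles K R).Adj (u j, cz (u j) j) (i, cz i j) := by
    rw [tiles_adj]
    refine ⟨fun h => hi (h ▸ hu j hj), ?_, ?_⟩
    · exact b1.2.trans a2.1
    · exact a1.2.trans b2.1
  have h2 : ¬ (tiles K R).Adj (u j', cz (u j') j') (i, cz i j) := by
    rw [tiles_adj]
    rintro ⟨_, h3, _⟩
    simp only at h3
    have hlt' : j.val < j'.val := hlt
    have h4 : (2 * j.val + 1) * 2 ^ K + 2 * 2 ^ K ≤ (2 * j'.val + 1) * 2 ^ K := by
      have : (2 * j.val + 1) * 2 ^ K + 2 * 2 ^ K = (2 * j.val + 1 + 2) * 2 ^ K := by ring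
      rw [this]
      exact Nat.mul_le_mul_right _ (by omega)
    have h5 : (((2 * j.val + 1) * 2 ^ K + 2 * 2 ^ K : ℕ) : ℤ) ≤
        (((2 * j'.val + 1) * 2 ^ K : ℕ) : ℤ) := by exact_mod_cast h4
    rw [Nat.cast_add] at h5
    have h6 : ((2 * 2 ^ K : ℕ) : ℤ) = 2 * 2 ^ K := by push_cast; ring
    rw [h6] at h5
    omega
  intro h
  exact h2 (h.1 h1)

theorem tiles_full {K R n N : ℕ} {Z : Set (Fin K × Fin R)} {τ : Fin K × Fin R → Fin N}
    (hτ : IsTypeMap (tiles K R) Z τ) (cz : Fin K → Fin n → Fin R)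
    (hcz : ∀ i j, 2 ^ (i.val + 1) * (cz i j).val = (2 * j.val + 1) * 2 ^ K)
    (hcard : K * N < (Set.range (fun p : Fin K × Fin n => (p.1, cz p.1 p.2)) ∩ Z).ncard) :
    ∃ j, ∀ i, (i, cz i j) ∈ Z := by
  classical
  by_contra hcon
  push Not at hcon
  let X : Finset (Fin n) := Finset.univ.filter (fun j => ∃ i, (i, cz i j) ∈ Z)
  have hX : X.card ≤ N := by
    refine tiles_mixed hτ cz hcz X ?_
    intro j hj
    simp only [X, Finset.mem_filter, Finset.mem_univ, true_and] at hj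
    exact ⟨hj, hcon j⟩
  have hsub : (Set.range (fun p : Fin K × Fin n => (p.1, cz p.1 p.2)) ∩ Z) ⊆
      (((Finset.univ ×ˢ X).image (fun p : Fin K × Fin n => (p.1, cz p.1 p.2)) :
        Finset (Fin K × Fin R)) : Set (Fin K × Fin R)) := by
    rintro _ ⟨⟨⟨i, j⟩, rfl⟩, hz⟩
    rw [Finset.coe_image]
    refine ⟨(i, j), ?_, rfl⟩
    simp only [Finset.coe_product, Set.mem_prod, Finset.mem_coe, Finset.mem_univ, true_and]
    simp only [X, Finset.mem_filter, Finset.mem_univ, true_and]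
    exact ⟨i, hz⟩
  have h1 := Set.ncard_le_ncard hsub (Set.toFinite _)
  rw [Set.ncard_coe_finset] at h1
  have h2 := Finset.card_image_le (s := Finset.univ ×ˢ X)
    (f := fun p : Fin K × Fin n => (p.1, cz p.1 p.2))
  rw [Finset.card_product, Finset.card_univ, Fintype.card_fin] at h2
  have h3 : K * X.card ≤ K * N := Nat.mul_le_mul_left _ hX
  omega

theorem tiles_unbounded (k : ℕ) :
    ∃ K R, 0 < K ∧ 0 < R ∧ ¬ CliqueWidthLE (tiles K R) k := by
  classical
  obtain ⟨N, hN⟩ : ∃ N, N = 2 ^ k := ⟨_, rfl⟩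
  obtain ⟨K, hK⟩ : ∃ K, K = N + 1 := ⟨_, rfl⟩
  obtain ⟨n, hn⟩ : ∃ n, n = 3 * K := ⟨_, rfl⟩
  obtain ⟨R, hR⟩ : ∃ R, R = (2 * n + 1) * 2 ^ K := ⟨_, rfl⟩
  have hRpos : 0 < R := by rw [hR]; positivity
  refine ⟨K, R, by omega, hRpos, ?_⟩
  intro hcw
  have hczR : ∀ (i : Fin K) (j : Fin n), (2 * j.val + 1) * 2 ^ (K - 1 - i.val) < R := by
    intro i j
    rw [hR]
    have h1 : 2 * j.val + 1 < 2 * n + 1 := by have := j.2; omega
    have h2 : 2 ^ (K - 1 - i.val) ≤ 2 ^ K := Nat.pow_le_pow_right (by norm_num) (by omega)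
    exact Nat.mul_lt_mul_of_lt_of_le h1 h2 (by positivity)
  let cz : Fin K → Fin n → Fin R := fun i j => ⟨(2 * j.val + 1) * 2 ^ (K - 1 - i.val), hczR i j⟩
  have hcz : ∀ i j, 2 ^ (i.val + 1) * (cz i j).val = (2 * j.val + 1) * 2 ^ K := by
    intro i j
    have h1 : K = (i.val + 1) + (K - 1 - i.val) := by have := i.2; omega
    simp only [cz]
    conv_rhs => rw [h1, pow_add]
    ring
  let S : Set (Fin K × Fin R) := Set.range (fun p : Fin K × Fin n => (p.1, cz p.1 p.2))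
  have hScard : S.ncard = 3 * (K * K) := by
    have hinj : Function.Injective (fun p : Fin K × Fin n => (p.1, cz p.1 p.2)) := by
      rintro ⟨i, j⟩ ⟨i', j'⟩ h
      simp only [Prod.mk.injEq] at h
      obtain ⟨rfl, h2⟩ := h
      have h3 := hcz i j
      rw [h2, hcz i j'] at h3
      have h4 := Nat.eq_of_mul_eq_mul_right (by positivity) h3
      have h5 : j = j' := Fin.ext (by omega)
      rw [h5]
    change (Set.range _).ncard = _
    rw [← Set.image_univ, Set.ncard_image_of_injective _ hinj, Set.ncard_univ, Nat.card_prod,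
      Nat.card_fin, Nat.card_fin, hn]
    ring
  have hKK : 1 ≤ K * K := Nat.mul_pos (by omega) (by omega)
  obtain ⟨Z, hZ, h1, h2⟩ := exists_fewTypes hcw S (M := K * K) hKK (by rw [hScard]; omega)
  rw [← hN] at hZ
  have hsplit : (S ∩ Z).ncard + (S \ Z).ncard = S.ncard :=
    Set.ncard_inter_add_ncard_sdiff_eq_ncard S Z (Set.toFinite _)
  have hKN : K * N < K * K := Nat.mul_lt_mul_of_pos_left (by omega) (by omega)
  obtain ⟨τ, hτ⟩ := hZ.1
  obtain ⟨τ', hτ'⟩ := hZ.2
  obtain ⟨j0, h3⟩ := tiles_full hτ cz hcz (lt_trans hKN h1)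
  obtain ⟨j1, h4⟩ := tiles_full hτ' cz hcz (by
    refine lt_of_lt_of_le hKN ?_
    change _ ≤ (S ∩ Zᶜ).ncard
    rw [← Set.sdiff_eq]
    omega)
  have hB : ∀ j j' : Fin n, j < j' → (2 * j.val + 1) * 2 ^ K < (2 * j'.val + 1) * 2 ^ K := by
    intro j j' h
    rw [Fin.lt_def] at h
    exact Nat.mul_lt_mul_of_pos_right (by omega) (by positivity)
  rcases lt_trichotomy j0 j1 with h | h | h
  · have := tiles_linkage hτ (hB _ _ h) (fun i => cz i j0) (fun i => cz i j1)
      (fun i => hcz i j0) (fun i => hcz i j1) h3 (fun i => h4 i)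
    omega
  · subst h
    exact h4 ⟨0, by omega⟩ (h3 ⟨0, by omega⟩)
  · have := tiles_linkage hτ' (hB _ _ h) (fun i => cz i j1) (fun i => cz i j0)
      (fun i => hcz i j1) (fun i => hcz i j0) h4 (fun i hi => hi (h3 i))
    omega

theorem noQ_of_bounded {W : Type} {H : SimpleGraph W} (h : BoundedOnHFreeInterval H) :
    IsEmpty (graphQ ↪g H) := by
  by_contra hne
  rw [not_isEmpty_iff] at hne
  obtain ⟨q⟩ := hne
  refine not_bounded_of_family (H := H) ?_ h
  intro k
  obtain ⟨K, R, hK, hR, hk⟩ := tiles_unbounded k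
  have : Nonempty (Fin K × Fin R) := ⟨(⟨0, hK⟩, ⟨0, hR⟩)⟩
  refine ⟨Fin K × Fin R, inferInstance, this, tiles K R, intGraph_interval ?_,
    ⟨fun e => (tiles_noQ K R).false (q.trans e)⟩, hk⟩
  intro v
  exact tlo_le_thi _ _

end Pool.Agent.Work.MP_84a460_co
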